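import Mathlib
import Pool.Agent.H532.RM.SM

/-!
Counting versions of the truncated second moment bounds for families of windows.
-/

namespace Pool.Agent.H532.LG

open Finset MeasureTheory Function Pool.Agent.H532.RM
open scoped ENNReal

/-- The second moment method with weights, counting version. -/
theorem second_moment_count {Y : Type} [MeasurableSpace Y] (π : Measure Y) [IsProbabilityMeasure π]
    {ι : Type} [DecidableEq ι] (s : Finset ι) (hs : s.Nonempty) (w y : ι → Y → ℝ)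
    (G : ι → Set Y) (D e1 e2 e3 : ℝ) (hD0 : 0 ≤ D) (he2 : 0 ≤ e2)
    (hw0 : ∀ i ∈ s, ∀ ω, 0 ≤ w i ω) (hy0 : ∀ i ∈ s, ∀ ω, 0 ≤ y i ω)
    (hwi : ∀ i ∈ s, Integrable (w i) π) (hyi : ∀ i ∈ s, Integrable (y i) π)
    (hwwi : ∀ i ∈ s, ∀ k ∈ s, i ≠ k → Integrable (fun ω => w i ω * w k ω) π)
    (hG : ∀ i ∈ s, MeasurableSet (G i))
    (hwy : ∀ i ∈ s, ∀ ω, ω ∉ G i → w i ω ≤ y i ω)
    (hD : ∀ i ∈ s, ∀ ω, ω ∈ G i → w i ω ≤ D)
    (h1 : ∀ i ∈ s, 1 - e1 ≤ ∫ ω, w i ω ∂π) (h1' : ∀ i ∈ s, ∫ ω, w i ω ∂π ≤ 1)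
    (h2 : ∀ i ∈ s, ∀ k ∈ s, i ≠ k → ∫ ω, w i ω * w k ω ∂π ≤ 1 + e2)
    (h3 : ∀ i ∈ s, ∫ ω, y i ω ∂π ≤ e3) :
    π.real {ω | (∑ i ∈ s, (G i).indicator (fun _ => (1 : ℝ)) ω) * (2 * D) < s.card} ≤
      4 * (2 * e1 + e2 + D / s.card + 2 * e3) := by
  classical
  set m : ℝ := (s.card : ℝ) with hm
  have hm0 : 0 < m := by rw [hm]; exact_mod_cast hs.card_pos
  set B : Set Y := {ω | (∑ i ∈ s, (G i).indicator (fun _ => (1 : ℝ)) ω) * (2 * D) < m} with hB
  have hBm : MeasurableSet B := by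
    have h1 : Measurable (fun ω => (∑ i ∈ s, (G i).indicator (fun _ => (1 : ℝ)) ω) * (2 * D)) :=
      (Finset.measurable_sum s fun i hi => measurable_const.indicator (hG i hi)).mul_const _
    exact measurableSet_lt h1 measurable_const
  have hpt : ∀ ω, B.indicator (fun _ => (1 / 4 : ℝ)) ω + (2 / m) * ∑ i ∈ s, w i ω ≤
      1 + ((1 / m ^ 2) * (D * ∑ i ∈ s, w i ω) +
        (1 / m ^ 2) * ∑ i ∈ s, ∑ k ∈ s.erase i, w i ω * w k ω) + (2 / m) * ∑ i ∈ s, y i ω := by
    intro ω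
    set v : ι → ℝ := fun i => if ω ∈ G i then w i ω else 0 with hv
    have hv0 : ∀ i ∈ s, 0 ≤ v i := by
      intro i hi; rw [hv]; simp only; split_ifs
      · exact hw0 i hi ω
      · exact le_rfl
    have hvw : ∀ i ∈ s, v i ≤ w i ω := by
      intro i hi; rw [hv]; simp only; split_ifs
      · exact le_rfl
      · exact hw0 i hi ω
    have hwv : ∀ i ∈ s, w i ω ≤ v i + y i ω := by
      intro i hi; rw [hv]; simp only; split_ifs with h
      · have := hy0 i hi ω; linarith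
      · have := hwy i hi ω h; linarith
    have hvD : ∀ i ∈ s, v i ≤ D := by
      intro i hi; rw [hv]; simp only; split_ifs with h
      · exact hD i hi ω h
      · exact hD0
    set T : ℝ := ∑ i ∈ s, v i with hT
    have hTB : B.indicator (fun _ => (1 / 4 : ℝ)) ω ≤ (1 - T / m) ^ 2 := by
      by_cases hω : ω ∈ B
      · rw [Set.indicator_of_mem hω]
        have h1 : T ≤ (∑ i ∈ s, (G i).indicator (fun _ => (1 : ℝ)) ω) * D := by
          rw [hT, sum_mul]
          refine sum_le_sum fun i hi => ?_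
          by_cases hi' : ω ∈ G i
          · rw [Set.indicator_of_mem hi', one_mul]; exact hvD i hi
          · rw [Set.indicator_of_notMem hi', zero_mul, hv]
            simp only
            rw [if_neg hi']
        have h2 : (∑ i ∈ s, (G i).indicator (fun _ => (1 : ℝ)) ω) * (2 * D) < m := hω
        have h3 : T / m ≤ 1 / 2 := by
          rw [div_le_iff₀ hm0]; linarith
        nlinarith
      · rw [Set.indicator_of_notMem hω]; positivity
    have hT2 : T ^ 2 ≤ D * ∑ i ∈ s, w i ω + ∑ i ∈ s, ∑ k ∈ s.erase i, w i ω * w k ω := by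
      rw [hT, sq, sum_mul_sum, mul_sum, ← sum_add_distrib]
      refine sum_le_sum fun i hi => ?_
      rw [← add_sum_erase s _ hi]
      refine add_le_add ?_ (sum_le_sum fun k hk => ?_)
      · exact mul_le_mul (hvD i hi) (hvw i hi) (hv0 i hi) hD0
      · exact mul_le_mul (hvw i hi) (hvw k (mem_of_mem_erase hk)) (hv0 k (mem_of_mem_erase hk))
          (hw0 i hi ω)
    have hTw : ∑ i ∈ s, w i ω ≤ T + ∑ i ∈ s, y i ω := by
      rw [hT, ← sum_add_distrib]; exact sum_le_sum hwv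
    have e1 : (1 - T / m) ^ 2 = 1 - 2 / m * T + 1 / m ^ 2 * T ^ 2 := by
      field_simp
      ring
    have h5 : 2 / m * ∑ i ∈ s, w i ω ≤ 2 / m * (T + ∑ i ∈ s, y i ω) := by gcongr
    have h6 : 1 / m ^ 2 * T ^ 2 ≤ 1 / m ^ 2 * (D * ∑ i ∈ s, w i ω +
        ∑ i ∈ s, ∑ k ∈ s.erase i, w i ω * w k ω) := by gcongr
    rw [e1] at hTB
    rw [mul_add] at h5 h6
    linarith
  have I1 : Integrable (B.indicator (fun _ => (1 / 4 : ℝ))) π :=
    (integrable_const (1 / 4 : ℝ)).indicator hBm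
  have I2 : Integrable (fun ω => ∑ i ∈ s, w i ω) π := integrable_finset_sum s hwi
  have I3 : Integrable (fun ω => ∑ i ∈ s, y i ω) π := integrable_finset_sum s hyi
  have I4 : Integrable (fun ω => ∑ i ∈ s, ∑ k ∈ s.erase i, w i ω * w k ω) π :=
    integrable_finset_sum s fun i hi => integrable_finset_sum _ fun k hk =>
      hwwi i hi k (mem_of_mem_erase hk) (ne_of_mem_erase hk).symm
  have J1 : Integrable (fun ω => (2 / m) * ∑ i ∈ s, w i ω) π := I2.const_mul (2 / m)
  have J2 : Integrable (fun ω => (1 / m ^ 2) * (D * ∑ i ∈ s, w i ω)) π :=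
    (I2.const_mul D).const_mul (1 / m ^ 2)
  have J3 : Integrable (fun ω => (1 / m ^ 2) * ∑ i ∈ s, ∑ k ∈ s.erase i, w i ω * w k ω) π :=
    I4.const_mul (1 / m ^ 2)
  have J4 : Integrable (fun ω => (2 / m) * ∑ i ∈ s, y i ω) π := I3.const_mul (2 / m)
  have J23 : Integrable (fun ω => (1 / m ^ 2) * (D * ∑ i ∈ s, w i ω) +
      (1 / m ^ 2) * ∑ i ∈ s, ∑ k ∈ s.erase i, w i ω * w k ω) π := J2.add J3
  have J0 : Integrable (fun _ : Y => (1 : ℝ)) π := integrable_const 1
  have J023 : Integrable (fun ω => 1 + ((1 / m ^ 2) * (D * ∑ i ∈ s, w i ω) +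
      (1 / m ^ 2) * ∑ i ∈ s, ∑ k ∈ s.erase i, w i ω * w k ω)) π := J0.add J23
  have JL : Integrable (fun ω => B.indicator (fun _ => (1 / 4 : ℝ)) ω +
      (2 / m) * ∑ i ∈ s, w i ω) π := I1.add J1
  have JR : Integrable (fun ω => 1 + ((1 / m ^ 2) * (D * ∑ i ∈ s, w i ω) +
      (1 / m ^ 2) * ∑ i ∈ s, ∑ k ∈ s.erase i, w i ω * w k ω) + (2 / m) * ∑ i ∈ s, y i ω) π :=
    J023.add J4
  have hint := integral_mono (μ := π) JL JR hpt
  rw [integral_add I1 J1, integral_add J023 J4, integral_add J0 J23, integral_add J2 J3,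
    integral_const_mul, integral_const_mul, integral_const_mul, integral_const_mul,
    integral_const_mul, integral_finset_sum s hwi, integral_finset_sum s hyi,
    integral_finset_sum s fun i hi => integrable_finset_sum _ fun k hk =>
      hwwi i hi k (mem_of_mem_erase hk) (ne_of_mem_erase hk).symm,
    integral_indicator hBm] at hint
  have e : ∀ i ∈ s, ∫ ω, ∑ k ∈ s.erase i, w i ω * w k ω ∂π =
      ∑ k ∈ s.erase i, ∫ ω, w i ω * w k ω ∂π := by
    intro i hi
    exact integral_finset_sum _ fun k hk =>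
      hwwi i hi k (mem_of_mem_erase hk) (ne_of_mem_erase hk).symm
  rw [sum_congr rfl e] at hint
  have hB1 : ∫ _ in B, (1 / 4 : ℝ) ∂π = π.real B * (1 / 4) := by simp
  have hO1 : ∫ _, (1 : ℝ) ∂π = 1 := by simp
  rw [hB1, hO1] at hint
  have b1 : m * (1 - e1) ≤ ∑ i ∈ s, ∫ ω, w i ω ∂π := by
    have := card_nsmul_le_sum s (fun i => ∫ ω, w i ω ∂π) (1 - e1) h1
    rwa [nsmul_eq_mul] at this
  have b1' : ∑ i ∈ s, ∫ ω, w i ω ∂π ≤ m * 1 := by
    have := sum_le_card_nsmul s (fun i => ∫ ω, w i ω ∂π) 1 h1'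
    rwa [nsmul_eq_mul] at this
  have b3 : ∑ i ∈ s, ∫ ω, y i ω ∂π ≤ m * e3 := by
    have := sum_le_card_nsmul s (fun i => ∫ ω, y i ω ∂π) e3 h3
    rwa [nsmul_eq_mul] at this
  have b2 : ∑ i ∈ s, ∑ k ∈ s.erase i, ∫ ω, w i ω * w k ω ∂π ≤ m * (m * (1 + e2)) := by
    have h4 : ∀ i ∈ s, ∑ k ∈ s.erase i, ∫ ω, w i ω * w k ω ∂π ≤ m * (1 + e2) := by
      intro i hi
      have h5 := sum_le_card_nsmul (s.erase i) (fun k => ∫ ω, w i ω * w k ω ∂π) (1 + e2)
        fun k hk => h2 i hi k (mem_of_mem_erase hk) (ne_of_mem_erase hk).symm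
      rw [nsmul_eq_mul] at h5
      refine h5.trans ?_
      have h6 : ((s.erase i).card : ℝ) ≤ m := by
        rw [hm]; exact_mod_cast card_le_card (erase_subset _ _)
      gcongr
    have := sum_le_card_nsmul s _ _ h4
    rwa [nsmul_eq_mul] at this
  have c1 : 2 * (1 - e1) ≤ 2 / m * ∑ i ∈ s, ∫ ω, w i ω ∂π := by
    calc 2 * (1 - e1) = 2 / m * (m * (1 - e1)) := by field_simp
      _ ≤ _ := by gcongr
  have c2 : (1 / m ^ 2) * (D * ∑ i ∈ s, ∫ ω, w i ω ∂π) ≤ D / m := by
    calc (1 / m ^ 2) * (D * ∑ i ∈ s, ∫ ω, w i ω ∂π) ≤ (1 / m ^ 2) * (D * (m * 1)) := by gcongr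
      _ = D / m := by field_simp
  have c3 : (1 / m ^ 2) * ∑ i ∈ s, ∑ k ∈ s.erase i, ∫ ω, w i ω * w k ω ∂π ≤ 1 + e2 := by
    calc (1 / m ^ 2) * ∑ i ∈ s, ∑ k ∈ s.erase i, ∫ ω, w i ω * w k ω ∂π
        ≤ (1 / m ^ 2) * (m * (m * (1 + e2))) := by gcongr
      _ = 1 + e2 := by field_simp
  have c4 : (2 / m) * ∑ i ∈ s, ∫ ω, y i ω ∂π ≤ 2 * e3 := by
    calc (2 / m) * ∑ i ∈ s, ∫ ω, y i ω ∂π ≤ (2 / m) * (m * e3) := by gcongr
      _ = 2 * e3 := by field_simp
  linarith


/-- Many windows with the right number of survivors. -/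
theorem sm_count (ν' : ℕ → Measure ℕ) [∀ p, IsProbabilityMeasure (ν' p)]
    (g C h : ℝ) (hg : -1 < g) (hC : |g| ≤ C * min 1 (1 + g)) (hC1 : 1 ≤ C) (h0 : 0 < h)
    (hh : h ≤ 1 / 2) {ι : Type} [DecidableEq ι] (s : Finset ι) (hs : s.Nonempty)
    (S : ι → Finset ℕ) (st : ι → ℕ) {U W N J : ℕ} {P : Finset ℕ} (hW : 0 < W)
    (hν : ∀ p ∈ P, UnifOn (ν' p) p) (hPp : ∀ p ∈ P, p.Prime)
    (hS : ∀ i ∈ s, InWin (st i) U (S i)) (hN : ∀ i ∈ s, (S i).card = N)
    (hJ : ∀ i ∈ s, ∀ n ∈ S i, n < 2 ^ J)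
    (hdis : ∀ i ∈ s, ∀ k ∈ s, i ≠ k → Disjoint (S i) (S k))
    (hP : ∀ p ∈ P, W < p) (hUW : U ≤ W) (hCN : 10 * C * N ≤ W)
    (hgρ : |g * rho 1 P| ≤ h / 24) (b : ℝ) (hb : b = (1 + g) * rho 1 P * N) (x : ℕ → ℕ) :
    lmarginal ν' P (fun a => if
      ((s.filter (fun i => (1 - h) * b ≤ ((surv (OmD {0}) P a (S i)).card : ℝ) ∧
        ((surv (OmD {0}) P a (S i)).card : ℝ) ≤ (1 + h) * b)).card : ℝ) * (2 *
      Real.exp (b * Real.log (1 + g) - g * rho 1 P * N + h * b * |Real.log (1 + g)| +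
          2 * (g * rho 1 P) ^ 2 * N)) < s.card then 1 else 0) x ≤
      ENNReal.ofReal (4 * (4 * C ^ 2 * (N : ℝ) ^ 2 / W +
        (Real.exp (2 * C ^ 2 * (N : ℝ) ^ 2 * J / W) - 1) +
        Real.exp (b * Real.log (1 + g) - g * rho 1 P * N + h * b * |Real.log (1 + g)| +
          2 * (g * rho 1 P) ^ 2 * N) / s.card + 4 * Real.exp (-(b * h ^ 2 / 12)))) := by
  classical
  have hW' : (0 : ℝ) < W := by exact_mod_cast hW
  have hpos : ∀ p ∈ P, 0 < p := fun p hp => by have := hP p hp; omega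
  set ρ := rho 1 P with hρ
  have hρ0 : 0 ≤ ρ := rho_one_nonneg P hpos
  have hρ1 : ρ ≤ 1 := rho_one_le P hpos
  set q : ℝ := 1 + g * ρ with hq
  have hκ := abs_le.1 hgρ
  have hq0 : 0 < q := by rw [hq]; linarith
  have hC0 : 0 ≤ C := by linarith
  have hgC : |g| ≤ C := hC.trans (by
    have := mul_le_mul_of_nonneg_left (min_le_left 1 (1 + g)) hC0; linarith)
  have hgC' : |g| ≤ C * (1 + g) := hC.trans (by
    have := mul_le_mul_of_nonneg_left (min_le_right 1 (1 + g)) hC0; linarith)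
  have hga := abs_le.1 hgC
  set g1 : ℝ := g + h * (1 + g) with hg1
  set g2 : ℝ := g - h * (1 + g) with hg2
  have e11 : 1 + g1 = (1 + g) * (1 + h) := by rw [hg1]; ring
  have e22 : 1 + g2 = (1 + g) * (1 - h) := by rw [hg2]; ring
  have hgp : 0 < 1 + g := by linarith
  have hg1' : -1 < g1 := by
    have : 0 < (1 + g) * (1 + h) := by positivity
    linarith
  have hg2' : -1 < g2 := by
    have : 0 < (1 + g) * (1 - h) := mul_pos hgp (by linarith)
    linarith
  set C1 : ℝ := 2 * C + 1 with hC1'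
  have hcond1 : |g1| ≤ C1 * min 1 (1 + g1) := by
    have a1 : |g1| ≤ |g| + h * (1 + g) := by
      rw [hg1]
      refine (abs_add_le _ _).trans ?_
      rw [abs_of_nonneg (show 0 ≤ h * (1 + g) by positivity)]
    rcases le_total 1 (1 + g1) with h3 | h3
    · rw [min_eq_left h3, mul_one]
      refine a1.trans ?_
      rw [hC1']
      nlinarith
    · rw [min_eq_right h3, e11]
      refine a1.trans ?_
      rw [hC1']
      nlinarith [mul_nonneg hgp.le h0.le, mul_nonneg hC0 (mul_nonneg hgp.le h0.le),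
        mul_nonneg hC0 hgp.le]
  have hcond2 : |g2| ≤ C1 * min 1 (1 + g2) := by
    have a1 : |g2| ≤ |g| + h * (1 + g) := by
      rw [hg2]
      refine (abs_sub _ _).trans ?_
      rw [abs_of_nonneg (show 0 ≤ h * (1 + g) by positivity)]
    rcases le_total 1 (1 + g2) with h3 | h3
    · rw [min_eq_left h3, mul_one]
      refine a1.trans ?_
      rw [hC1']
      nlinarith
    · rw [min_eq_right h3, e22]
      refine a1.trans ?_
      rw [hC1']
      have a2 : (1 + g) * (1 / 2) ≤ (1 + g) * (1 - h) := by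
        have : (1 : ℝ) / 2 ≤ 1 - h := by linarith
        gcongr
      nlinarith [mul_nonneg hC0 hgp.le]
  have hN0 : (0 : ℝ) ≤ N := Nat.cast_nonneg _
  have hCN1 : 2 * C * (N : ℝ) ≤ W := by nlinarith
  have hCN4 : 4 * C * (N : ℝ) ≤ W := by nlinarith
  have hCN2 : 2 * C1 * (N : ℝ) ≤ W := by rw [hC1']; nlinarith
  set π : Measure (P → ℕ) := Measure.pi (fun i : P => ν' i) with hπ
  set c : ι → (P → ℕ) → ℕ := fun i y => (surv (OmD {0}) P (updateFinset x P y) (S i)).card
    with hc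
  set w : ι → (P → ℕ) → ℝ := fun i y => (1 + g) ^ (c i y) / q ^ N with hw
  set bb : ℝ := (1 + h) * b with hbb
  set aa : ℝ := (1 - h) * b with haa
  have hb0 : 0 ≤ b := by rw [hb]; positivity
  set E1 : ℝ := Real.exp (-(bb * Real.log (1 + h))) with hE1
  set E2 : ℝ := Real.exp (-(aa * Real.log (1 - h))) with hE2
  set yy : ι → (P → ℕ) → ℝ := fun i y =>
    (1 + g1) ^ (c i y) * (E1 / q ^ N) + (1 + g2) ^ (c i y) * (E2 / q ^ N) with hyy
  have hqN : 0 < q ^ N := pow_pos hq0 N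
  have meas : ∀ (f : (P → ℕ) → ℝ), Measurable f := fun f => measurable_of_countable _
  have lm1 : ∀ (t : ℝ) (Ct : ℝ), -1 < t → |t| ≤ Ct * min 1 (1 + t) → 2 * Ct * (N : ℝ) ≤ W →
      ∀ i ∈ s, Integrable (fun y => (1 + t) ^ (c i y)) π ∧
        ∫ y, (1 + t) ^ (c i y) ∂π ≤ (1 + t * ρ) ^ N := by
    intro t Ct ht htC htN i hi
    have h3 := gf1_upper ν' t Ct ht htC hν (hS i hi) hP hUW (by rw [hN i hi]; exact htN) x
    rw [hN i hi] at h3
    have h4 : 0 ≤ 1 + t * ρ := by
      have := (damp ht htC hρ0 hρ1).1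
      linarith
    refine int_of_lm (fun y => ?_) (meas _) (pow_nonneg h4 N) h3
    have : 0 < 1 + t := by linarith
    positivity
  have hwint : ∀ i ∈ s, Integrable (w i) π ∧ ∫ y, w i y ∂π ≤ 1 := by
    intro i hi
    obtain ⟨h3, h4⟩ := lm1 g C hg hC hCN1 i hi
    refine ⟨h3.div_const _, ?_⟩
    rw [hw]
    simp only
    rw [integral_div, div_le_one hqN]
    exact h4
  have hwlow : ∀ i ∈ s, 1 - 2 * C ^ 2 * (N : ℝ) ^ 2 / W ≤ ∫ y, w i y ∂π := by
    intro i hi
    obtain ⟨h3, _⟩ := lm1 g C hg hC hCN1 i hi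
    have h4 := gf1_lower ν' g C hg hC hC0 hW hν (hS i hi) hP hUW
      (by rw [hN i hi]; exact hCN1) x
    rw [hN i hi] at h4
    have h5 := le_of_lm (π := π) (f := fun y => (1 + g) ^ (c i y))
      (fun y => pow_nonneg hgp.le _) h3 h4
    rw [hw]
    simp only
    rw [integral_div, le_div_iff₀ hqN, mul_comm]
    exact h5
  have hww : ∀ i ∈ s, ∀ k ∈ s, i ≠ k → Integrable (fun y => w i y * w k y) π ∧
      ∫ y, w i y * w k y ∂π ≤ 1 + (Real.exp (2 * C ^ 2 * (N : ℝ) ^ 2 * J / W) - 1) := by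
    intro i hi k hk hik
    have h3 := gf2_upper ν' g C hg hC hW hν hPp (hS i hi) (hS k hk) (hdis i hi k hk hik)
      (hN i hi) (hN k hk) (hJ i hi) (hJ k hk) hP hUW hCN4 x
    have h4 := int_of_lm (π := π) (f := fun y => (1 + g) ^ (c i y) * (1 + g) ^ (c k y))
      (fun y => by positivity) (meas _) (by positivity) h3
    have e : (fun y => w i y * w k y) =
        fun y => ((1 + g) ^ (c i y) * (1 + g) ^ (c k y)) / (q ^ N * q ^ N) := by
      funext y
      rw [hw]
      simp only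
      rw [div_mul_div_comm]
    rw [e]
    refine ⟨h4.1.div_const _, ?_⟩
    rw [integral_div, div_le_iff₀ (by positivity)]
    refine h4.2.trans (le_of_eq ?_)
    rw [← hq]; ring
  have hyint : ∀ i ∈ s, Integrable (yy i) π ∧
      ∫ y, yy i y ∂π ≤ 2 * Real.exp (-(b * h ^ 2 / 12)) := by
    intro i hi
    obtain ⟨h3, h4⟩ := lm1 g1 C1 hg1' hcond1 hCN2 i hi
    obtain ⟨h5, h6⟩ := lm1 g2 C1 hg2' hcond2 hCN2 i hi
    have i1 : Integrable (fun y => (1 + g1) ^ (c i y) * (E1 / q ^ N)) π := h3.mul_const _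
    have i2 : Integrable (fun y => (1 + g2) ^ (c i y) * (E2 / q ^ N)) π := h5.mul_const _
    refine ⟨i1.add i2, ?_⟩
    rw [hyy]
    simp only
    rw [integral_add i1 i2, integral_mul_const, integral_mul_const]
    have hE10 : 0 ≤ E1 / q ^ N := by positivity
    have hE20 : 0 ≤ E2 / q ^ N := by positivity
    obtain ⟨x1, x2⟩ := xlogx_h h h0 hh
    -- `1 / q`
    have hq1 : 1 / q ≤ 1 + h / 12 := by
      rw [div_le_iff₀ hq0, hq]; nlinarith
    have hq2 : 1 - h / 24 ≤ 1 / q := by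
      rw [le_div_iff₀ hq0, hq]; nlinarith
    have hbN : N * (h * (1 + g) * ρ / q) = h * b * (1 / q) := by
      rw [hb]; field_simp
    have k1 : (1 + g1 * ρ) ^ N * (E1 / q ^ N) ≤ Real.exp (-(b * h ^ 2 / 12)) := by
      have a1 : (1 + g1 * ρ) / q ≤ Real.exp (h * (1 + g) * ρ / q) := by
        have : (1 + g1 * ρ) / q = h * (1 + g) * ρ / q + 1 := by
          rw [hg1]; field_simp; rw [hq]; ring
        rw [this]; exact Real.add_one_le_exp _
      have a0 : 0 ≤ 1 + g1 * ρ := by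
        have := (damp hg1' hcond1 hρ0 hρ1).1; linarith
      calc (1 + g1 * ρ) ^ N * (E1 / q ^ N) = ((1 + g1 * ρ) / q) ^ N * E1 := by
            rw [div_pow]; ring
        _ ≤ (Real.exp (h * (1 + g) * ρ / q)) ^ N * E1 := by gcongr
        _ = Real.exp (h * b * (1 / q) + -(bb * Real.log (1 + h))) := by
            rw [← Real.exp_nat_mul, hbN, hE1, ← Real.exp_add]
        _ ≤ Real.exp (-(b * h ^ 2 / 12)) := by
            refine Real.exp_le_exp.2 ?_
            have b1 : h * b * (1 / q) ≤ h * b * (1 + h / 12) := by gcongr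
            rw [hbb]
            nlinarith [mul_le_mul_of_nonneg_left x1 hb0]
    have k2 : (1 + g2 * ρ) ^ N * (E2 / q ^ N) ≤ Real.exp (-(b * h ^ 2 / 12)) := by
      have a1 : (1 + g2 * ρ) / q ≤ Real.exp (-(h * (1 + g) * ρ / q)) := by
        have : (1 + g2 * ρ) / q = -(h * (1 + g) * ρ / q) + 1 := by
          rw [hg2]; field_simp; rw [hq]; ring
        rw [this]; exact Real.add_one_le_exp _
      have a0 : 0 ≤ 1 + g2 * ρ := by
        have := (damp hg2' hcond2 hρ0 hρ1).1; linarith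
      calc (1 + g2 * ρ) ^ N * (E2 / q ^ N) = ((1 + g2 * ρ) / q) ^ N * E2 := by
            rw [div_pow]; ring
        _ ≤ (Real.exp (-(h * (1 + g) * ρ / q))) ^ N * E2 := by gcongr
        _ = Real.exp (-(h * b * (1 / q)) + -(aa * Real.log (1 - h))) := by
            rw [← Real.exp_nat_mul, mul_neg, hbN, hE2, ← Real.exp_add]
        _ ≤ Real.exp (-(b * h ^ 2 / 12)) := by
            refine Real.exp_le_exp.2 ?_
            have b1 : h * b * (1 - h / 24) ≤ h * b * (1 / q) := by gcongr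
            rw [haa]
            nlinarith [mul_le_mul_of_nonneg_left x2 hb0, mul_nonneg hb0 (sq_nonneg h)]
    have k3 : (∫ y, (1 + g1) ^ (c i y) ∂π) * (E1 / q ^ N) ≤ (1 + g1 * ρ) ^ N * (E1 / q ^ N) := by
      gcongr
    have k4 : (∫ y, (1 + g2) ^ (c i y) ∂π) * (E2 / q ^ N) ≤ (1 + g2 * ρ) ^ N * (E2 / q ^ N) := by
      gcongr
    linarith
  set G : ι → Set (P → ℕ) := fun i => {y | aa ≤ (c i y : ℝ) ∧ (c i y : ℝ) ≤ bb} with hG
  set D : ℝ := Real.exp (b * Real.log (1 + g) - g * ρ * N + h * b * |Real.log (1 + g)| +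
          2 * (g * ρ) ^ 2 * N) with hD
  have hmain := second_moment_count π s hs w yy G D (2 * C ^ 2 * (N : ℝ) ^ 2 / W)
    (Real.exp (2 * C ^ 2 * (N : ℝ) ^ 2 * J / W) - 1) (2 * Real.exp (-(b * h ^ 2 / 12)))
    (Real.exp_pos _).le (by
      have : 1 ≤ Real.exp (2 * C ^ 2 * (N : ℝ) ^ 2 * J / W) := Real.one_le_exp (by positivity)
      linarith)
    (fun i _ y => by rw [hw]; positivity)
    (fun i _ y => by
      rw [hyy]
      have a1 : 0 < 1 + g1 := by linarith
      have a2 : 0 < 1 + g2 := by linarith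
      positivity)
    (fun i hi => (hwint i hi).1) (fun i hi => (hyint i hi).1)
    (fun i hi k hk hik => (hww i hi k hk hik).1)
    (fun i _ => by
      have : G i = (c i) ⁻¹' {n : ℕ | aa ≤ (n : ℝ) ∧ (n : ℝ) ≤ bb} := rfl
      rw [this]
      exact (measurable_of_countable (c i)) MeasurableSet.of_discrete)
    (fun i hi y hy => by
      have a1 : 0 < 1 + g1 := by linarith
      have a2 : 0 < 1 + g2 := by linarith
      have hn : c i y < aa ∨ bb < c i y := by
        by_contra hcon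
        push Not at hcon
        exact hy ⟨hcon.1, hcon.2⟩
      rw [hw, hyy]
      simp only
      have t1 : 0 ≤ (1 + g1) ^ (c i y) * (E1 / q ^ N) := by positivity
      have t2 : 0 ≤ (1 + g2) ^ (c i y) * (E2 / q ^ N) := by positivity
      rcases hn with hn | hn
      · have : (1 + g) ^ (c i y) / q ^ N ≤ (1 + g2) ^ (c i y) * (E2 / q ^ N) := by
          rw [e22, mul_pow]
          have k1 : 1 ≤ (1 - h) ^ (c i y) * E2 := by
            have a3 : 0 < 1 - h := by linarith
            have k2 : (1 - h) ^ (c i y) = Real.exp (c i y * Real.log (1 - h)) := by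
              rw [Real.exp_nat_mul, Real.exp_log a3]
            rw [k2, hE2, ← Real.exp_add]
            refine Real.one_le_exp ?_
            have k3 : Real.log (1 - h) ≤ 0 := Real.log_nonpos a3.le (by linarith)
            nlinarith
          calc (1 + g) ^ (c i y) / q ^ N = ((1 + g) ^ (c i y) / q ^ N) * 1 := by ring
            _ ≤ ((1 + g) ^ (c i y) / q ^ N) * ((1 - h) ^ (c i y) * E2) := by gcongr
            _ = _ := by ring
        linarith
      · have : (1 + g) ^ (c i y) / q ^ N ≤ (1 + g1) ^ (c i y) * (E1 / q ^ N) := by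
          rw [e11, mul_pow]
          have k1 : 1 ≤ (1 + h) ^ (c i y) * E1 := by
            have a3 : 0 < 1 + h := by linarith
            have k2 : (1 + h) ^ (c i y) = Real.exp (c i y * Real.log (1 + h)) := by
              rw [Real.exp_nat_mul, Real.exp_log a3]
            rw [k2, hE1, ← Real.exp_add]
            refine Real.one_le_exp ?_
            have k3 : 0 ≤ Real.log (1 + h) := Real.log_nonneg (by linarith)
            nlinarith
          calc (1 + g) ^ (c i y) / q ^ N = ((1 + g) ^ (c i y) / q ^ N) * 1 := by ring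
            _ ≤ ((1 + g) ^ (c i y) / q ^ N) * ((1 + h) ^ (c i y) * E1) := by gcongr
            _ = _ := by ring
        linarith)
    (fun i hi y hy => by
      obtain ⟨k1, k2⟩ := hy
      rw [hw]
      simp only
      have k3 : (1 + g) ^ (c i y) = Real.exp (c i y * Real.log (1 + g)) := by
        rw [Real.exp_nat_mul, Real.exp_log hgp]
      have k4 : 1 / q ^ N = Real.exp (-(N * Real.log q)) := by
        rw [Real.exp_neg, Real.exp_nat_mul, Real.exp_log hq0, one_div]
      have k5 : (1 + g) ^ (c i y) / q ^ N =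
          Real.exp (c i y * Real.log (1 + g) + -(N * Real.log q)) := by
        rw [Real.exp_add, ← k3, ← k4]; ring
      rw [k5, hD]
      refine Real.exp_le_exp.2 ?_
      have k6 := log_lower (g * ρ) (hgρ.trans (by linarith))
      rw [← hq] at k6
      have k7 : (N : ℝ) * (g * ρ - 2 * (g * ρ) ^ 2) ≤ N * Real.log q := by gcongr
      have k8 : (c i y : ℝ) * Real.log (1 + g) - b * Real.log (1 + g) ≤
          h * b * |Real.log (1 + g)| := by
        have k9 : |(c i y : ℝ) - b| ≤ h * b := by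
          rw [abs_le, haa, hbb] at *
          constructor <;> linarith
        calc (c i y : ℝ) * Real.log (1 + g) - b * Real.log (1 + g) =
            ((c i y : ℝ) - b) * Real.log (1 + g) := by ring
          _ ≤ |((c i y : ℝ) - b) * Real.log (1 + g)| := le_abs_self _
          _ = |(c i y : ℝ) - b| * |Real.log (1 + g)| := abs_mul _ _
          _ ≤ h * b * |Real.log (1 + g)| := by gcongr
      linarith)
    hwlow (fun i hi => (hwint i hi).2) (fun i hi k hk hik => (hww i hi k hk hik).2)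
    (fun i hi => (hyint i hi).2)
  set Bd : Set (P → ℕ) := {y | (∑ i ∈ s, (G i).indicator (fun _ => (1 : ℝ)) y) * (2 * D) <
    s.card} with hBd
  have hfin : lmarginal ν' P (fun a => if
      ((s.filter (fun i => aa ≤ ((surv (OmD {0}) P a (S i)).card : ℝ) ∧
        ((surv (OmD {0}) P a (S i)).card : ℝ) ≤ bb)).card : ℝ) * (2 * D) < s.card
      then (1 : ℝ≥0∞) else 0) x = π Bd := by
    unfold lmarginal
    have hms : MeasurableSet Bd := by
      have h1 : Measurable (fun y : P → ℕ => (∑ i ∈ s, (G i).indicator (fun _ => (1 : ℝ)) y) *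
        (2 * D)) := measurable_of_countable _
      exact measurableSet_lt h1 measurable_const
    rw [← lintegral_indicator_one hms]
    refine lintegral_congr fun y => ?_
    rw [Set.indicator_apply]
    have e : ((s.filter (fun i => aa ≤ ((surv (OmD {0}) P (updateFinset x P y) (S i)).card : ℝ) ∧
        ((surv (OmD {0}) P (updateFinset x P y) (S i)).card : ℝ) ≤ bb)).card : ℝ) =
        ∑ i ∈ s, (G i).indicator (fun _ => (1 : ℝ)) y := by
      rw [card_filter, Nat.cast_sum]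
      refine sum_congr rfl fun i _ => ?_
      rw [Set.indicator_apply]
      have e1 : (y ∈ G i) = (aa ≤ ((surv (OmD {0}) P (updateFinset x P y) (S i)).card : ℝ) ∧
        ((surv (OmD {0}) P (updateFinset x P y) (S i)).card : ℝ) ≤ bb) := rfl
      simp only [e1]
      split_ifs <;> simp
    beta_reduce
    rw [e]
    rfl
  rw [hfin]
  have hreal : π Bd = ENNReal.ofReal (π.real Bd) := by
    rw [Measure.real, ENNReal.ofReal_toReal (measure_ne_top _ _)]
  rw [hreal]
  refine ENNReal.ofReal_le_ofReal (hmain.trans (le_of_eq ?_))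
  ring


/-- Many windows without survivors. -/
theorem sm_kill (ν' : ℕ → Measure ℕ) [∀ p, IsProbabilityMeasure (ν' p)]
    (θ : ℝ) (hθ : 0 < θ) (hθ1 : θ ≤ 1 / 2) {ι : Type} [DecidableEq ι] (s : Finset ι)
    (hs : s.Nonempty) (S : ι → Finset ℕ) (st : ι → ℕ) {U W N J : ℕ} {P : Finset ℕ} (hW : 0 < W)
    (hν : ∀ p ∈ P, UnifOn (ν' p) p) (hPp : ∀ p ∈ P, p.Prime)
    (hS : ∀ i ∈ s, InWin (st i) U (S i)) (hN : ∀ i ∈ s, (S i).card = N)
    (hJ : ∀ i ∈ s, ∀ n ∈ S i, n < 2 ^ J)
    (hdis : ∀ i ∈ s, ∀ k ∈ s, i ≠ k → Disjoint (S i) (S k))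
    (hP : ∀ p ∈ P, W < p) (hUW : U ≤ W) (hCN : 4 * (1 / θ) * N ≤ W) (x : ℕ → ℕ) :
    lmarginal ν' P (fun a => if
      ((s.filter (fun i => (surv (OmD {0}) P a (S i)).card = 0)).card : ℝ) * (2 *
      (1 / (1 - (1 - θ) * rho 1 P) ^ N)) < s.card then 1 else 0) x ≤
      ENNReal.ofReal (4 * (4 * (1 / θ) ^ 2 * (N : ℝ) ^ 2 / W +
        (Real.exp (2 * (1 / θ) ^ 2 * (N : ℝ) ^ 2 * J / W) - 1) +
        (1 / (1 - (1 - θ) * rho 1 P) ^ N) / s.card +
        2 * (θ / (1 - (1 - θ) * rho 1 P) ^ N))) := by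
  classical
  have hW' : (0 : ℝ) < W := by exact_mod_cast hW
  have hpos : ∀ p ∈ P, 0 < p := fun p hp => by have := hP p hp; omega
  set ρ := rho 1 P with hρ
  have hρ0 : 0 ≤ ρ := rho_one_nonneg P hpos
  have hρ1 : ρ ≤ 1 := rho_one_le P hpos
  obtain ⟨g, hg⟩ : ∃ g : ℝ, g = θ - 1 := ⟨_, rfl⟩
  obtain ⟨C, hC⟩ : ∃ C : ℝ, C = 1 / θ := ⟨_, rfl⟩
  have hg1 : 1 + g = θ := by rw [hg]; ring
  have hgm : -1 < g := by linarith
  have hC2 : 1 ≤ C := by rw [hC, le_div_iff₀ hθ]; linarith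
  have hC0 : 0 ≤ C := by linarith
  have hgC : |g| ≤ C * min 1 (1 + g) := by
    rw [hg1, min_eq_right (by linarith : θ ≤ 1), hC, one_div, inv_mul_cancel₀ hθ.ne', hg, abs_le]
    constructor <;> linarith
  obtain ⟨q, hq⟩ : ∃ q : ℝ, q = 1 - (1 - θ) * ρ := ⟨_, rfl⟩
  have hqg : q = 1 + g * ρ := by rw [hq, hg]; ring
  have hq0 : 0 < q := by
    rw [hq]
    have : (1 - θ) * ρ ≤ (1 - θ) * 1 := by
      have : 0 ≤ 1 - θ := by linarith
      gcongr
    linarith
  rw [← hq]
  rw [← hC] at hCN ⊢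
  have hN0 : (0 : ℝ) ≤ N := Nat.cast_nonneg _
  have hCN1 : 2 * C * (N : ℝ) ≤ W := by nlinarith [mul_nonneg hC0 hN0]
  set π : Measure (P → ℕ) := Measure.pi (fun i : P => ν' i) with hπ
  set c : ι → (P → ℕ) → ℕ := fun i y => (surv (OmD {0}) P (updateFinset x P y) (S i)).card
    with hc
  set w : ι → (P → ℕ) → ℝ := fun i y => (1 + g) ^ (c i y) / q ^ N with hw
  set yy : ι → (P → ℕ) → ℝ := fun _ _ => θ / q ^ N with hyy
  have hqN : 0 < q ^ N := pow_pos hq0 N
  have meas : ∀ (f : (P → ℕ) → ℝ), Measurable f := fun f => measurable_of_countable _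
  have lm1 : ∀ i ∈ s, Integrable (fun y => (1 + g) ^ (c i y)) π ∧
        ∫ y, (1 + g) ^ (c i y) ∂π ≤ q ^ N := by
    intro i hi
    have h3 := gf1_upper ν' g C hgm hgC hν (hS i hi) hP hUW (by rw [hN i hi]; exact hCN1) x
    rw [hN i hi, ← hqg] at h3
    refine int_of_lm (fun y => ?_) (meas _) hqN.le h3
    rw [hg1]; positivity
  have hwint : ∀ i ∈ s, Integrable (w i) π ∧ ∫ y, w i y ∂π ≤ 1 := by
    intro i hi
    obtain ⟨h3, h4⟩ := lm1 i hi
    refine ⟨h3.div_const _, ?_⟩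
    rw [hw]
    simp only
    rw [integral_div, div_le_one hqN]
    exact h4
  have hwlow : ∀ i ∈ s, 1 - 2 * C ^ 2 * (N : ℝ) ^ 2 / W ≤ ∫ y, w i y ∂π := by
    intro i hi
    obtain ⟨h3, _⟩ := lm1 i hi
    have h4 := gf1_lower ν' g C hgm hgC hC0 hW hν (hS i hi) hP hUW
      (by rw [hN i hi]; exact hCN1) x
    rw [hN i hi, ← hqg] at h4
    have h5 := le_of_lm (π := π) (f := fun y => (1 + g) ^ (c i y))
      (fun y => by rw [hg1]; positivity) h3 h4
    rw [hw]
    simp only
    rw [integral_div, le_div_iff₀ hqN, mul_comm]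
    exact h5
  have hww : ∀ i ∈ s, ∀ k ∈ s, i ≠ k → Integrable (fun y => w i y * w k y) π ∧
      ∫ y, w i y * w k y ∂π ≤ 1 + (Real.exp (2 * C ^ 2 * (N : ℝ) ^ 2 * J / W) - 1) := by
    intro i hi k hk hik
    have h3 := gf2_upper ν' g C hgm hgC hW hν hPp (hS i hi) (hS k hk) (hdis i hi k hk hik)
      (hN i hi) (hN k hk) (hJ i hi) (hJ k hk) hP hUW hCN x
    have h4 := int_of_lm (π := π) (f := fun y => (1 + g) ^ (c i y) * (1 + g) ^ (c k y))
      (fun y => by rw [hg1]; positivity) (meas _) (by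
        rw [← hqg]; positivity) h3
    have e : (fun y => w i y * w k y) =
        fun y => ((1 + g) ^ (c i y) * (1 + g) ^ (c k y)) / (q ^ N * q ^ N) := by
      funext y
      rw [hw]
      simp only
      rw [div_mul_div_comm]
    rw [e]
    refine ⟨h4.1.div_const _, ?_⟩
    rw [integral_div, div_le_iff₀ (by positivity)]
    refine h4.2.trans (le_of_eq ?_)
    rw [← hqg]; ring
  set G : ι → Set (P → ℕ) := fun i => {y | c i y = 0} with hG
  set D : ℝ := 1 / q ^ N with hD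
  have hmain := second_moment_count π s hs w yy G D (2 * C ^ 2 * (N : ℝ) ^ 2 / W)
    (Real.exp (2 * C ^ 2 * (N : ℝ) ^ 2 * J / W) - 1) (θ / q ^ N)
    (by rw [hD]; positivity) (by
      have : 1 ≤ Real.exp (2 * C ^ 2 * (N : ℝ) ^ 2 * J / W) := Real.one_le_exp (by positivity)
      linarith)
    (fun i _ y => by rw [hw]; simp only; rw [hg1]; positivity)
    (fun i _ y => by rw [hyy]; positivity)
    (fun i hi => (hwint i hi).1) (fun i _ => integrable_const _)
    (fun i hi k hk hik => (hww i hi k hk hik).1)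
    (fun i _ => by
      have : G i = (c i) ⁻¹' {0} := rfl
      rw [this]
      exact (measurable_of_countable (c i)) MeasurableSet.of_discrete)
    (fun i hi y hy => by
      have hn : 1 ≤ c i y := by
        by_contra hcon
        exact hy (by show c i y = 0; omega)
      rw [hw, hyy]
      simp only
      rw [hg1]
      gcongr
      calc θ ^ (c i y) ≤ θ ^ 1 := pow_le_pow_of_le_one hθ.le (by linarith) hn
        _ = θ := pow_one θ)
    (fun i hi y hy => by
      have hn : c i y = 0 := hy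
      rw [hw, hD]
      simp only
      rw [hn, pow_zero])
    hwlow (fun i hi => (hwint i hi).2) (fun i hi k hk hik => (hww i hi k hk hik).2)
    (fun i hi => by
      rw [hyy]
      simp)
  set Bd : Set (P → ℕ) := {y | (∑ i ∈ s, (G i).indicator (fun _ => (1 : ℝ)) y) * (2 * D) <
    s.card} with hBd
  have hfin : lmarginal ν' P (fun a => if
      ((s.filter (fun i => (surv (OmD {0}) P a (S i)).card = 0)).card : ℝ) * (2 * D) < s.card
      then (1 : ℝ≥0∞) else 0) x = π Bd := by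
    unfold lmarginal
    have hms : MeasurableSet Bd := by
      have h1 : Measurable (fun y : P → ℕ => (∑ i ∈ s, (G i).indicator (fun _ => (1 : ℝ)) y) *
        (2 * D)) := measurable_of_countable _
      exact measurableSet_lt h1 measurable_const
    rw [← lintegral_indicator_one hms]
    refine lintegral_congr fun y => ?_
    rw [Set.indicator_apply]
    have e : ((s.filter (fun i => (surv (OmD {0}) P (updateFinset x P y) (S i)).card = 0)).card : ℝ) =
        ∑ i ∈ s, (G i).indicator (fun _ => (1 : ℝ)) y := by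
      rw [card_filter, Nat.cast_sum]
      refine sum_congr rfl fun i _ => ?_
      rw [Set.indicator_apply]
      have e1 : (y ∈ G i) = ((surv (OmD {0}) P (updateFinset x P y) (S i)).card = 0) := rfl
      simp only [e1]
      split_ifs <;> simp
    beta_reduce
    rw [e]
    rfl
  rw [hfin]
  have hreal : π Bd = ENNReal.ofReal (π.real Bd) := by
    rw [Measure.real, ENNReal.ofReal_toReal (measure_ne_top _ _)]
  rw [hreal]
  refine ENNReal.ofReal_le_ofReal (hmain.trans (le_of_eq ?_))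
  ring

end Pool.Agent.H532.LG
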