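import Mathlib
import Pool.Agent.H532.LG.SMc
import Pool.Agent.H532.RM.Star2

/-!
From families of windows with few elements at one level to such families at a higher level.
-/

namespace Pool.Agent.H532.LG

open Finset MeasureTheory Function ProbabilityTheory Filter Pool.Agent.H532.RM
open scoped ENNReal Topology

/-- A separated family of at least `D0` windows with at most `n` elements. -/
def Fam (Bs : Finset ℕ) (a : ℕ → ℕ) (lev U n : ℕ) (D0 : ℝ) : Prop := ∃ M ⊆ Bs,
  D0 ≤ (M.card : ℝ) ∧ Sep U M ∧ ∀ m ∈ M, T1 a lev m U ≤ n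

lemma surv_TTm {y W Z : ℕ} (b : ℕ → ℕ) (hyW : y ≤ W) (hWZ : W ≤ Z) (m U : ℕ) (a : ℕ → ℕ)
    (ha : ∀ p, p.Prime → a p < p) :
    surv (OmD {0}) (bigP W Z) a (TT {0} (mix y b a) (primesLe W) m U) =
      TT {0} (mix y b a) (primesLe Z) m U := by
  have h1 := surv_Sf {0} y b (primesLe W) (bigP W Z) m U a
    (fun p hp => lt_of_le_of_lt hyW (mem_bigP.1 hp).2) (fun p hp => ha p (mem_bigP.1 hp).1.2)
  rw [primesLe_union_bigP hWZ] at h1
  exact h1

lemma mix_congr {y : ℕ} (b a a' : ℕ → ℕ) {p : ℕ} (h : a p = a' p) : mix y b a p = mix y b a' p := by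
  unfold mix
  rw [h]

lemma TTm_update (x : ℕ → ℕ) (y : ℕ) (b : ℕ → ℕ) (W Z m U : ℕ) (y' : bigP W Z → ℕ) :
    TT {0} (mix y b (updateFinset x (bigP W Z) y')) (primesLe W) m U =
      TT {0} (mix y b x) (primesLe W) m U := by
  refine TT_congr _ _ _ _ _ _ fun p hp => ?_
  rw [mix_congr b (updateFinset x (bigP W Z) y') x]
  rw [updateFinset_def]
  have : p ∉ bigP W Z := fun h => by
    have := (mem_bigP.1 h).2
    have := (mem_primesLe.1 hp).1
    omega
  simp [this]

lemma dep_survm (y : ℕ) (b : ℕ → ℕ) (W Z m U : ℕ) (h : W ≤ Z) :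
    DepOn (primesLe Z) (fun a => surv (OmD {0}) (bigP W Z) a
      (TT {0} (mix y b a) (primesLe W) m U)) := by
  intro a a' hab
  have h1 : TT {0} (mix y b a) (primesLe W) m U = TT {0} (mix y b a') (primesLe W) m U :=
    TT_congr _ _ _ _ _ _ fun p hp => by rw [mix_congr b a a' (hab p (primesLe_mono h hp))]
  show surv _ _ a _ = surv _ _ a' _
  rw [h1]
  unfold surv
  refine filter_congr fun n _ => ?_
  have h2 : ∀ p ∈ bigP W Z, a p = a' p := fun p hp => hab p (mem_primesLe.2 (mem_bigP.1 hp).1)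
  constructor
  · intro h3 p hp; rw [← h2 p hp]; exact h3 p hp
  · intro h3 p hp; rw [h2 p hp]; exact h3 p hp

section
variable {Ω : Type} [MeasurableSpace Ω] {μ : Measure Ω} [IsProbabilityMeasure μ]
  {A : ℕ → Ω → ℕ}

theorem stage (hA : RandomClasses μ A) (y : ℕ) (bb : ℕ → ℕ) {W Z : ℕ} (hyW : y ≤ W)
    (hWZ : W ≤ Z) (U n k : ℕ)
    (Bs : Finset ℕ) (D0 D2 : ℝ) (err : ℝ) (hnU : n ≤ U)
    (hone : ∀ (x : ℕ → ℕ) (M : Finset ℕ) (S : ℕ → Finset ℕ), M ⊆ Bs → D0 ≤ (M.card : ℝ) →
      Sep U M → (∀ m ∈ M, InWin m U (S m)) → (∀ m ∈ M, (S m).card = n) →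
      lmarginal (law μ A) (bigP W Z) (fun a => if
        ((M.filter (fun m => (surv (OmD {0}) (bigP W Z) a (S m)).card ≤ k)).card : ℝ) < D2
        then 1 else 0) x ≤ ENNReal.ofReal err) :
    μ {ω | Fam Bs (mix y bb (fun p => A p ω)) W U n D0 ∧ ¬ Fam Bs (mix y bb (fun p => A p ω)) Z U k D2} ≤
      ENNReal.ofReal err := by
  classical
  have := fun p => law_prob hA p
  set P := bigP W Z with hP
  have hPW : ∀ p ∈ P, W < p := fun p hp => (mem_bigP.1 hp).2
  have hPp : ∀ p ∈ P, p.Prime := fun p hp => (mem_bigP.1 hp).1.2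
  set FS : (ℕ → ℕ) → Prop := fun a => ∃ M ⊆ Bs, D2 ≤ (M.card : ℝ) ∧ Sep U M ∧ ∀ m ∈ M,
    (surv (OmD {0}) P a (TT {0} (mix y bb a) (primesLe W) m U)).card ≤ k with hFS
  set f : (ℕ → ℕ) → ℝ≥0∞ := fun a => if Fam Bs (mix y bb a) W U n D0 ∧ ¬ FS a then 1 else 0 with hf
  have hTW : ∀ a a' : ℕ → ℕ, (∀ p ∈ primesLe W, a p = a' p) → ∀ m, T1 (mix y bb a) W m U = T1 (mix y bb a') W m U := by
    intro a a' haa m
    unfold T1
    rw [TT_congr {0} (mix y bb a) (mix y bb a') (primesLe W) m U fun p hp => by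
      rw [mix_congr bb a a' (haa p hp)]]
  have hFdep : ∀ a a' : ℕ → ℕ, (∀ p ∈ primesLe W, a p = a' p) → Fam Bs (mix y bb a) W U n D0 →
      Fam Bs (mix y bb a') W U n D0 := by
    rintro a a' haa ⟨M, h1, h2, h3, h4⟩
    exact ⟨M, h1, h2, h3, fun m hm => by rw [← hTW a a' haa m]; exact h4 m hm⟩
  have hevdep : ∀ a a' : ℕ → ℕ, (∀ p ∈ primesLe Z, a p = a' p) →
      ((Fam Bs (mix y bb a) W U n D0 ∧ ¬ FS a) ↔ (Fam Bs (mix y bb a') W U n D0 ∧ ¬ FS a')) := by
    intro a a' haa
    have h1 : Fam Bs (mix y bb a) W U n D0 ↔ Fam Bs (mix y bb a') W U n D0 :=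
      ⟨hFdep a a' fun p hp => haa p (primesLe_mono hWZ hp),
        hFdep a' a fun p hp => (haa p (primesLe_mono hWZ hp)).symm⟩
    have h2 : ∀ m, surv (OmD {0}) P a (TT {0} (mix y bb a) (primesLe W) m U) =
      surv (OmD {0}) P a' (TT {0} (mix y bb a') (primesLe W) m U) := fun m =>
        dep_survm y bb W Z m U hWZ a a' haa
    rw [hFS]
    simp only [h1, h2]
  have hdep : DepOn (primesLe Z) f := by
    intro a a' haa
    rw [hf]
    simp only
    rw [if_congr (hevdep a a' haa) rfl rfl]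
  have hle := lintegral_le_of_lmarginal hA (primesLe Z) P (fun p hp => (mem_primesLe.1 hp).2)
    (filter_subset _ _) f hdep (ENNReal.ofReal err) (fun x => by
      have hxW : ∀ y' : P → ℕ, ∀ p ∈ primesLe W, updateFinset x P y' p = x p := by
        intro y' p hp
        rw [updateFinset_def]
        have : p ∉ P := fun h => by
          have := hPW p h
          have := (mem_primesLe.1 hp).1
          omega
        simp [this]
      by_cases hQx : Fam Bs (mix y bb x) W U n D0
      · obtain ⟨M, hMB, hMD, hMsep, hMn⟩ := id hQx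
        have h5 : ∀ m, ∃ S : Finset ℕ, m ∈ M → TT {0} (mix y bb x) (primesLe W) m U ⊆ S ∧
            S ⊆ Ioc m (m + U) ∧ S.card = n := by
          intro m
          by_cases hm : m ∈ M
          · obtain ⟨S, hS1, hS2, hS3⟩ := exists_subsuperset_card_eq
              (s := TT {0} (mix y bb x) (primesLe W) m U) (t := Ioc m (m + U)) (n := n)
              (filter_subset _ _) (hMn m hm) (by rw [Nat.card_Ioc]; omega)
            exact ⟨S, fun _ => ⟨hS1, hS2, hS3⟩⟩
          · exact ⟨∅, fun h => absurd h hm⟩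
        choose S hS using h5
        refine le_trans ?_ (hone x M S hMB hMD hMsep (fun m hm q hq =>
          mem_Ioc.1 ((hS m hm).2.1 hq)) (fun m hm => (hS m hm).2.2))
        unfold lmarginal
        refine lintegral_mono fun y' => ?_
        rw [hf]
        simp only
        split_ifs with h1 h2
        · exact le_rfl
        · exfalso
          rw [not_lt] at h2
          refine h1.2 ⟨_, (filter_subset _ M).trans hMB, h2, ?_, ?_⟩
          · intro m hm m' hm' hne
            exact hMsep m (mem_filter.1 hm).1 m' (mem_filter.1 hm').1 hne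
          · intro m hm
            obtain ⟨hm1, hm2⟩ := mem_filter.1 hm
            rw [TTm_update x y bb W Z m U y']
            exact (card_le_card (filter_subset_filter _ (hS m hm1).1)).trans hm2
        · exact bot_le
        · exact le_rfl
      · have : lmarginal (law μ A) P f x = 0 := by
          unfold lmarginal
          rw [hf]
          have h0 : ∀ y' : P → ℕ, ¬ Fam Bs (mix y bb (updateFinset x P y')) W U n D0 := fun y' hy =>
            hQx (hFdep _ _ (hxW y') hy)
          simp only [h0, false_and, if_false, lintegral_zero]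
        rw [this]
        exact bot_le)
  refine le_trans ?_ hle
  have hms : MeasurableSet {ω | Fam Bs (mix y bb (fun p => A p ω)) W U n D0 ∧ ¬ FS (fun p => A p ω)} := by
    have hA' : Measurable (fun ω (p : ℕ) => A p ω) := measurable_pi_lambda _ hA.meas
    have h1 : Measurable (fun a : ℕ → ℕ => (Fam Bs (mix y bb a) W U n D0 ∧ ¬ FS a : Prop)) := by
      refine DepOn.measurable (s := primesLe Z) ?_
      intro a a' haa
      exact propext (hevdep a a' haa)
    have h2 := h1.comp hA'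
    have e : {ω | Fam Bs (mix y bb (fun p => A p ω)) W U n D0 ∧ ¬ FS (fun p => A p ω)} =
      (fun ω => (Fam Bs (mix y bb (fun p => A p ω)) W U n D0 ∧ ¬ FS (fun p => A p ω) : Prop)) ⁻¹'
        {True} := by
      ext ω
      simp
    rw [e]
    exact h2 (measurableSet_singleton _)
  have hrw : ∫⁻ ω, f (fun p => A p ω) ∂μ =
      μ {ω | Fam Bs (mix y bb (fun p => A p ω)) W U n D0 ∧ ¬ FS (fun p => A p ω)} := by
    rw [← lintegral_indicator_one hms]
    refine lintegral_congr fun ω => ?_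
    rw [Set.indicator_apply]
    rfl
  rw [hrw]
  refine measure_mono_ae ?_
  filter_upwards [ae_lt hA] with ω hω h1
  refine ⟨h1.1, fun h2 => h1.2 ?_⟩
  obtain ⟨M, g1, g2, g3, g4⟩ := h2
  refine ⟨M, g1, g2, g3, fun m hm => ?_⟩
  have h3 := g4 m hm
  rw [surv_TTm bb hyW hWZ m U _ hω] at h3
  exact h3

/-- The first stage: from `n` elements to about `(1 + g) ρ n` elements. -/
theorem stage1 (hA : RandomClasses μ A) (y : ℕ) (bb : ℕ → ℕ) {W Z : ℕ} (hyW : y ≤ W)
    (hWZ : W ≤ Z) (hW : 0 < W) (U n k J : ℕ)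
    (hUW : U ≤ W) (hnU : n ≤ U) (g C h : ℝ) (hg : -1 < g) (hC : |g| ≤ C * min 1 (1 + g))
    (hC1 : 1 ≤ C) (h0 : 0 < h) (hh : h ≤ 1 / 2) (hCN : 10 * C * n ≤ W)
    (hgρ : |g * (V Z / V W)| ≤ h / 24) (b : ℝ) (hb : b = (1 + g) * (V Z / V W) * n)
    (hk : (1 + h) * b < k + 1) (Bs : Finset ℕ) (hBs : ∀ m ∈ Bs, m + U < 2 ^ J) (D0 D : ℝ)
    (hD0 : 0 < D0)
    (hD : D = Real.exp (b * Real.log (1 + g) - g * (V Z / V W) * n + h * b * |Real.log (1 + g)| +
          2 * (g * (V Z / V W)) ^ 2 * n)) :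
    μ {ω | Fam Bs (mix y bb (fun p => A p ω)) W U n D0 ∧
        ¬ Fam Bs (mix y bb (fun p => A p ω)) Z U k (D0 / (2 * D))} ≤
      ENNReal.ofReal (4 * (4 * C ^ 2 * (n : ℝ) ^ 2 / W +
        (Real.exp (2 * C ^ 2 * (n : ℝ) ^ 2 * J / W) - 1) +
        D / D0 + 4 * Real.exp (-(b * h ^ 2 / 12)))) := by
  classical
  have := fun p => law_prob hA p
  have hρ : rho 1 (bigP W Z) = V Z / V W := rho_bigP hWZ
  rw [← hρ] at hgρ hb hD
  have hDpos : 0 < D := by rw [hD]; exact Real.exp_pos _
  refine stage hA y bb hyW hWZ U n k Bs D0 _ _ hnU fun x M S hMB hMD hMsep hS1 hS2 => ?_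
  have hMne : M.Nonempty := by
    rw [← card_pos]
    have : (0 : ℝ) < M.card := lt_of_lt_of_le hD0 hMD
    exact_mod_cast this
  have hsm := sm_count (law μ A) g C h hg hC hC1 h0 hh M hMne S id (U := U) (W := W)
    (N := n) (J := J) (P := bigP W Z) hW (fun p hp => law_unif hA (mem_bigP.1 hp).1.2)
    (fun p hp => (mem_bigP.1 hp).1.2) hS1 hS2
    (fun m hm q hq => by
      have h1 := (hS1 m hm q hq).2
      have h2 := hBs m (hMB hm)
      omega)
    (fun m hm m' hm' hne => by
      rw [Finset.disjoint_left]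
      intro q hq hq'
      have h1 := hS1 m hm q hq
      have h2 := hS1 m' hm' q hq'
      rcases hMsep m hm m' hm' hne with h3 | h3 <;> omega)
    (fun p hp => (mem_bigP.1 hp).2) hUW hCN hgρ b hb x
  rw [← hD] at hsm
  refine le_trans ?_ (hsm.trans (ENNReal.ofReal_le_ofReal ?_))
  · unfold lmarginal
    refine lintegral_mono fun y => ?_
    simp only
    split_ifs with h1 h2
    · exact le_rfl
    · exfalso
      apply h2
      have h3 : ((M.filter (fun i => (1 - h) * b ≤
          ((surv (OmD {0}) (bigP W Z) (updateFinset x (bigP W Z) y) (S i)).card : ℝ) ∧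
          ((surv (OmD {0}) (bigP W Z) (updateFinset x (bigP W Z) y) (S i)).card : ℝ) ≤
            (1 + h) * b)).card : ℝ) ≤
          ((M.filter (fun m => (surv (OmD {0}) (bigP W Z) (updateFinset x (bigP W Z) y)
            (S m)).card ≤ k)).card : ℝ) := by
        have : M.filter (fun i => (1 - h) * b ≤
          ((surv (OmD {0}) (bigP W Z) (updateFinset x (bigP W Z) y) (S i)).card : ℝ) ∧
          ((surv (OmD {0}) (bigP W Z) (updateFinset x (bigP W Z) y) (S i)).card : ℝ) ≤
            (1 + h) * b) ⊆ M.filter (fun m => (surv (OmD {0}) (bigP W Z)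
              (updateFinset x (bigP W Z) y) (S m)).card ≤ k) := by
          intro m hm
          obtain ⟨hm1, _, hm3⟩ := mem_filter.1 hm
          refine mem_filter.2 ⟨hm1, ?_⟩
          have h4 := lt_of_le_of_lt hm3 hk
          have h5 : (surv (OmD {0}) (bigP W Z) (updateFinset x (bigP W Z) y) (S m)).card <
            k + 1 := by exact_mod_cast h4
          omega
        exact_mod_cast card_le_card this
      have h4 := lt_of_le_of_lt h3 h1
      rw [lt_div_iff₀ (by positivity)] at h4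
      exact lt_of_lt_of_le h4 hMD
    · exact bot_le
    · exact le_rfl
  · gcongr

/-- The second stage: from few elements to no elements. -/
theorem stage2 (hA : RandomClasses μ A) (y : ℕ) (bb : ℕ → ℕ) {W Z : ℕ} (hyW : y ≤ W)
    (hWZ : W ≤ Z) (hW : 0 < W) (U n J : ℕ)
    (hUW : U ≤ W) (hnU : n ≤ U) (θ : ℝ) (hθ : 0 < θ) (hθ1 : θ ≤ 1 / 2)
    (hCN : 4 * (1 / θ) * n ≤ W) (Bs : Finset ℕ) (hBs : ∀ m ∈ Bs, m + U < 2 ^ J) (D0 D : ℝ)
    (hD0 : 0 < D0) (hD : D = 1 / (1 - (1 - θ) * (V Z / V W)) ^ n) :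
    μ {ω | Fam Bs (mix y bb (fun p => A p ω)) W U n D0 ∧
        ¬ Fam Bs (mix y bb (fun p => A p ω)) Z U 0 (D0 / (2 * D))} ≤
      ENNReal.ofReal (4 * (4 * (1 / θ) ^ 2 * (n : ℝ) ^ 2 / W +
        (Real.exp (2 * (1 / θ) ^ 2 * (n : ℝ) ^ 2 * J / W) - 1) +
        D / D0 + 2 * (θ * D))) := by
  classical
  have := fun p => law_prob hA p
  have hρ : rho 1 (bigP W Z) = V Z / V W := rho_bigP hWZ
  have hρ1 : V Z / V W ≤ 1 := by rw [div_le_one (V_pos W)]; exact V_anti hWZ
  have hρ0 : 0 ≤ V Z / V W := div_nonneg (V_pos Z).le (V_pos W).le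
  have hq0 : 0 < 1 - (1 - θ) * (V Z / V W) := by
    have : (1 - θ) * (V Z / V W) ≤ (1 - θ) * 1 := by
      have : 0 ≤ 1 - θ := by linarith
      gcongr
    linarith
  have hDpos : 0 < D := by rw [hD]; positivity
  have hθD : θ / (1 - (1 - θ) * (V Z / V W)) ^ n = θ * D := by rw [hD]; ring
  rw [← hρ] at hD hθD
  refine stage hA y bb hyW hWZ U n 0 Bs D0 _ _ hnU fun x M S hMB hMD hMsep hS1 hS2 => ?_
  have hMne : M.Nonempty := by
    rw [← card_pos]
    have : (0 : ℝ) < M.card := lt_of_lt_of_le hD0 hMD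
    exact_mod_cast this
  have hsm := sm_kill (law μ A) θ hθ hθ1 M hMne S id (U := U) (W := W)
    (N := n) (J := J) (P := bigP W Z) hW (fun p hp => law_unif hA (mem_bigP.1 hp).1.2)
    (fun p hp => (mem_bigP.1 hp).1.2) hS1 hS2
    (fun m hm q hq => by
      have h1 := (hS1 m hm q hq).2
      have h2 := hBs m (hMB hm)
      omega)
    (fun m hm m' hm' hne => by
      rw [Finset.disjoint_left]
      intro q hq hq'
      have h1 := hS1 m hm q hq
      have h2 := hS1 m' hm' q hq'
      rcases hMsep m hm m' hm' hne with h3 | h3 <;> omega)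
    (fun p hp => (mem_bigP.1 hp).2) hUW hCN x
  rw [hθD, ← hD] at hsm
  refine le_trans ?_ (hsm.trans (ENNReal.ofReal_le_ofReal ?_))
  · unfold lmarginal
    refine lintegral_mono fun y => ?_
    simp only
    split_ifs with h1 h2
    · exact le_rfl
    · exfalso
      apply h2
      have e : M.filter (fun m => (surv (OmD {0}) (bigP W Z) (updateFinset x (bigP W Z) y)
            (S m)).card ≤ 0) = M.filter (fun m => (surv (OmD {0}) (bigP W Z)
              (updateFinset x (bigP W Z) y) (S m)).card = 0) :=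
        filter_congr fun m _ => Nat.le_zero
      rw [e] at h1
      rw [lt_div_iff₀ (by positivity)] at h1
      exact lt_of_lt_of_le h1 hMD
    · exact bot_le
    · exact le_rfl
  · gcongr

end

end Pool.Agent.H532.LG
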