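import Mathlib
import Pool.Agent.H532.LG.Stage
import Pool.Agent.H532.RM.Kb

/-!
The probability that a window is empty: upper bound.
-/

namespace Pool.Agent.H532.LG

open Finset MeasureTheory Function ProbabilityTheory Filter Pool.Agent.H532.RM
open scoped ENNReal Topology

lemma lm_zero (ν' : ℕ → Measure ℕ) [∀ p, IsProbabilityMeasure (ν' p)] {W m U : ℕ}
    {P S : Finset ℕ} (hν : ∀ p ∈ P, UnifOn (ν' p) p) (hS : InWin m U S)
    (hP : ∀ p ∈ P, W < p) (hUW : U ≤ W) (hc : 4 * (S.card : ℝ) ^ 2 ≤ W) (x : ℕ → ℕ) :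
    lmarginal ν' P (fun a => if (surv (OmD {0}) P a S).card = 0 then 1 else 0) x ≤
      ENNReal.ofReal (2 * Real.exp (-(rho 1 P * S.card))) := by
  have hpos : ∀ p ∈ P, 0 < p := fun p hp => by have := hP p hp; omega
  have hρ0 := rho_one_nonneg P hpos
  have hρ1 := rho_one_le P hpos
  set ρ := rho 1 P with hρ
  rcases Nat.eq_zero_or_pos S.card with h0 | h0
  · rw [h0, Nat.cast_zero, mul_zero, neg_zero, Real.exp_zero, mul_one]
    calc lmarginal ν' P (fun a => if (surv (OmD {0}) P a S).card = 0 then 1 else 0) x ≤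
        lmarginal ν' P (fun _ => 1) x := by
          unfold lmarginal
          refine lintegral_mono fun y => ?_
          simp only
          split_ifs <;> simp
      _ = 1 := by
          unfold lmarginal
          simp
      _ ≤ ENNReal.ofReal 2 := by
          rw [← ENNReal.ofReal_one]
          exact ENNReal.ofReal_le_ofReal (by norm_num)
  · have hn1 : (1 : ℝ) ≤ S.card := by exact_mod_cast h0
    obtain ⟨n, hn⟩ : ∃ n : ℝ, n = S.card := ⟨_, rfl⟩
    rw [← hn] at hn1 hc ⊢
    obtain ⟨g, hg⟩ : ∃ g : ℝ, g = 1 / (2 * n) - 1 := ⟨_, rfl⟩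
    have hg1 : 1 + g = 1 / (2 * n) := by rw [hg]; ring
    have hgp : 0 < 1 / (2 * n) := by positivity
    have hg2 : 1 / (2 * n) ≤ 1 / 2 := by
      rw [div_le_div_iff₀ (by positivity) (by norm_num)]; linarith
    have hgC : |g| ≤ 2 * n * min 1 (1 + g) := by
      rw [hg1, min_eq_right (by linarith), hg, abs_of_nonpos (by linarith)]
      have : 2 * n * (1 / (2 * n)) = 1 := by field_simp
      rw [this]
      linarith
    have h2 := gf1_upper ν' g (2 * n) (by linarith) hgC hν hS hP hUW (by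
      rw [← hn]
      calc 2 * (2 * n) * n = 4 * n ^ 2 := by ring
        _ ≤ W := hc) x
    calc lmarginal ν' P (fun a => if (surv (OmD {0}) P a S).card = 0 then 1 else 0) x ≤
        lmarginal ν' P (fun a => ENNReal.ofReal ((1 + g) ^ (surv (OmD {0}) P a S).card)) x := by
          unfold lmarginal
          refine lintegral_mono fun y => ?_
          simp only
          split_ifs with h
          · rw [h, pow_zero, ENNReal.ofReal_one]
          · exact bot_le
      _ ≤ ENNReal.ofReal ((1 + g * rho 1 P) ^ S.card) := h2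
      _ ≤ ENNReal.ofReal (2 * Real.exp (-(ρ * n))) := by
          refine ENNReal.ofReal_le_ofReal ?_
          have h4 : 0 ≤ 1 + g * ρ := by
            have : -1 * 1 ≤ g * ρ := by nlinarith
            linarith
          calc (1 + g * ρ) ^ S.card ≤ Real.exp (g * ρ) ^ S.card := by
                gcongr
                rw [add_comm]
                exact Real.add_one_le_exp _
            _ = Real.exp (ρ / 2 + -(ρ * n)) := by
                rw [← Real.exp_nat_mul]
                congr 1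
                rw [← hn, hg]
                field_simp
                ring
            _ = Real.exp (ρ / 2) * Real.exp (-(ρ * n)) := Real.exp_add _ _
            _ ≤ 2 * Real.exp (-(ρ * n)) := by
                have h3 := exp_le_one_add_two_mul (y := ρ / 2) (by positivity) (by linarith)
                gcongr
                linarith

lemma bigP_union {w W Z : ℕ} (h1 : w ≤ W) (h2 : W ≤ Z) : bigP w Z = bigP w W ∪ bigP W Z := by
  ext p
  simp only [mem_union, mem_bigP]
  constructor
  · rintro ⟨⟨h3, h4⟩, h5⟩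
    rcases le_or_gt p W with h6 | h6
    · exact Or.inl ⟨⟨h6, h4⟩, h5⟩
    · exact Or.inr ⟨⟨h3, h4⟩, h6⟩
  · rintro (⟨⟨h3, h4⟩, h5⟩ | ⟨⟨h3, h4⟩, h5⟩)
    · exact ⟨⟨h3.trans h2, h4⟩, h5⟩
    · exact ⟨⟨h3, h4⟩, lt_of_le_of_lt h1 h5⟩

lemma bigP_disj {w W Z : ℕ} : Disjoint (bigP w W) (bigP W Z) := by
  rw [Finset.disjoint_left]
  intro p h1 h2
  have := (mem_bigP.1 h1).1.1
  have := (mem_bigP.1 h2).2
  omega

lemma surv_union (P Q : Finset ℕ) (a : ℕ → ℕ) (S : Finset ℕ) :
    surv (OmD {0}) (P ∪ Q) a S = surv (OmD {0}) Q a (surv (OmD {0}) P a S) := by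
  unfold surv
  ext n
  simp only [mem_filter, mem_union]
  constructor
  · rintro ⟨h1, h2⟩
    exact ⟨⟨h1, fun p hp => h2 p (Or.inl hp)⟩, fun p hp => h2 p (Or.inr hp)⟩
  · rintro ⟨⟨h1, h2⟩, h3⟩
    exact ⟨h1, fun p hp => hp.elim (h2 p) (h3 p)⟩

lemma surv_congr (P : Finset ℕ) {a a' : ℕ → ℕ} (h : ∀ p ∈ P, a p = a' p) (S : Finset ℕ) :
    surv (OmD {0}) P a S = surv (OmD {0}) P a' S := by
  unfold surv
  refine filter_congr fun n _ => ?_
  constructor
  · intro h3 p hp; rw [← h p hp]; exact h3 p hp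
  · intro h3 p hp; rw [h p hp]; exact h3 p hp

/-- conditional probability of an empty window, given the primes up to `w` -/
theorem empty_lm : ∃ C : ℝ, 0 < C ∧ ∀ (ν' : ℕ → Measure ℕ) [∀ p, IsProbabilityMeasure (ν' p)]
    (w W Z m U : ℕ) (S : Finset ℕ), 4 ≤ w → w ≤ W → W ≤ Z → (∀ p ∈ bigP w Z, UnifOn (ν' p) p) →
    InWin m U S → U ≤ W → 4 * (U : ℝ) ^ 2 ≤ W → ∀ κ' : ℝ,
    V Z / V W * (1 + C * (U * V W * (Real.log w / w))) ≤ κ' → κ' ≤ 1 → ∀ x : ℕ → ℕ,
    lmarginal ν' (bigP w Z) (fun a => if (surv (OmD {0}) (bigP w Z) a S).card = 0 then 1 else 0)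
      x ≤ ENNReal.ofReal (2 * Real.exp (-(V Z / V w * Real.exp (-(4 * κ')) * S.card))) := by
  classical
  obtain ⟨C, hC, hKb⟩ := Kb
  refine ⟨C, hC, ?_⟩
  intro ν' _ w W Z m U S hw hwW hWZ hν hS hUW hU4 κ' hκ hκ1 x
  obtain ⟨hK1, hK2⟩ := hKb w W U hw
  set P1 := bigP w W with hP1
  set P2 := bigP W Z with hP2
  have hK1' : KK 1 (fun p => (U : ℝ) / p + 1) P1 ≤ 1 + C * (U * V W * (Real.log w / w)) := hK1
  have hK2' : ∀ p ∈ P1, uu 1 P1 p * ((U : ℝ) / p + 1) ≤
    1 + C * (U * V W * (Real.log w / w)) := hK2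
  clear hK1 hK2
  have hVW := V_pos W
  have hVZ := V_pos Z
  have hVw := V_pos w
  set ρ := V Z / V W with hρ
  have hρ0 : 0 < ρ := by positivity
  have hρ2 : rho 1 P2 = ρ := rho_bigP hWZ
  have hρ1 : rho 1 P1 = V W / V w := rho_bigP hwW
  have hdis : Disjoint P1 P2 := bigP_disj
  rw [bigP_union hwW hWZ, lmarginal_union ν' _ (by
    refine Measurable.ite ?_ measurable_const measurable_const
    have h1 := measurable_surv (OmD {0}) (P1 ∪ P2) S
    have : {a : ℕ → ℕ | (surv (OmD {0}) (P1 ∪ P2) a S).card = 0} =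
        (fun a : ℕ → ℕ => ((surv (OmD {0}) (P1 ∪ P2) a S).card : ℝ)) ⁻¹' {0} := by
      ext a; simp
    rw [this]
    exact h1 (measurableSet_singleton _)) hdis]
  -- inner
  have hin : ∀ x : ℕ → ℕ, lmarginal ν' P2 (fun a =>
      if (surv (OmD {0}) (P1 ∪ P2) a S).card = 0 then 1 else 0) x ≤
      ENNReal.ofReal (2 * Real.exp (-(ρ * (surv (OmD {0}) P1 x S).card))) := by
    intro x
    have hSS : surv (OmD {0}) P1 x S ⊆ S := filter_subset _ _
    have h1 := lm_zero ν' (W := W) (m := m) (U := U) (P := P2) (S := surv (OmD {0}) P1 x S)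
      (fun p hp => hν p (by rw [bigP_union hwW hWZ]; exact mem_union_right _ hp))
      (fun n hn => hS n (hSS hn)) (fun p hp => (mem_bigP.1 hp).2) hUW (by
        refine le_trans ?_ hU4
        have h2 : (surv (OmD {0}) P1 x S).card ≤ U := by
          have h3 : surv (OmD {0}) P1 x S ⊆ Ioc m (m + U) := fun n hn =>
            mem_Ioc.2 (hS n (hSS hn))
          have := card_le_card h3
          rw [Nat.card_Ioc] at this
          omega
        have h3 : ((surv (OmD {0}) P1 x S).card : ℝ) ≤ U := by exact_mod_cast h2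
        gcongr) x
    rw [hρ2] at h1
    refine le_trans (le_of_eq ?_) h1
    unfold lmarginal
    refine lintegral_congr fun y => ?_
    beta_reduce
    rw [surv_union]
    have : surv (OmD {0}) P1 (updateFinset x P2 y) S = surv (OmD {0}) P1 x S :=
      surv_congr P1 (fun p hp => by
        rw [updateFinset_def]
        have : p ∉ P2 := fun h => (Finset.disjoint_left.1 hdis hp) h
        simp [this]) S
    rw [this]
  have h1 : lmarginal ν' P1 (lmarginal ν' P2 (fun a =>
      if (surv (OmD {0}) (P1 ∪ P2) a S).card = 0 then 1 else 0)) x ≤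
      lmarginal ν' P1 (fun a => ENNReal.ofReal 2 *
        ENNReal.ofReal (Real.exp (-(ρ * (surv (OmD {0}) P1 a S).card)))) x := by
    refine lmarginal_mono (fun a => ?_) x
    rw [← ENNReal.ofReal_mul (by norm_num)]
    exact hin a
  refine h1.trans ?_
  have h2 : lmarginal ν' P1 (fun a => ENNReal.ofReal 2 *
      ENNReal.ofReal (Real.exp (-(ρ * (surv (OmD {0}) P1 a S).card)))) x =
      ENNReal.ofReal 2 * lmarginal ν' P1 (fun a =>
        ENNReal.ofReal (Real.exp (-(ρ * (surv (OmD {0}) P1 a S).card)))) x := by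
    unfold lmarginal
    rw [lintegral_const_mul _ (measurable_of_countable _)]
  rw [h2]
  have hBpos : ∀ p ∈ P1, p.Prime ∧ w < p := fun p hp => ⟨(mem_bigP.1 hp).1.2, (mem_bigP.1 hp).2⟩
  have hK0 : 0 ≤ KK 1 (fun p => (U : ℝ) / p + 1) P1 := KK_nonneg _ _ _
    (fun p hp => ⟨(hBpos p hp).1.pos, by have := (hBpos p hp).2; omega⟩) (fun p _ => by positivity)
  have h3 := mgf_lower ν' (OmD {0}) 1 (fun p => (U : ℝ) / p + 1) ρ hρ0.le P1
    (fun p hp => hν p (by rw [bigP_union hwW hWZ]; exact mem_union_left _ hp))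
    (fun p hp => by
      have h4 := hK2' p hp
      calc ρ * uu 1 P1 p * ((U : ℝ) / p + 1) = ρ * (uu 1 P1 p * ((U : ℝ) / p + 1)) := by ring
        _ ≤ ρ * (1 + C * (U * V W * (Real.log w / w))) := by gcongr
        _ ≤ κ' := hκ
        _ ≤ 1 := hκ1) S
    { big := fun p hp => ⟨(hBpos p hp).1.pos, by have := (hBpos p hp).2; omega⟩
      om := fun n _ p hp => om0_ok n p (hBpos p hp).1.pos
      Bpos := fun p _ => by positivity
      cls := fun p hp r _ => by
        have h5 := card_class_le m U 0 p r (hBpos p hp).1.pos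
        refine le_trans ?_ h5
        have h6 : S.filter (fun n => r ∈ OmD {0} n p) ⊆
            (Ioc m (m + U)).filter (fun n => (n + 0) % p = r) := by
          intro n hn
          obtain ⟨h7, h8⟩ := mem_filter.1 hn
          refine mem_filter.2 ⟨mem_Ioc.2 (hS n h7), ?_⟩
          rw [mem_Om0] at h8
          rw [add_zero]; exact h8.symm
        exact_mod_cast card_le_card h6 } x
  calc ENNReal.ofReal 2 * lmarginal ν' P1 (fun a =>
        ENNReal.ofReal (Real.exp (-(ρ * (surv (OmD {0}) P1 a S).card)))) x ≤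
      ENNReal.ofReal 2 * ENNReal.ofReal (Real.exp (-(ρ * rho 1 P1 *
        Real.exp (-(4 * ρ * KK 1 (fun p => (U : ℝ) / p + 1) P1)) * S.card))) :=
          mul_le_mul_right h3 _
    _ = ENNReal.ofReal (2 * Real.exp (-(ρ * rho 1 P1 *
        Real.exp (-(4 * ρ * KK 1 (fun p => (U : ℝ) / p + 1) P1)) * S.card))) := by
        rw [ENNReal.ofReal_mul (by norm_num)]
    _ ≤ ENNReal.ofReal (2 * Real.exp (-(V Z / V w * Real.exp (-(4 * κ')) * S.card))) := by
        refine ENNReal.ofReal_le_ofReal ?_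
        have e : ρ * rho 1 P1 = V Z / V w := by rw [hρ1, hρ]; field_simp
        rw [e]
        have h4 : 4 * ρ * KK 1 (fun p => (U : ℝ) / p + 1) P1 ≤ 4 * κ' := by
          calc 4 * ρ * KK 1 (fun p => (U : ℝ) / p + 1) P1 ≤
              4 * ρ * (1 + C * (U * V W * (Real.log w / w))) := by gcongr
            _ = 4 * (ρ * (1 + C * (U * V W * (Real.log w / w)))) := by ring
            _ ≤ 4 * κ' := by gcongr
        have h5 : 0 < V Z / V w := by positivity
        gcongr

end Pool.Agent.H532.LG
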