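import Mathlib
import Pool.Agent.H532.LG.Empty
import Pool.Agent.H532.RM.CSA

/-!
The number of empty windows: upper bound.
-/

namespace Pool.Agent.H532.LG

open Finset MeasureTheory Function ProbabilityTheory Filter Pool.Agent.H532.RM
open scoped ENNReal Topology

lemma ev_w (P : ℕ → Prop) (hP : ∀ᶠ w : ℕ in atTop, P w) : ∀ᶠ j : ℕ in atTop, ∀ U : ℕ,
    Real.log j ^ 2 ≤ (U : ℝ) / j → P (2 * U / j) := by
  obtain ⟨N, hN⟩ := eventually_atTop.1 hP
  have hlogt : Tendsto (fun j : ℕ => Real.log (j : ℝ) ^ 2) atTop atTop :=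
    (tendsto_pow_atTop (by norm_num)).comp
      (Real.tendsto_log_atTop.comp tendsto_natCast_atTop_atTop)
  filter_upwards [hlogt.eventually_ge_atTop N, eventually_ge_atTop 1] with j h1 h2 U hU
  refine hN _ ?_
  have hj0 : (0 : ℝ) < j := by exact_mod_cast h2
  have h3 : (N : ℝ) ≤ (U : ℝ) / j := h1.trans hU
  rw [le_div_iff₀ hj0] at h3
  have h4 : N * j ≤ U := by exact_mod_cast h3
  rw [Nat.le_div_iff_mul_le (by omega)]
  omega

/-- the conditions for the length of the windows -/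
structure UOK (C0 : ℝ) (j U : ℕ) : Prop where
  u1 : U ≤ j ^ 3
  u2 : Real.log j ^ 2 ≤ (U : ℝ) / j
  u3 : (U : ℝ) ≤ C0 * (j : ℝ) ^ 2

lemma UOK.w_le {C0 : ℝ} {j U : ℕ} (h : UOK C0 j U) (hj : 1 ≤ j) (hC : 0 < C0) :
    ((2 * U / j : ℕ) : ℝ) ≤ 2 * ((U : ℝ) / j) ∧
    1 / (4 * C0) * ((2 * U / j : ℕ) : ℝ) ^ 2 ≤ U ∧ (U : ℝ) / j ≤ C0 * j := by
  have hj0 : (0 : ℝ) < j := by exact_mod_cast hj
  have h1 : ((2 * U / j : ℕ) : ℝ) ≤ 2 * ((U : ℝ) / j) := by
    refine Nat.cast_div_le.trans (le_of_eq ?_)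
    push_cast; ring
  have h3 := h.u3
  have h4 : (U : ℝ) / j ≤ C0 * j := by
    rw [div_le_iff₀ hj0]; nlinarith
  refine ⟨h1, ?_, h4⟩
  have hU0 : (0 : ℝ) ≤ U := Nat.cast_nonneg _
  calc 1 / (4 * C0) * ((2 * U / j : ℕ) : ℝ) ^ 2 ≤ 1 / (4 * C0) * (2 * ((U : ℝ) / j)) ^ 2 := by
        gcongr
    _ = 1 / C0 * ((U / j) * (U / j)) := by field_simp; ring
    _ ≤ 1 / C0 * ((C0 * j) * (U / j)) := by
        have : 0 ≤ (U : ℝ) / j := by positivity
        gcongr
    _ = U := by field_simp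

section
variable {Ω : Type} [MeasurableSpace Ω] {μ : Measure Ω} [IsProbabilityMeasure μ]
  {A : ℕ → Ω → ℕ}

theorem empty_prob : ∃ C : ℝ, 0 < C ∧ ∀ {Ω : Type} [MeasurableSpace Ω] (μ : Measure Ω)
    [IsProbabilityMeasure μ] (A : ℕ → Ω → ℕ), RandomClasses μ A → ∀ (w W Z m U : ℕ), 4 ≤ w →
    w ≤ W → W ≤ Z → U ≤ W → 4 * (U : ℝ) ^ 2 ≤ W → ∀ κ' x : ℝ,
    V Z / V W * (1 + C * (U * V W * (Real.log w / w))) ≤ κ' → κ' ≤ 1 →
    (∀ c : ℕ → ℕ, x ≤ V Z / V w * Real.exp (-(4 * κ')) * T1 c w m U) →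
    μ {ω | T1 (fun p => A p ω) Z m U = 0} ≤ ENNReal.ofReal (2 * Real.exp (-x)) := by
  classical
  obtain ⟨C, hC, hlm⟩ := empty_lm
  refine ⟨C, hC, ?_⟩
  intro Ω _ μ _ A hA w W Z m U hw hwW hWZ hUW hU4 κ' x0 hκ hκ1 hx
  have := fun p => law_prob hA p
  have hwZ : w ≤ Z := hwW.trans hWZ
  set P := bigP w Z with hP
  set f : (ℕ → ℕ) → ℝ≥0∞ := fun a =>
    if (surv (OmD {0}) P a (TT {0} a (primesLe w) m U)).card = 0 then 1 else 0 with hf
  have hdepS := dep_surv w Z m U hwZ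
  have hdep : DepOn (primesLe Z) f := by
    intro a a' haa
    rw [hf]
    simp only
    rw [show surv (OmD {0}) P a (TT {0} a (primesLe w) m U) =
      surv (OmD {0}) P a' (TT {0} a' (primesLe w) m U) from hdepS a a' haa]
  have hle := lintegral_le_of_lmarginal hA (primesLe Z) P (fun p hp => (mem_primesLe.1 hp).2)
    (filter_subset _ _) f hdep (ENNReal.ofReal (2 * Real.exp (-x0))) (fun x => by
      have e1 : lmarginal (law μ A) P f x = lmarginal (law μ A) P (fun a =>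
          if (surv (OmD {0}) P a (TT {0} x (primesLe w) m U)).card = 0 then 1 else 0) x := by
        unfold lmarginal
        refine lintegral_congr fun y => ?_
        rw [hf]
        simp only
        rw [TT_update x w Z m U y]
      rw [e1]
      refine (hlm (law μ A) w W Z m U (TT {0} x (primesLe w) m U) hw hwW hWZ
        (fun p hp => law_unif hA (mem_bigP.1 hp).1.2) (inWin_TT x (primesLe w) m U) hUW hU4 κ'
        hκ hκ1 x).trans ?_
      refine ENNReal.ofReal_le_ofReal ?_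
      have h1 := hx x
      have h2 : Real.exp (-(V Z / V w * Real.exp (-(4 * κ')) *
          ((TT {0} x (primesLe w) m U).card : ℝ))) ≤ Real.exp (-x0) := by
        refine Real.exp_le_exp.2 ?_
        unfold T1 at h1
        linarith
      linarith)
  refine le_trans ?_ hle
  have hms : MeasurableSet {ω | (surv (OmD {0}) P (fun p => A p ω)
      (TT {0} (fun p => A p ω) (primesLe w) m U)).card = 0} := by
    have hA' : Measurable (fun ω (p : ℕ) => A p ω) := measurable_pi_lambda _ hA.meas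
    have h1 : Measurable (fun a : ℕ → ℕ =>
        (surv (OmD {0}) P a (TT {0} a (primesLe w) m U)).card) := by
      refine DepOn.measurable (s := primesLe Z) ?_
      intro a a' haa
      beta_reduce
      rw [show surv (OmD {0}) P a (TT {0} a (primesLe w) m U) =
        surv (OmD {0}) P a' (TT {0} a' (primesLe w) m U) from hdepS a a' haa]
    exact (h1.comp hA') (measurableSet_singleton 0)
  have hrw : ∫⁻ ω, f (fun p => A p ω) ∂μ =
      μ {ω | (surv (OmD {0}) P (fun p => A p ω)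
      (TT {0} (fun p => A p ω) (primesLe w) m U)).card = 0} := by
    rw [← lintegral_indicator_one hms]
    refine lintegral_congr fun ω => ?_
    rw [Set.indicator_apply]
    rfl
  rw [hrw]
  refine measure_mono_ae ?_
  filter_upwards [ae_lt hA] with ω hω h1
  show (surv _ _ _ _).card = 0
  rw [surv_TT hwZ m U _ hω]
  exact h1

end

/-- Markov's inequality for the number of events. -/
lemma markov_count {Ω : Type} [MeasurableSpace Ω] (μ : Measure Ω) [IsProbabilityMeasure μ]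
    (s : Finset ℕ) (E : ℕ → Set Ω) (q t : ℝ) (hE : ∀ m ∈ s, MeasurableSet (E m))
    (hq : ∀ m ∈ s, μ (E m) ≤ ENNReal.ofReal q) (hq0 : 0 ≤ q) (ht : 0 < t) :
    μ {ω | t < ∑ m ∈ s, (E m).indicator (fun _ => (1 : ℝ)) ω} ≤
      ENNReal.ofReal (s.card * q / t) := by
  have h1 : {ω | t < ∑ m ∈ s, (E m).indicator (fun _ => (1 : ℝ)) ω} ⊆
      {ω | ENNReal.ofReal t ≤ ∑ m ∈ s, (E m).indicator (fun _ => (1 : ℝ≥0∞)) ω} := by
    intro ω hω
    have e : ∑ m ∈ s, (E m).indicator (fun _ => (1 : ℝ≥0∞)) ω =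
        ENNReal.ofReal (∑ m ∈ s, (E m).indicator (fun _ => (1 : ℝ)) ω) := by
      rw [ENNReal.ofReal_sum_of_nonneg fun m _ => Set.indicator_nonneg (fun _ _ => zero_le_one) _]
      refine sum_congr rfl fun m _ => ?_
      by_cases h : ω ∈ E m
      · rw [Set.indicator_of_mem h, Set.indicator_of_mem h, ENNReal.ofReal_one]
      · rw [Set.indicator_of_notMem h, Set.indicator_of_notMem h, ENNReal.ofReal_zero]
    show ENNReal.ofReal t ≤ _
    rw [e]
    exact ENNReal.ofReal_le_ofReal (le_of_lt hω)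
  have hmeas : Measurable (fun ω => ∑ m ∈ s, (E m).indicator (fun _ => (1 : ℝ≥0∞)) ω) :=
    Finset.measurable_sum s fun m hm => measurable_const.indicator (hE m hm)
  have h2 := mul_meas_ge_le_lintegral (μ := μ) hmeas (ENNReal.ofReal t)
  have h3 : ∫⁻ ω, ∑ m ∈ s, (E m).indicator (fun _ => (1 : ℝ≥0∞)) ω ∂μ ≤
      ENNReal.ofReal (s.card * q) := by
    rw [lintegral_finset_sum s fun m hm => measurable_const.indicator (hE m hm)]
    calc ∑ m ∈ s, ∫⁻ ω, (E m).indicator (fun _ => (1 : ℝ≥0∞)) ω ∂μ ≤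
        ∑ m ∈ s, ENNReal.ofReal q := by
          refine sum_le_sum fun m hm => ?_
          have := hq m hm
          rwa [← lintegral_indicator_one (hE m hm)] at this
      _ = ENNReal.ofReal (s.card * q) := by
          rw [sum_const, nsmul_eq_mul, ENNReal.ofReal_mul (Nat.cast_nonneg _),
            ENNReal.ofReal_natCast]
  calc μ {ω | t < ∑ m ∈ s, (E m).indicator (fun _ => (1 : ℝ)) ω} ≤
      μ {ω | ENNReal.ofReal t ≤ ∑ m ∈ s, (E m).indicator (fun _ => (1 : ℝ≥0∞)) ω} :=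
        measure_mono h1
    _ ≤ ENNReal.ofReal (s.card * q) / ENNReal.ofReal t := by
        rw [ENNReal.le_div_iff_mul_le (Or.inl (by simpa using ht)) (Or.inl ENNReal.ofReal_ne_top),
          mul_comm]
        exact h2.trans h3
    _ = ENNReal.ofReal (s.card * q / t) := (ENNReal.ofReal_div_of_pos ht).symm

end Pool.Agent.H532.LG
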