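import Mathlib
import Pool.Agent.H532.LG.Stage

/-!
From a family of windows with few elements at level `W_j` to empty windows.
-/

namespace Pool.Agent.H532.LG

open Finset MeasureTheory Function ProbabilityTheory Filter Pool.Agent.H532.RM
open scoped ENNReal Topology

lemma Fam.mono {Bs : Finset ℕ} {a : ℕ → ℕ} {lev U n : ℕ} {D0 D1 : ℝ}
    (h : Fam Bs a lev U n D0) (hD : D1 ≤ D0) : Fam Bs a lev U n D1 := by
  obtain ⟨M, h1, h2, h3, h4⟩ := h
  exact ⟨M, h1, hD.trans h2, h3, h4⟩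

lemma ev_poly_exp (c : ℝ) (hc : 0 < c) (k : ℕ) : ∀ᶠ j : ℕ in atTop,
    (j : ℝ) ^ k * Real.exp (-(c * j)) ≤ 1 := by
  have hj : Tendsto (fun j : ℕ => (j : ℝ)) atTop atTop := tendsto_natCast_atTop_atTop
  have h2 := (Real.tendsto_pow_mul_exp_neg_atTop_nhds_zero k).comp (hj.const_mul_atTop hc)
  have h3 := h2.const_mul ((1 / c) ^ k)
  rw [mul_zero] at h3
  filter_upwards [h3.eventually (gt_mem_nhds one_pos)] with j hj
  simp only [comp_apply] at hj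
  have e : (1 / c) ^ k * ((c * (j : ℝ)) ^ k * Real.exp (-(c * j))) =
      (j : ℝ) ^ k * Real.exp (-(c * j)) := by
    rw [← mul_assoc, ← mul_pow, ← mul_assoc, one_div, inv_mul_cancel₀ hc.ne', one_mul]
  rw [e] at hj
  exact hj.le

lemma ev_log_exp (c : ℝ) (hc : 0 < c) (k : ℕ) : ∀ᶠ j : ℕ in atTop,
    Real.exp (-(c * Real.log j ^ 2)) ≤ 1 / (j : ℝ) ^ k := by
  have h1 : Tendsto (fun j : ℕ => Real.log (j : ℝ)) atTop atTop :=
    Real.tendsto_log_atTop.comp tendsto_natCast_atTop_atTop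
  filter_upwards [h1.eventually_ge_atTop (k / c), h1.eventually_ge_atTop 0,
    eventually_ge_atTop 1] with j h2 h3 h4
  have hj0 : (0 : ℝ) < j := by exact_mod_cast h4
  rw [one_div, ← Real.exp_log (show (0 : ℝ) < ((j : ℝ) ^ k)⁻¹ by positivity), Real.log_inv,
    Real.log_pow]
  refine Real.exp_le_exp.2 ?_
  rw [div_le_iff₀ hc] at h2
  have : (k : ℝ) * Real.log j ≤ Real.log j * c * Real.log j := by gcongr
  nlinarith

/-- numbers of the first stage -/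
lemma err1 (C : ℝ) (hC : 1 ≤ C) : ∀ᶠ j : ℕ in atTop, ∀ (n D b W : ℝ), (j : ℝ) ^ 40 ≤ W → 0 ≤ n → n ≤ (j : ℝ) ^ 3 →
    D ≤ 1 / (j : ℝ) ^ 22 → Real.exp (-(b * (1 / 2) ^ 2 / 12)) ≤ 1 / (j : ℝ) ^ 22 →
    10 * C * n ≤ W ∧
    4 * (4 * C ^ 2 * n ^ 2 / W +
        (Real.exp (2 * C ^ 2 * n ^ 2 * ((j + 3 : ℕ) : ℝ) / W) - 1) +
        D + 4 * Real.exp (-(b * (1 / 2) ^ 2 / 12))) ≤ 1 / (j : ℝ) ^ 20 := by
  filter_upwards [(tendsto_natCast_atTop_atTop (R := ℝ)).eventually_ge_atTop (16 * C ^ 2 + 100)]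
    with j hj n D b W hW hn0 hn hD hb
  have hC2 : 1 ≤ C ^ 2 := one_le_pow₀ hC
  have hj1 : (100 : ℝ) ≤ j := by linarith
  have hjC : 16 * C ^ 2 ≤ (j : ℝ) := by linarith
  have hj0 : (0 : ℝ) < j := by linarith
  have hW0 : 0 < W := lt_of_lt_of_le (by positivity) hW
  constructor
  · have h1 : 10 * C ≤ (j : ℝ) := by nlinarith
    calc 10 * C * n ≤ j * (j : ℝ) ^ 3 := by gcongr
      _ = (j : ℝ) ^ 4 := by ring
      _ ≤ (j : ℝ) ^ 40 := pow_le_pow_right₀ (by linarith) (by norm_num)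
      _ ≤ W := hW
  have k1 : 4 * C ^ 2 * n ^ 2 / W ≤ 1 / (j : ℝ) ^ 22 := by
    calc 4 * C ^ 2 * n ^ 2 / W ≤ j * ((j : ℝ) ^ 3) ^ 2 / (j : ℝ) ^ 40 := by
          gcongr
          linarith
      _ = 1 / (j : ℝ) ^ 33 := by field_simp
      _ ≤ 1 / (j : ℝ) ^ 22 := by
          apply one_div_le_one_div_of_le (by positivity)
          exact pow_le_pow_right₀ (by linarith) (by norm_num)
  have k2 : Real.exp (2 * C ^ 2 * n ^ 2 * ((j + 3 : ℕ) : ℝ) / W) - 1 ≤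
      1 / (j : ℝ) ^ 22 := by
    have x1 : 2 * C ^ 2 * n ^ 2 * ((j + 3 : ℕ) : ℝ) / W ≤ 1 / (j : ℝ) ^ 31 := by
      push_cast
      calc 2 * C ^ 2 * n ^ 2 * ((j : ℝ) + 3) / W
          ≤ 2 * C ^ 2 * ((j : ℝ) ^ 3) ^ 2 * (8 * j) / (j : ℝ) ^ 40 := by
            gcongr
            linarith
        _ = (16 * C ^ 2) / (j : ℝ) ^ 33 := by field_simp; ring
        _ ≤ j / (j : ℝ) ^ 33 := by gcongr
        _ = 1 / (j : ℝ) ^ 32 := by field_simp
        _ ≤ 1 / (j : ℝ) ^ 31 := by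
            apply one_div_le_one_div_of_le (by positivity)
            exact pow_le_pow_right₀ (by linarith) (by norm_num)
    have x2 : 1 / (j : ℝ) ^ 31 ≤ 1 := by
      rw [div_le_one (by positivity)]
      exact one_le_pow₀ (by linarith)
    have x0 : 0 ≤ 2 * C ^ 2 * n ^ 2 * ((j + 3 : ℕ) : ℝ) / W := by positivity
    have x3 := exp_le_one_add_two_mul x0 (x1.trans x2)
    have x4 : 2 * (1 / (j : ℝ) ^ 31) ≤ 1 / (j : ℝ) ^ 22 := by
      have : 2 * (1 / (j : ℝ) ^ 31) ≤ j * (1 / (j : ℝ) ^ 31) := by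
        gcongr; linarith
      refine this.trans ?_
      have e : (j : ℝ) * (1 / (j : ℝ) ^ 31) = 1 / (j : ℝ) ^ 30 := by field_simp
      rw [e]
      apply one_div_le_one_div_of_le (by positivity)
      exact pow_le_pow_right₀ (by linarith) (by norm_num)
    linarith
  have k3 : 4 * (7 * (1 / (j : ℝ) ^ 22)) ≤ 1 / (j : ℝ) ^ 20 := by
    have e : 1 / (j : ℝ) ^ 20 = j ^ 2 * (1 / (j : ℝ) ^ 22) := by field_simp
    rw [e]
    have h0 : 0 < 1 / (j : ℝ) ^ 22 := by positivity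
    have : 28 ≤ (j : ℝ) ^ 2 := by nlinarith
    nlinarith
  linarith

/-- numbers of the second stage -/
lemma err2 : ∀ᶠ j : ℕ in atTop, ∀ (n D T Z1 : ℝ), 0 ≤ n → n ≤ (j : ℝ) ^ 3 →
    D ≤ 2 / (j : ℝ) ^ 22 → Real.exp (j / 8) ≤ Z1 → T ≤ Real.exp (-((j : ℝ) / 64)) →
    4 * (1 / Real.exp (-((j : ℝ) / 32))) * n ≤ Z1 ∧
    4 * (4 * (1 / Real.exp (-((j : ℝ) / 32))) ^ 2 * n ^ 2 / Z1 +
        (Real.exp (2 * (1 / Real.exp (-((j : ℝ) / 32))) ^ 2 * n ^ 2 *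
          ((j + 3 : ℕ) : ℝ) / Z1) - 1) +
        D + 2 * T) ≤ 1 / (j : ℝ) ^ 20 := by
  filter_upwards [ev_poly_exp (1 / 16) (by norm_num) 40, ev_poly_exp (1 / 64) (by norm_num) 23,
    (tendsto_natCast_atTop_atTop (R := ℝ)).eventually_ge_atTop 100]
    with j h1 h2 hj n D T Z1 hn0 hn hD hZ hT
  have hj0 : (0 : ℝ) < j := by linarith
  have hZ0 : 0 < Z1 := (Real.exp_pos _).trans_le hZ
  have e1 : 1 / Real.exp (-((j : ℝ) / 32)) = Real.exp (j / 32) := by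
    rw [Real.exp_neg]; field_simp
  have e2 : Real.exp ((j : ℝ) / 32) ^ 2 = Real.exp (j / 16) := by
    rw [← Real.exp_nat_mul]; congr 1; push_cast; ring
  have e3 : Real.exp ((j : ℝ) / 16) / Z1 ≤ Real.exp (-(1 / 16 * (j : ℝ))) := by
    rw [div_le_iff₀ hZ0]
    calc Real.exp ((j : ℝ) / 16) = Real.exp (-(1 / 16 * (j : ℝ))) * Real.exp (j / 8) := by
          rw [← Real.exp_add]; congr 1; ring
      _ ≤ _ := by gcongr
  have e4 : Real.exp (-(1 / 16 * (j : ℝ))) ≤ 1 / (j : ℝ) ^ 40 := by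
    rw [le_div_iff₀ (by positivity)]; linarith
  have e5 : Real.exp ((j : ℝ) / 16) / Z1 ≤ 1 / (j : ℝ) ^ 40 := e3.trans e4
  rw [e1, e2]
  constructor
  · have h3 : Real.exp ((j : ℝ) / 32) ≤ Real.exp (j / 16) := by
      refine Real.exp_le_exp.2 ?_
      linarith
    have h4 : Real.exp ((j : ℝ) / 16) ≤ 1 / (j : ℝ) ^ 40 * Z1 := by
      rwa [div_le_iff₀ hZ0] at e5
    calc 4 * Real.exp ((j : ℝ) / 32) * n ≤ j * (1 / (j : ℝ) ^ 40 * Z1) * (j : ℝ) ^ 3 := by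
          gcongr
          · linarith
          · exact h3.trans h4
      _ = 1 / (j : ℝ) ^ 36 * Z1 := by field_simp
      _ ≤ 1 * Z1 := by
          gcongr
          rw [div_le_one (by positivity)]
          exact one_le_pow₀ (by linarith)
      _ = Z1 := one_mul _
  have k1 : 4 * Real.exp ((j : ℝ) / 16) * n ^ 2 / Z1 ≤ 1 / (j : ℝ) ^ 22 := by
    calc 4 * Real.exp ((j : ℝ) / 16) * n ^ 2 / Z1 = 4 * n ^ 2 * (Real.exp ((j : ℝ) / 16) / Z1) := by
          ring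
      _ ≤ j * ((j : ℝ) ^ 3) ^ 2 * (1 / (j : ℝ) ^ 40) := by
          gcongr
          linarith
      _ = 1 / (j : ℝ) ^ 33 := by field_simp
      _ ≤ 1 / (j : ℝ) ^ 22 := by
          apply one_div_le_one_div_of_le (by positivity)
          exact pow_le_pow_right₀ (by linarith) (by norm_num)
  have k2 : Real.exp (2 * Real.exp ((j : ℝ) / 16) * n ^ 2 * ((j + 3 : ℕ) : ℝ) / Z1) - 1 ≤
      1 / (j : ℝ) ^ 22 := by
    have x1 : 2 * Real.exp ((j : ℝ) / 16) * n ^ 2 * ((j + 3 : ℕ) : ℝ) / Z1 ≤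
        1 / (j : ℝ) ^ 31 := by
      push_cast
      calc 2 * Real.exp ((j : ℝ) / 16) * n ^ 2 * ((j : ℝ) + 3) / Z1
          = 2 * n ^ 2 * (j + 3) * (Real.exp ((j : ℝ) / 16) / Z1) := by ring
        _ ≤ j * ((j : ℝ) ^ 3) ^ 2 * (2 * j) * (1 / (j : ℝ) ^ 40) := by
            gcongr
            · linarith
            · linarith
        _ = 2 / (j : ℝ) ^ 32 := by field_simp
        _ ≤ j / (j : ℝ) ^ 32 := by
            gcongr; linarith
        _ = 1 / (j : ℝ) ^ 31 := by field_simp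
    have x2 : 1 / (j : ℝ) ^ 31 ≤ 1 := by
      rw [div_le_one (by positivity)]
      exact one_le_pow₀ (by linarith)
    have x0 : 0 ≤ 2 * Real.exp ((j : ℝ) / 16) * n ^ 2 * ((j + 3 : ℕ) : ℝ) / Z1 := by positivity
    have x3 := exp_le_one_add_two_mul x0 (x1.trans x2)
    have x4 : 2 * (1 / (j : ℝ) ^ 31) ≤ 1 / (j : ℝ) ^ 22 := by
      have : 2 * (1 / (j : ℝ) ^ 31) ≤ j * (1 / (j : ℝ) ^ 31) := by
        gcongr; linarith
      refine this.trans ?_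
      have e : (j : ℝ) * (1 / (j : ℝ) ^ 31) = 1 / (j : ℝ) ^ 30 := by field_simp
      rw [e]
      apply one_div_le_one_div_of_le (by positivity)
      exact pow_le_pow_right₀ (by linarith) (by norm_num)
    linarith
  have k4 : T ≤ 1 / (j : ℝ) ^ 22 := by
    refine hT.trans ?_
    have : Real.exp (-((j : ℝ) / 64)) = Real.exp (-(1 / 64 * (j : ℝ))) := by congr 1; ring
    rw [this, le_div_iff₀ (by positivity)]
    have h3 : Real.exp (-(1 / 64 * (j : ℝ))) * (j : ℝ) ^ 22 ≤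
        (j : ℝ) ^ 23 * Real.exp (-(1 / 64 * (j : ℝ))) := by
      have h4 : (j : ℝ) ^ 22 ≤ (j : ℝ) ^ 23 := pow_le_pow_right₀ (by linarith) (by norm_num)
      rw [mul_comm]
      gcongr
    linarith
  have k3 : 4 * (7 * (1 / (j : ℝ) ^ 22)) ≤ 1 / (j : ℝ) ^ 20 := by
    have e : 1 / (j : ℝ) ^ 20 = j ^ 2 * (1 / (j : ℝ) ^ 22) := by field_simp
    rw [e]
    have h0 : 0 < 1 / (j : ℝ) ^ 22 := by positivity
    have : 28 ≤ (j : ℝ) ^ 2 := by nlinarith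
    nlinarith
  have k5 : 2 / (j : ℝ) ^ 22 = 2 * (1 / (j : ℝ) ^ 22) := by ring
  rw [k5] at hD
  have k0 : 0 < 1 / (j : ℝ) ^ 22 := by positivity
  linarith

end Pool.Agent.H532.LG
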