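import Mathlib
import Pool.Agent.H532.LG.Count
import Pool.Agent.H532.LG.Kill

/-!
The number of empty windows: almost sure upper bound.
-/

namespace Pool.Agent.H532.LG

open Finset MeasureTheory Function ProbabilityTheory Filter Pool.Agent.H532.RM
open scoped ENNReal Topology

lemma exp_loss {κ' C δ r y t : ℝ} (hκ0 : 0 ≤ κ') (hκ : 4 * κ' * C ≤ δ / 8) (hrC : r ≤ C)
    (hδ : 0 < δ) (hy : 0 ≤ y) (ht : 0 ≤ t) (h : (r - δ / 8) * y ≤ t) :
    (r - δ / 2) * y ≤ Real.exp (-(4 * κ')) * t := by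
  have he : 1 - 4 * κ' ≤ Real.exp (-(4 * κ')) := by
    have := Real.add_one_le_exp (-(4 * κ'))
    linarith
  have he0 := Real.exp_pos (-(4 * κ'))
  rcases le_or_gt 0 (r - δ / 8) with h1 | h1
  · have h2 : Real.exp (-(4 * κ')) * ((r - δ / 8) * y) ≤ Real.exp (-(4 * κ')) * t := by gcongr
    refine le_trans ?_ h2
    have h3 : (1 - 4 * κ') * ((r - δ / 8) * y) ≤ Real.exp (-(4 * κ')) * ((r - δ / 8) * y) := by
      have : 0 ≤ (r - δ / 8) * y := by positivity
      gcongr
    refine le_trans ?_ h3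
    have h4 : 4 * κ' * (r - δ / 8) * y ≤ δ / 8 * y := by
      have h5 : 4 * κ' * (r - δ / 8) ≤ 4 * κ' * C := by
        gcongr
        linarith
      gcongr
      linarith
    nlinarith
  · have h2 : (r - δ / 2) * y ≤ 0 := by
      apply mul_nonpos_of_nonpos_of_nonneg _ hy
      linarith
    have h3 : 0 ≤ Real.exp (-(4 * κ')) * t := by positivity
    linarith

section
variable {Ω : Type} [MeasurableSpace Ω] {μ : Measure Ω} [IsProbabilityMeasure μ]
  {A : ℕ → Ω → ℕ}

lemma measurable_T1 (hA : RandomClasses μ A) (Z m U : ℕ) :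
    Measurable (fun ω => T1 (fun p => A p ω) Z m U) := by
  have hA' : Measurable (fun ω (p : ℕ) => A p ω) := measurable_pi_lambda _ hA.meas
  have h1 : Measurable (fun a : ℕ → ℕ => T1 a Z m U) := by
    refine DepOn.measurable (s := primesLe Z) ?_
    intro a a' haa
    unfold T1
    beta_reduce
    rw [TT_congr {0} a a' (primesLe Z) m U fun p hp => by rw [haa p hp]]
  exact h1.comp hA'

end

theorem empty_count (δ C0 : ℝ) (hδ : 0 < δ) (hδ1 : δ ≤ 1) (hC0 : 0 < C0) {Ω : Type}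
    [MeasurableSpace Ω] (μ : Measure Ω) [IsProbabilityMeasure μ] (A : ℕ → Ω → ℕ)
    (hA : RandomClasses μ A) (Z : ℕ → ℕ)
    (hZ : Tendsto (fun j : ℕ => V (Z j) * (j * Real.log 2)) atTop (𝓝 1)) :
    ∀ᵐ ω ∂μ, ∀ᶠ j : ℕ in atTop, ∀ U : ℕ, UOK C0 j U → ∀ ζ : ℕ, 2 * U / j / 4 ≤ ζ →
      ζ ≤ 2 * U / j →
      (((range (2 ^ (j + 3))).filter (fun m => T1 (fun p => A p ω) (Z j) m U = 0)).card : ℝ) ≤
        2 ^ j * Real.exp (-((rm U ζ - δ) * (U * V (Z j)))) := by
  classical
  obtain ⟨CK, hCK, hprob⟩ := empty_prob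
  obtain ⟨C, hC, ζ0, hrp⟩ := rp_bdd
  obtain ⟨κ', hκ'⟩ : ∃ κ' : ℝ, κ' = min 1 (δ / (32 * C)) := ⟨_, rfl⟩
  have hκ'0 : 0 < κ' := by rw [hκ']; exact lt_min one_pos (by positivity)
  have hκ'1 : κ' ≤ 1 := by rw [hκ']; exact min_le_left _ _
  have hκ'2 : 4 * κ' * C ≤ δ / 8 := by
    have h1 : κ' ≤ δ / (32 * C) := by rw [hκ']; exact min_le_right _ _
    rw [le_div_iff₀ (by positivity)] at h1
    linarith
  have hρ := rho_small hZ
  have hvz : ∀ᶠ j : ℕ in atTop, 1 ≤ (j : ℝ) * V (Z j) ∧ (j : ℝ) * V (Z j) ≤ 2 := by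
    have hl2a := Real.log_two_gt_d9
    have hl2b := Real.log_two_lt_d9
    filter_upwards [hZ.eventually (lt_mem_nhds (show (0.9 : ℝ) < 1 by norm_num)),
      hZ.eventually (gt_mem_nhds (show (1 : ℝ) < 1.1 by norm_num))] with j h1 h2
    have h3 : 0 ≤ (j : ℝ) * V (Z j) := mul_nonneg (Nat.cast_nonneg _) (V_pos _).le
    constructor <;> nlinarith
  -- the events
  set Bd : ℕ → ℕ → ℕ → Set Ω := fun j U ζ =>
    {ω | 2 ^ j * Real.exp (-((rm U ζ - δ) * (U * V (Z j)))) <
      ∑ m ∈ range (2 ^ (j + 3)), ({ω | T1 (fun p => A p ω) (Z j) m U = 0}).indicator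
        (fun _ => (1 : ℝ)) ω} with hBd
  set F : ℕ → Finset (ℕ × ℕ) := fun j => (range (j ^ 3 + 1) ×ˢ range (2 * j ^ 3 + 1)).filter
    (fun q => UOK C0 j q.1 ∧ 2 * q.1 / j / 4 ≤ q.2 ∧ q.2 ≤ 2 * q.1 / j) with hF
  set E : ℕ → Set Ω := fun j => ⋃ q ∈ F j, Bd j q.1 q.2 with hE
  have hmeas : ∀ᶠ j : ℕ in atTop, μ (E j) ≤ ENNReal.ofReal (1 / (j : ℝ) ^ 2) := by
    filter_upwards [ev_w _ (normOK (δ / 8) (1 / (4 * C0)) (by positivity) (by positivity)),
      ev_w _ (wj_large (4 * CK / κ')), ev_w _ (wj_tendsto.eventually_ge_atTop 4),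
      ev_w _ (eventually_ge_atTop (max 8 (4 * ζ0))), Wj_le_Z hZ,
      hρ.eventually (gt_mem_nhds (show (0 : ℝ) < κ' / 2 by positivity)), hvz,
      ev_log_exp (δ / 2) (by positivity) 11, eventually_ge_atTop 16] with
      j h1 h2 h3 h4 h5 h6 h7 h8 h9
    obtain ⟨h7a, h7b⟩ := h7
    have hjr : (16 : ℝ) ≤ j := by exact_mod_cast h9
    have hj0 : (0 : ℝ) < j := by linarith
    have hVZ := V_pos (Z j)
    have hVW := V_pos (Wj j)
    have hone : ∀ q ∈ F j, μ (Bd j q.1 q.2) ≤ ENNReal.ofReal (1 / (j : ℝ) ^ 10) := by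
      rintro ⟨U, ζ⟩ hq
      obtain ⟨_, hU, hζ1, hζ2⟩ := mem_filter.1 hq
      simp only at hU hζ1 hζ2
      obtain ⟨w, hw⟩ : ∃ w, w = 2 * U / j := ⟨_, rfl⟩
      have k1 := h1 U hU.u2
      have k2 := h2 U hU.u2
      have k3 := h3 U hU.u2
      have k4 := h4 U hU.u2
      obtain ⟨u1, u2, u3⟩ := hU.w_le (by omega) hC0
      rw [← hw] at hζ1 hζ2 k1 k2 k3 k4 u1 u2
      have hw8 : 8 ≤ w := (le_max_left _ _).trans k4
      have hwζ : 4 * ζ0 ≤ w := (le_max_right _ _).trans k4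
      have hζζ0 : ζ0 ≤ ζ := by omega
      -- `U / j ≤ w`
      have hUw : (U : ℝ) / j ≤ w := by
        have e1 : 2 * U < w * j + j := by
          rw [hw]; exact Nat.lt_div_mul_add (by omega)
        have e2 : 2 * (U : ℝ) < w * j + j := by exact_mod_cast e1
        rw [div_le_iff₀ hj0]
        have e3 : (8 : ℝ) ≤ w := by exact_mod_cast hw8
        nlinarith
      have hwU : w ≤ U := by
        rw [hw]
        refine Nat.div_le_of_le_mul ?_
        nlinarith
      have hUpos : 0 < U := by omega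
      have hUr : (0 : ℝ) < U := by exact_mod_cast hUpos
      have hU3 : (U : ℝ) ≤ (j : ℝ) ^ 3 := by exact_mod_cast hU.u1
      have hww : wj w ≤ Wj j := by
        have e1 : Nat.log 2 w ≤ w := (Nat.log_lt_self 2 (by omega)).le
        have e2 : w ≤ 2 * j ^ 2 := by
          rw [hw]
          refine Nat.div_le_of_le_mul ?_
          calc 2 * U ≤ 2 * j ^ 3 := Nat.mul_le_mul_left _ hU.u1
            _ = j * (2 * j ^ 2) := by ring
        unfold wj Wj
        calc w * Nat.log 2 w ^ 3 ≤ w * w ^ 3 := by gcongr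
          _ = w ^ 4 := by ring
          _ ≤ (2 * j ^ 2) ^ 4 := by gcongr
          _ = 16 * j ^ 8 := by ring
          _ ≤ j * j ^ 8 := by gcongr
          _ = j ^ 9 := by ring
          _ ≤ j ^ 40 := Nat.pow_le_pow_right (by omega) (by norm_num)
      have hUW : U ≤ Wj j := hU.u1.trans (by
        unfold Wj; exact Nat.pow_le_pow_right (by omega) (by norm_num))
      have hWr : ((Wj j : ℕ) : ℝ) = (j : ℝ) ^ 40 := by unfold Wj; push_cast; rfl
      have hU4 : 4 * (U : ℝ) ^ 2 ≤ (Wj j : ℕ) := by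
        rw [hWr]
        calc 4 * (U : ℝ) ^ 2 ≤ j * ((j : ℝ) ^ 3) ^ 2 := by gcongr; linarith
          _ = (j : ℝ) ^ 7 := by ring
          _ ≤ (j : ℝ) ^ 40 := pow_le_pow_right₀ (by linarith) (by norm_num)
      have hrC : rm U ζ ≤ C := (rm_le_rp U ζ).trans (hrp ζ hζζ0 U hUpos (by
        calc ζ ≤ w := hζ2
          _ ≤ U := hwU
          _ ≤ U ^ 2 := Nat.le_self_pow (by norm_num) U))
      have hUVZ : (U : ℝ) * V (Z j) ≤ 2 * w := by
        calc (U : ℝ) * V (Z j) = (U / j) * (j * V (Z j)) := by field_simp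
          _ ≤ w * 2 := by gcongr
          _ = 2 * w := by ring
      have hUVZ2 : (U : ℝ) / j ≤ U * V (Z j) := by
        calc (U : ℝ) / j = (U / j) * 1 := (mul_one _).symm
          _ ≤ (U / j) * (j * V (Z j)) := by gcongr
          _ = U * V (Z j) := by field_simp
      have hwjr : (0 : ℝ) < wj w := by exact_mod_cast (by omega : 0 < wj w)
      have hκb : V (Z j) / V (Wj j) * (1 + CK * (U * V (Wj j) *
          (Real.log (wj w) / (wj w : ℕ)))) ≤ κ' := by
        have e1 : V (Z j) / V (Wj j) * (1 + CK * (U * V (Wj j) *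
          (Real.log (wj w) / (wj w : ℕ)))) = V (Z j) / V (Wj j) +
          CK * (U * V (Z j)) * (Real.log (wj w) / (wj w : ℕ)) := by
          field_simp
        have hlw : 0 ≤ Real.log (wj w) := Real.log_natCast_nonneg _
        have e2 : CK * (U * V (Z j)) * (Real.log (wj w) / (wj w : ℕ)) ≤ κ' / 2 := by
          calc CK * (U * V (Z j)) * (Real.log (wj w) / (wj w : ℕ)) ≤
              CK * (2 * w) * (Real.log (wj w) / (wj w : ℕ)) := by gcongr
            _ = κ' / 2 * ((4 * CK / κ' * w * Real.log (wj w)) / (wj w : ℕ)) := by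
                field_simp; ring
            _ ≤ κ' / 2 * 1 := by
                gcongr
                rw [div_le_one hwjr]
                exact k2
            _ = κ' / 2 := mul_one _
        rw [e1]
        linarith
      have hx : ∀ (m : ℕ) (c : ℕ → ℕ), (rm U ζ - δ / 2) * (U * V (Z j)) ≤
          V (Z j) / V (wj w) * Real.exp (-(4 * κ')) * T1 c (wj w) m U := by
        intro m c
        have g1 := k1.low U ζ u2 hζ1 hζ2 c m
        have hVw := V_pos (wj w)
        have g2 : (rm U ζ - δ / 8) * (U * V (Z j)) ≤ V (Z j) / V (wj w) * T1 c (wj w) m U := by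
          calc (rm U ζ - δ / 8) * (U * V (Z j)) =
              V (Z j) / V (wj w) * ((rm U ζ - δ / 8) * (U * V (wj w))) := by field_simp
            _ ≤ V (Z j) / V (wj w) * T1 c (wj w) m U := by gcongr
        have g3 := exp_loss hκ'0.le hκ'2 hrC hδ (by positivity : (0 : ℝ) ≤ U * V (Z j))
          (by positivity) g2
        refine g3.trans (le_of_eq ?_)
        ring
      have hp : ∀ m ∈ range (2 ^ (j + 3)), μ {ω | T1 (fun p => A p ω) (Z j) m U = 0} ≤
          ENNReal.ofReal (2 * Real.exp (-((rm U ζ - δ / 2) * (U * V (Z j))))) := fun m _ =>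
        hprob μ A hA (wj w) (Wj j) (Z j) m U k3 hww h5 hUW hU4 κ' _ hκb hκ'1 (hx m)
      have hmk := markov_count μ (range (2 ^ (j + 3)))
        (fun m => {ω | T1 (fun p => A p ω) (Z j) m U = 0}) _
        (2 ^ j * Real.exp (-((rm U ζ - δ) * (U * V (Z j)))))
        (fun m _ => measurable_T1 hA (Z j) m U (measurableSet_singleton 0)) hp (by positivity)
        (by positivity)
      refine hmk.trans (ENNReal.ofReal_le_ofReal ?_)
      rw [card_range, div_le_iff₀ (by positivity)]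
      push_cast
      have e3 : Real.exp (-((rm U ζ - δ / 2) * (U * V (Z j)))) =
          Real.exp (-(δ / 2 * (U * V (Z j)))) *
            Real.exp (-((rm U ζ - δ) * (U * V (Z j)))) := by
        rw [← Real.exp_add]; congr 1; ring
      have e4 : Real.exp (-(δ / 2 * (U * V (Z j)))) ≤ 1 / (j : ℝ) ^ 11 := by
        refine le_trans (Real.exp_le_exp.2 ?_) h8
        have : δ / 2 * Real.log j ^ 2 ≤ δ / 2 * (U * V (Z j)) := by
          have := hU.u2
          gcongr
          linarith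
        linarith
      have e5 : 16 * (1 / (j : ℝ) ^ 11) ≤ 1 / (j : ℝ) ^ 10 := by
        calc 16 * (1 / (j : ℝ) ^ 11) ≤ j * (1 / (j : ℝ) ^ 11) := by gcongr
          _ = 1 / (j : ℝ) ^ 10 := by field_simp
      rw [e3]
      calc (2 : ℝ) ^ (j + 3) * (2 * (Real.exp (-(δ / 2 * (U * V (Z j)))) *
            Real.exp (-((rm U ζ - δ) * (U * V (Z j)))))) =
          (16 * Real.exp (-(δ / 2 * (U * V (Z j))))) *
            (2 ^ j * Real.exp (-((rm U ζ - δ) * (U * V (Z j))))) := by ring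
        _ ≤ (16 * (1 / (j : ℝ) ^ 11)) *
            (2 ^ j * Real.exp (-((rm U ζ - δ) * (U * V (Z j))))) := by gcongr
        _ ≤ 1 / (j : ℝ) ^ 10 * (2 ^ j * Real.exp (-((rm U ζ - δ) * (U * V (Z j))))) := by gcongr
    calc μ (E j) ≤ ∑ q ∈ F j, μ (Bd j q.1 q.2) := measure_biUnion_finset_le _ _
      _ ≤ ∑ q ∈ F j, ENNReal.ofReal (1 / (j : ℝ) ^ 10) := sum_le_sum hone
      _ = (F j).card * ENNReal.ofReal (1 / (j : ℝ) ^ 10) := by rw [sum_const, nsmul_eq_mul]
      _ ≤ ENNReal.ofReal (((j : ℝ) ^ 3 + 1) * (2 * (j : ℝ) ^ 3 + 1)) *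
          ENNReal.ofReal (1 / (j : ℝ) ^ 10) := by
          gcongr
          rw [← ENNReal.ofReal_natCast]
          refine ENNReal.ofReal_le_ofReal ?_
          have g4 : (F j).card ≤ (j ^ 3 + 1) * (2 * j ^ 3 + 1) := by
            refine (card_filter_le _ _).trans (le_of_eq ?_)
            simp only [card_product, card_range]
          exact_mod_cast g4
      _ ≤ ENNReal.ofReal (1 / (j : ℝ) ^ 2) := by
          rw [← ENNReal.ofReal_mul (by positivity)]
          refine ENNReal.ofReal_le_ofReal ?_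
          have g5 : (1 : ℝ) ≤ (j : ℝ) ^ 3 := one_le_pow₀ (by linarith)
          calc ((j : ℝ) ^ 3 + 1) * (2 * (j : ℝ) ^ 3 + 1) * (1 / (j : ℝ) ^ 10) ≤
              ((j : ℝ) ^ 3 + (j : ℝ) ^ 3) * (2 * (j : ℝ) ^ 3 + (j : ℝ) ^ 3) *
                (1 / (j : ℝ) ^ 10) := by gcongr
            _ = 6 / (j : ℝ) ^ 2 * (1 / (j : ℝ) ^ 2) := by field_simp; ring
            _ ≤ 1 * (1 / (j : ℝ) ^ 2) := by
                gcongr
                rw [div_le_one (by positivity)]
                nlinarith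
            _ = 1 / (j : ℝ) ^ 2 := one_mul _
  have hbc := borel_cantelli_sq μ E hmeas
  filter_upwards [hbc] with ω hω
  filter_upwards [hω, eventually_ge_atTop 1] with j hj hj1 U hU ζ hζ1 hζ2
  have hζj : ζ ≤ 2 * j ^ 3 := by
    refine hζ2.trans ((Nat.div_le_self _ _).trans ?_)
    exact Nat.mul_le_mul_left _ hU.u1
  have hmemF : (U, ζ) ∈ F j := by
    rw [hF]
    refine mem_filter.2 ⟨?_, hU, hζ1, hζ2⟩
    simp only [mem_product, mem_range]
    have := hU.u1
    omega
  by_contra hcon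
  refine hj (Set.mem_biUnion (x := (U, ζ)) (mem_coe.2 hmemF) ?_)
  rw [not_le] at hcon
  simp only [hBd, Set.mem_setOf_eq]
  refine hcon.trans_le (le_of_eq ?_)
  rw [card_filter, Nat.cast_sum]
  refine sum_congr rfl fun m _ => ?_
  rw [Set.indicator_apply]
  simp only [Set.mem_setOf_eq]
  split_ifs <;> simp

end Pool.Agent.H532.LG
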