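import Mathlib
import Pool.Agent.H532.LG.Kill

/-!
From a family of windows with few elements at level `W_j` to empty windows: one block.
-/

namespace Pool.Agent.H532.LG

open Finset MeasureTheory Function ProbabilityTheory Filter Pool.Agent.H532.RM
open scoped ENNReal Topology

lemma blk_lt {j k U : ℕ} (hp3 : j ^ 3 ≤ 2 ^ (j - 1)) (hj : 0 < j) (hk : k < 5) (hU : U ≤ j ^ 3) :
    ∀ m ∈ Blk j k, m + U < 2 ^ (j + 3) := by
  intro m hm
  have h1 := (mem_Ico.1 hm).2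
  have h2 : (k + 1) * 2 ^ (j - 1) ≤ 5 * 2 ^ (j - 1) := Nat.mul_le_mul_right _ (by omega)
  have h3 : 2 ^ (j + 3) = 16 * 2 ^ (j - 1) := by
    have : j + 3 = 4 + (j - 1) := by omega
    rw [this, pow_add]
    norm_num
  have h4 : 0 < 2 ^ (j - 1) := by positivity
  omega

/-- the exponent of the first stage -/
lemma cost1 {θ0 ρ1 n w η C0 κρ x : ℝ} (hθ : 0 < θ0) (hθ1 : θ0 ≤ 1 / 2) (hρ0 : 0 ≤ ρ1)
    (hρκ : ρ1 ≤ κρ) (hn : 0 ≤ n) (hκ : κρ * (64 * C0) ≤ η) (hw : 0 ≤ w)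
    (hρn : ρ1 * n ≤ 2 * (C0 * w)) (hx : ρ1 * n ≤ x + η / 16 * w) :
    (1 + (θ0 - 1)) * ρ1 * n * Real.log (1 + (θ0 - 1)) - (θ0 - 1) * ρ1 * n +
      1 / 2 * ((1 + (θ0 - 1)) * ρ1 * n) * |Real.log (1 + (θ0 - 1))| +
      2 * ((θ0 - 1) * ρ1) ^ 2 * n ≤ x + η / 4 * w := by
  have e : 1 + (θ0 - 1) = θ0 := by ring
  rw [e]
  have hl : Real.log θ0 ≤ 0 := Real.log_nonpos hθ.le (by linarith)
  rw [abs_of_nonpos hl]
  have hb : 0 ≤ θ0 * ρ1 * n := by positivity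
  have h1 : θ0 * ρ1 * n * Real.log θ0 ≤ 0 := mul_nonpos_of_nonneg_of_nonpos hb hl
  have h2 : 0 ≤ θ0 * (ρ1 * n) := by positivity
  have h3 : ((θ0 - 1) * ρ1) ^ 2 * n ≤ κρ * (2 * (C0 * w)) := by
    calc ((θ0 - 1) * ρ1) ^ 2 * n = (θ0 - 1) ^ 2 * (ρ1 * (ρ1 * n)) := by ring
      _ ≤ 1 * (κρ * (2 * (C0 * w))) := by
          have h4 : (θ0 - 1) ^ 2 ≤ 1 := by nlinarith
          have h5 : 0 ≤ ρ1 * n := by positivity
          have h6 : 0 ≤ κρ := hρ0.trans hρκ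
          gcongr
      _ = _ := one_mul _
  have h4 : κρ * (64 * C0) * w ≤ η * w := by gcongr
  nlinarith

lemma four_le_exp {η w : ℝ} (hη : 0 < η) (hw : 8 / η ≤ w) : 4 ≤ Real.exp (5 / 8 * (η * w)) := by
  rw [div_le_iff₀ hη] at hw
  have := Real.add_one_le_exp (5 / 8 * (η * w))
  nlinarith

theorem kill_one (η C0 κ : ℝ) (hη : 0 < η) (hC0 : 1 ≤ C0) (hηC : η * C0 ≤ 1 / 8)
    (hκ : 0 < κ) : ∃ ε2 κρ : ℝ, 0 < ε2 ∧ ε2 ≤ 1 / 4 ∧ 0 < κρ ∧ ∀ᶠ j : ℕ in atTop, ∀ {Ω : Type}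
    [MeasurableSpace Ω] (μ : Measure Ω) [IsProbabilityMeasure μ] (A : ℕ → Ω → ℕ)
    (_ : RandomClasses μ A) (y : ℕ) (bb : ℕ → ℕ) (W Z1 Z : ℕ) (_ : y ≤ W)
    (_ : Wj j ≤ W) (_ : W ≤ Z1) (_ : Z1 ≤ Z)
    (_ : Real.exp (j / 8) ≤ Z1) (_ : V Z1 / V W ≤ κρ) (_ : 1 - ε2 ≤ V Z / V Z1)
    (_ : V Z / V Z1 ≤ 1 - ε2 / 4) (k : ℕ) (_ : k < 5) (U n : ℕ) (_ : U ≤ j ^ 3) (_ : n ≤ U)
    (w : ℝ) (_ : Real.log j ^ 2 ≤ w) (_ : w ≤ C0 * j) (_ : κ * w ≤ V Z / V W * n)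
    (_ : V Z / V W * n ≤ C0 * w) (D0 : ℝ)
    (_ : (j : ℝ) ^ 22 ≤ D0 * Real.exp (-(V Z / V W * n) - η * w)),
    μ {ω | Fam (Blk j k) (mix y bb (fun p => A p ω)) W U n D0 ∧
      ¬ Fam (Blk j k) (mix y bb (fun p => A p ω)) Z U 0
        (D0 * Real.exp (-(V Z / V W * n) - η * w))} ≤ ENNReal.ofReal (2 / (j : ℝ) ^ 20) := by
  classical
  set ε2 : ℝ := min (1 / 4) (η / (32 * C0)) with hε2
  have hC00 : 0 < C0 := by linarith
  have hε20 : 0 < ε2 := lt_min (by norm_num) (by positivity)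
  have hε21 : ε2 ≤ 1 / 4 := min_le_left _ _
  have hε22 : ε2 * (32 * C0) ≤ η := by
    have : ε2 ≤ η / (32 * C0) := min_le_right _ _
    rwa [le_div_iff₀ (by positivity)] at this
  set lg : ℝ := Real.log (4 / ε2) with hlg
  have hlg0 : 0 < lg := Real.log_pos (by rw [lt_div_iff₀ hε20]; linarith)
  set θ0 : ℝ := min (1 / 2) (η / (24 * C0 * lg)) with hθ0
  have hθ00 : 0 < θ0 := lt_min (by norm_num) (by positivity)
  have hθ01 : θ0 ≤ 1 / 2 := min_le_left _ _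
  have hθ02 : θ0 * (24 * C0 * lg) ≤ η := by
    have : θ0 ≤ η / (24 * C0 * lg) := min_le_right _ _
    rwa [le_div_iff₀ (by positivity)] at this
  set κρ : ℝ := min (1 / 48) (η / (64 * C0)) with hκρ
  have hκρ0 : 0 < κρ := lt_min (by norm_num) (by positivity)
  have hκρ1 : κρ ≤ 1 / 48 := min_le_left _ _
  have hκρ2 : κρ * (64 * C0) ≤ η := by
    have : κρ ≤ η / (64 * C0) := min_le_right _ _
    rwa [le_div_iff₀ (by positivity)] at this
  have hC1 : 1 ≤ 1 / θ0 := by rw [le_div_iff₀ hθ00]; linarith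
  refine ⟨ε2, κρ, hε20, hε21, hκρ0, ?_⟩
  have hlogt : Tendsto (fun j : ℕ => Real.log (j : ℝ) ^ 2) atTop atTop :=
    (tendsto_pow_atTop (by norm_num)).comp
      (Real.tendsto_log_atTop.comp tendsto_natCast_atTop_atTop)
  filter_upwards [err1 (1 / θ0) hC1, err2, pow3_le, ev_log_exp (θ0 * κ / 48) (by positivity) 22,
    hlogt.eventually_ge_atTop (8 / η), eventually_ge_atTop 32] with j he1 he2 hp3 hlx hlη hj32
  intro Ω _ μ _ A hA y bb W Z1 Z hyW hWj hWZ1 hZ1Z hZ1e hρ1κ hρ2a hρ2b k hk U n hU hnU w hw1 hw2 hn1 hn2 D0 hD0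
  have hj1 : 1 ≤ j := by omega
  have hj0 : (0 : ℝ) < j := by exact_mod_cast hj1
  have hVW := V_pos W
  have hVZ1 := V_pos Z1
  have hVZ := V_pos Z
  have hρe : V Z / V W = V Z1 / V W * (V Z / V Z1) := by field_simp
  have hρ0' : 0 < V Z / V W := by positivity
  have hρ1W : V Z1 / V W ≤ 1 := by rw [div_le_one hVW]; exact V_anti hWZ1
  obtain ⟨ρ, hρ⟩ : ∃ ρ, ρ = V Z / V W := ⟨_, rfl⟩
  obtain ⟨ρ1, hρ1⟩ : ∃ ρ1, ρ1 = V Z1 / V W := ⟨_, rfl⟩
  obtain ⟨ρ2, hρ2⟩ : ∃ ρ2, ρ2 = V Z / V Z1 := ⟨_, rfl⟩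
  have hρ10 : 0 < ρ1 := by rw [hρ1]; positivity
  rw [← hρ, ← hρ1, ← hρ2] at hρe
  rw [← hρ] at hn1 hn2 hD0 ⊢
  rw [← hρ1] at hρ1κ hρ1W
  rw [← hρ2] at hρ2a hρ2b
  have hw8 : 8 / η ≤ w := hlη.trans hw1
  have hw0 : 0 < w := lt_of_lt_of_le (by positivity) hw8
  have hn0 : (0 : ℝ) ≤ n := Nat.cast_nonneg n
  have hnj : (n : ℝ) ≤ (j : ℝ) ^ 3 := by exact_mod_cast hnU.trans hU
  -- `ρ1 n`
  have hρ1n0 : 0 ≤ ρ1 * n := by positivity
  have hρ1n : ρ1 * n ≤ 2 * (C0 * w) := by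
    have h1 : ρ1 * n * (1 / 2) ≤ ρ1 * n * ρ2 := by
      gcongr; linarith
    have h2 : ρ1 * n * ρ2 = ρ * n := by rw [hρe]; ring
    linarith
  have hρ1n2 : ρ1 * n ≤ ρ * n + η / 16 * w := by
    have h2 : ρ1 * n * ρ2 = ρ * n := by rw [hρe]; ring
    have h3 : ρ1 * n * (1 - ρ2) ≤ 2 * (C0 * w) * ε2 := by
      gcongr
      · linarith
      · linarith
    have h4 : ε2 * (32 * C0) * w ≤ η * w := by gcongr
    nlinarith
  have hρ1n3 : ρ * n ≤ ρ1 * n := by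
    rw [hρe]
    have : ρ1 * ρ2 * n ≤ ρ1 * 1 * n := by
      gcongr; linarith
    linarith
  -- first stage
  obtain ⟨b, hb⟩ : ∃ b, b = (1 + (θ0 - 1)) * ρ1 * n := ⟨_, rfl⟩
  have hb' : b = θ0 * (ρ1 * n) := by rw [hb]; ring
  have hb0 : 0 ≤ b := by rw [hb']; positivity
  obtain ⟨D1, hD1⟩ : ∃ D1, D1 = Real.exp (b * Real.log (1 + (θ0 - 1)) - (θ0 - 1) * ρ1 * n +
      1 / 2 * b * |Real.log (1 + (θ0 - 1))| + 2 * ((θ0 - 1) * ρ1) ^ 2 * n) := ⟨_, rfl⟩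
  have hD10 : 0 < D1 := by rw [hD1]; exact Real.exp_pos _
  have hD1b : D1 ≤ Real.exp (ρ * n + η / 4 * w) := by
    rw [hD1, hb]
    exact Real.exp_le_exp.2 (cost1 hθ00 hθ01 hρ10.le hρ1κ hn0 hκρ2 hw0.le hρ1n hρ1n2)
  have hD0' : (j : ℝ) ^ 22 * Real.exp (ρ * n + η * w) ≤ D0 := by
    have e : Real.exp (-(ρ * n) - η * w) = (Real.exp (ρ * n + η * w))⁻¹ := by
      rw [← Real.exp_neg]; congr 1; ring
    rw [e, ← div_eq_mul_inv, le_div_iff₀ (Real.exp_pos _)] at hD0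
    exact hD0
  have hD00 : 0 < D0 := lt_of_lt_of_le (by positivity) hD0'
  obtain ⟨k0, hk0⟩ : ∃ k0, k0 = ⌊(1 + 1 / 2) * b⌋₊ := ⟨_, rfl⟩
  have hk0a : (1 + 1 / 2) * b < k0 + 1 := by rw [hk0]; exact Nat.lt_floor_add_one _
  have hk0b : (k0 : ℝ) ≤ (1 + 1 / 2) * b := by rw [hk0]; exact Nat.floor_le (by positivity)
  have hk0n : k0 ≤ n := by
    have h1 : (k0 : ℝ) ≤ n := by
      refine hk0b.trans ?_
      rw [hb']
      calc (1 + 1 / 2) * (θ0 * (ρ1 * n)) ≤ (1 + 1 / 2) * (1 / 2 * (1 * n)) := by gcongr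
        _ ≤ n := by linarith
    exact_mod_cast h1
  have hxb : Real.exp (-(b * (1 / 2) ^ 2 / 12)) ≤ 1 / (j : ℝ) ^ 22 := by
    refine le_trans (Real.exp_le_exp.2 ?_) hlx
    have h1 : θ0 * κ * Real.log j ^ 2 ≤ b := by
      rw [hb']
      calc θ0 * κ * Real.log j ^ 2 ≤ θ0 * κ * w := by gcongr
        _ = θ0 * (κ * w) := by ring
        _ ≤ θ0 * (ρ1 * n) := by
            have := hn1.trans hρ1n3
            gcongr
    linarith
  have hDD : D1 / D0 ≤ 1 / (j : ℝ) ^ 22 := by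
    rw [div_le_div_iff₀ hD00 (by positivity)]
    calc D1 * (j : ℝ) ^ 22 ≤ Real.exp (ρ * n + η / 4 * w) * (j : ℝ) ^ 22 := by gcongr
      _ ≤ Real.exp (ρ * n + η * w) * (j : ℝ) ^ 22 := by
          have : 0 ≤ η * w := by positivity
          gcongr
          linarith
      _ ≤ 1 * D0 := by linarith
  have hW40 : (j : ℝ) ^ 40 ≤ (W : ℝ) := by
    have : ((Wj j : ℕ) : ℝ) = (j : ℝ) ^ 40 := by unfold Wj; push_cast; rfl
    rw [← this]; exact_mod_cast hWj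
  obtain ⟨hN1, hE1⟩ := he1 n (D1 / D0) b W hW40 hn0 hnj hDD hxb
  have hWpos : 0 < W := lt_of_lt_of_le (by unfold Wj; positivity) hWj
  have hUW : U ≤ W := (hU.trans (by
    unfold Wj; exact Nat.pow_le_pow_right hj1 (by norm_num))).trans hWj
  have hBs := blk_lt (U := U) hp3 hj1 hk hU
  have hρ1d : V Z1 / V W = ρ1 := hρ1.symm
  have hst1 := stage1 hA y bb hyW hWZ1 hWpos U n k0 (j + 3) hUW hnU (θ0 - 1) (1 / θ0) (1 / 2)
    (by linarith) (by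
      have e : 1 + (θ0 - 1) = θ0 := by ring
      rw [e, min_eq_right (by linarith : θ0 ≤ 1), one_div, inv_mul_cancel₀ hθ00.ne', abs_le]
      constructor <;> linarith) hC1 (by norm_num) le_rfl hN1 (by
      rw [hρ1d, abs_mul, abs_of_nonneg hρ10.le]
      have h1 : |θ0 - 1| ≤ 1 := by rw [abs_le]; constructor <;> linarith
      calc |θ0 - 1| * ρ1 ≤ 1 * (1 / 48) := by
            gcongr
            linarith
        _ = 1 / 2 / 24 := by norm_num) b (by rw [hρ1d]; exact hb) hk0a (Blk j k) hBs D0 D1 hD00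
    (by rw [hρ1d]; exact hD1)
  have hst1' := hst1.trans (ENNReal.ofReal_le_ofReal hE1)
  -- second stage
  obtain ⟨θ, hθ⟩ : ∃ θ, θ = Real.exp (-((j : ℝ) / 32)) := ⟨_, rfl⟩
  have hθp : 0 < θ := by rw [hθ]; exact Real.exp_pos _
  obtain ⟨D2, hD2⟩ : ∃ D2, D2 = 1 / (1 - (1 - θ) * ρ2) ^ k0 := ⟨_, rfl⟩
  have hρ20 : 0 < ρ2 := by linarith
  have hθ1 : θ ≤ 1 / 2 := by
    rw [hθ]
    have h1 : Real.exp (-((j : ℝ) / 32)) ≤ Real.exp (-1) := by
      refine Real.exp_le_exp.2 ?_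
      have : (32 : ℝ) ≤ j := by exact_mod_cast hj32
      linarith
    have h2 : Real.exp (-1) ≤ 1 / 2 := by
      rw [Real.exp_neg, one_div]
      have := Real.exp_one_gt_d9
      exact inv_anti₀ (by norm_num) (by linarith)
    linarith
  have hq : ε2 / 4 ≤ 1 - (1 - θ) * ρ2 := by
    have : 0 ≤ θ * ρ2 := by positivity
    linarith
  have hD20 : 0 < D2 := by
    rw [hD2]
    have : 0 < 1 - (1 - θ) * ρ2 := by linarith
    positivity
  have hD2b : D2 ≤ Real.exp (η / 8 * w) := by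
    have h1 : D2 ≤ (4 / ε2) ^ k0 := by
      rw [hD2, one_div, ← inv_pow]
      have h2 : (1 - (1 - θ) * ρ2)⁻¹ ≤ 4 / ε2 := by
        rw [← inv_div]
        exact inv_anti₀ (by positivity) hq
      have h3 : 0 ≤ (1 - (1 - θ) * ρ2)⁻¹ := by
        rw [inv_nonneg]; linarith
      gcongr
    refine h1.trans ?_
    have e : (4 / ε2) ^ k0 = Real.exp (k0 * lg) := by
      rw [Real.exp_nat_mul, hlg, Real.exp_log (by positivity)]
    rw [e]
    refine Real.exp_le_exp.2 ?_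
    calc (k0 : ℝ) * lg ≤ ((1 + 1 / 2) * (θ0 * (ρ1 * n))) * lg := by
          rw [← hb']; gcongr
      _ ≤ ((1 + 1 / 2) * (θ0 * (2 * (C0 * w)))) * lg := by gcongr
      _ = (θ0 * (24 * C0 * lg)) * (w / 8) := by ring
      _ ≤ η * (w / 8) := by gcongr
      _ = η / 8 * w := by ring
  have hDD2 : D2 / (D0 / (2 * D1)) ≤ 2 / (j : ℝ) ^ 22 := by
    rw [div_div_eq_mul_div, div_le_div_iff₀ hD00 (by positivity)]
    calc D2 * (2 * D1) * (j : ℝ) ^ 22 ≤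
        Real.exp (η / 8 * w) * (2 * Real.exp (ρ * n + η / 4 * w)) * (j : ℝ) ^ 22 :=
          mul_le_mul_of_nonneg_right (mul_le_mul hD2b (by linarith) (by positivity)
            (Real.exp_pos _).le) (by positivity)
      _ = 2 * ((j : ℝ) ^ 22 * (Real.exp (η / 8 * w) * Real.exp (ρ * n + η / 4 * w))) := by ring
      _ = 2 * ((j : ℝ) ^ 22 * Real.exp (η / 8 * w + (ρ * n + η / 4 * w))) := by
          rw [← Real.exp_add]
      _ ≤ 2 * ((j : ℝ) ^ 22 * Real.exp (ρ * n + η * w)) := by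
          have h5 : 0 ≤ η * w := by positivity
          have h6 : Real.exp (η / 8 * w + (ρ * n + η / 4 * w)) ≤ Real.exp (ρ * n + η * w) :=
            Real.exp_le_exp.2 (by linarith)
          gcongr
      _ ≤ 2 * D0 := by gcongr
  have hθD2 : θ * D2 ≤ Real.exp (-((j : ℝ) / 64)) := by
    rw [hθ]
    calc Real.exp (-((j : ℝ) / 32)) * D2 ≤
        Real.exp (-((j : ℝ) / 32)) * Real.exp (η / 8 * w) := by gcongr
      _ = Real.exp (-((j : ℝ) / 32) + η / 8 * w) := by rw [← Real.exp_add]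
      _ ≤ Real.exp (-((j : ℝ) / 64)) := by
          refine Real.exp_le_exp.2 ?_
          have h1 : η * w ≤ η * (C0 * j) := by gcongr
          have h2 : η * (C0 * j) ≤ 1 / 8 * j := by
            rw [← mul_assoc]; gcongr
          linarith
  obtain ⟨hN2, hE2⟩ := he2 k0 (D2 / (D0 / (2 * D1))) (θ * D2) Z1 (Nat.cast_nonneg _)
    ((show (k0 : ℝ) ≤ n by exact_mod_cast hk0n).trans hnj) hDD2 hZ1e hθD2
  have hUZ1 : U ≤ Z1 := hUW.trans hWZ1
  have hst2 := stage2 hA y bb (hyW.trans hWZ1) hZ1Z (by omega) U k0 (j + 3) hUZ1 (hk0n.trans hnU) θ hθp hθ1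
    (by rw [hθ]; exact hN2) (Blk j k) hBs (D0 / (2 * D1)) D2 (by positivity)
    (by rw [← hρ2]; exact hD2)
  rw [hθ] at hst2
  rw [hθ] at hE2
  have hst2' := hst2.trans (ENNReal.ofReal_le_ofReal hE2)
  -- combination
  have hfin : D0 * Real.exp (-(ρ * n) - η * w) ≤ D0 / (2 * D1) / (2 * D2) := by
    rw [div_div, le_div_iff₀ (by positivity)]
    have h4 := four_le_exp hη hw8
    calc D0 * Real.exp (-(ρ * n) - η * w) * (2 * D1 * (2 * D2)) ≤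
        D0 * Real.exp (-(ρ * n) - η * w) *
          (2 * Real.exp (ρ * n + η / 4 * w) * (2 * Real.exp (η / 8 * w))) := by gcongr
      _ = D0 * (4 * (Real.exp (-(ρ * n) - η * w) *
          Real.exp (ρ * n + η / 4 * w) * Real.exp (η / 8 * w))) := by ring
      _ = D0 * (4 * Real.exp (-(5 / 8 * (η * w)))) := by
          rw [← Real.exp_add, ← Real.exp_add]
          congr 3
          ring
      _ ≤ D0 * 1 := by
          gcongr
          rw [Real.exp_neg, ← div_eq_mul_inv, div_le_one (Real.exp_pos _)]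
          exact h4
      _ = D0 := mul_one _
  have hsub : {ω | Fam (Blk j k) (mix y bb (fun p => A p ω)) W U n D0 ∧
      ¬ Fam (Blk j k) (mix y bb (fun p => A p ω)) Z U 0 (D0 * Real.exp (-(ρ * n) - η * w))} ⊆
      {ω | Fam (Blk j k) (mix y bb (fun p => A p ω)) W U n D0 ∧
        ¬ Fam (Blk j k) (mix y bb (fun p => A p ω)) Z1 U k0 (D0 / (2 * D1))} ∪
      {ω | Fam (Blk j k) (mix y bb (fun p => A p ω)) Z1 U k0 (D0 / (2 * D1)) ∧
        ¬ Fam (Blk j k) (mix y bb (fun p => A p ω)) Z U 0 (D0 / (2 * D1) / (2 * D2))} := by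
    rintro ω ⟨h1, h2⟩
    by_cases h3 : Fam (Blk j k) (mix y bb (fun p => A p ω)) Z1 U k0 (D0 / (2 * D1))
    · exact Or.inr ⟨h3, fun h4 => h2 (h4.mono hfin)⟩
    · exact Or.inl ⟨h1, h3⟩
  refine (measure_mono hsub).trans ((measure_union_le _ _).trans ?_)
  calc _ ≤ ENNReal.ofReal (1 / (j : ℝ) ^ 20) + ENNReal.ofReal (1 / (j : ℝ) ^ 20) :=
        add_le_add hst1' hst2'
    _ = ENNReal.ofReal (2 / (j : ℝ) ^ 20) := by
        rw [← ENNReal.ofReal_add (by positivity) (by positivity)]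
        congr 1; ring

end Pool.Agent.H532.LG
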