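import Mathlib
import Pool.Agent.H532.LG.KillAll
import Pool.Agent.H532.RM.AP2
import Pool.Agent.H532.RM.Crt

/-!
Families of windows with few elements: the pattern modulo small primes is prescribed, and on
average the primes up to `W` behave as expected.
-/

namespace Pool.Agent.H532.LG

open Finset MeasureTheory Function ProbabilityTheory Filter Pool.Agent.H532.RM
open scoped ENNReal Topology

lemma prime_dvd_primorial {p v : ℕ} (hp : p.Prime) : p ∣ primorial v ↔ p ≤ v := by
  constructor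
  · intro h
    have h1 : primorial v = ∏ q ∈ primesLe v, q := rfl
    rw [h1, Prime.dvd_finset_prod_iff hp.prime] at h
    obtain ⟨q, hq, hpq⟩ := h
    have h2 := mem_primesLe.1 hq
    rw [(Nat.prime_dvd_prime_iff_eq hp h2.2).1 hpq]
    exact h2.1
  · intro h
    have h1 : primorial v = ∏ q ∈ primesLe v, q := rfl
    rw [h1]
    exact dvd_prod_of_mem _ (mem_primesLe.2 ⟨h, hp⟩)

/-- the shifted windows -/
lemma T1_shift_le (a : ℕ → ℕ) (v W x0 U t : ℕ) (hvW : v ≤ W) :
    T1 a W (x0 + primorial v * t) U ≤ ((TT {0} a (primesLe v) x0 U).filter (fun n =>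
      ∀ p ∈ bigP v W, (n + primorial v * t) % p ≠ a p % p)).card := by
  unfold T1
  refine card_le_card_of_injOn (fun n => n - primorial v * t) ?_ ?_
  · intro n hn
    obtain ⟨⟨h1, h2⟩, h3⟩ := mem_T1.1 (mem_coe.1 hn)
    have e : n - primorial v * t + primorial v * t = n := by omega
    refine mem_coe.2 (mem_filter.2 ⟨mem_T1.2 ⟨⟨?_, ?_⟩, ?_⟩, ?_⟩)
    · beta_reduce
      omega
    · beta_reduce
      omega
    · intro p hp h4
      refine h3 p (primesLe_mono hvW hp) ?_
      rw [← h4]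
      have hpd : primorial v * t ≡ 0 [MOD p] := by
        rw [Nat.modEq_zero_iff_dvd]
        exact Dvd.dvd.mul_right ((prime_dvd_primorial (mem_primesLe.1 hp).2).2
          (mem_primesLe.1 hp).1) t
      have h5 : n - primorial v * t + primorial v * t ≡ n - primorial v * t + 0 [MOD p] :=
        hpd.add_left _
      rw [e, add_zero] at h5
      exact h5
    · intro p hp
      show (n - primorial v * t + primorial v * t) % p ≠ a p % p
      rw [e]
      exact h3 p (mem_primesLe.2 (mem_bigP.1 hp).1)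
  · intro n hn n' hn' h
    have h1 := (mem_T1.1 (mem_coe.1 hn)).1
    have h2 := (mem_T1.1 (mem_coe.1 hn')).1
    have h3 : n - primorial v * t = n' - primorial v * t := h
    omega

lemma VDQ_bigP {v W : ℕ} (h : v ≤ W) : VDQ {0} (bigP v W) = V W / V v := by
  rw [VDQ_zero']
  unfold bigP
  rw [V_split h, mul_div_cancel_left₀ _ (V_pos v).ne']

theorem fam_gen (δ : ℝ) (hδ : 0 < δ) (hδ1 : δ ≤ 1) : ∃ (e : ℝ) (T0 : ℕ), 0 < e ∧ ∀ T : ℕ,
    T0 ≤ T → ∀ (a : ℕ → ℕ) (v W x0 U : ℕ), v ≤ W → (W : ℝ) ≤ (T : ℝ) ^ e →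
    ∃ G ⊆ Ioc 0 T, δ / 3 * T ≤ (G.card : ℝ) ∧ ∀ t ∈ G,
      (T1 a W (x0 + primorial v * t) U : ℝ) ≤ (1 + δ) * (T1 a v x0 U * (V W / V v)) := by
  classical
  obtain ⟨C, hC1, hfund⟩ := fund 1
  obtain ⟨b0, hb0⟩ := exists_pow_lt_of_lt_one (show (0 : ℝ) < δ / 3 by positivity)
    (show (1 / 2 : ℝ) < 1 by norm_num)
  obtain ⟨b, hb⟩ : ∃ b, b = max C b0 := ⟨_, rfl⟩
  have hbC : C ≤ b := by rw [hb]; exact le_max_left _ _
  have hbb : (1 / 2 : ℝ) ^ b ≤ δ / 3 := by
    refine le_trans ?_ hb0.le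
    exact pow_le_pow_of_le_one (by norm_num) (by norm_num) (by rw [hb]; exact le_max_right _ _)
  obtain ⟨U0, hU0⟩ := hfund b hbC
  have hb1 : 1 ≤ b := hC1.trans hbC
  have hbr : (1 : ℝ) ≤ b := by exact_mod_cast hb1
  have hCr : (1 : ℝ) ≤ C := by exact_mod_cast hC1
  refine ⟨1 / ((C : ℝ) * b), max U0 1, by positivity, ?_⟩
  intro T hT a v W x0 U hvW hW
  have hTU0 : U0 ≤ T := (le_max_left _ _).trans hT
  have hT1 : 1 ≤ T := (le_max_right _ _).trans hT
  have hTr : (0 : ℝ) < T := by exact_mod_cast hT1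
  set S0 := TT {0} a (primesLe v) x0 U with hS0
  set Q := bigP v W with hQ
  have hVW := V_pos W
  have hVv := V_pos v
  set r : ℝ := V W / V v with hr
  have hr0 : 0 < r := by positivity
  -- the sum over `t`
  have hsum : ∑ t ∈ Ioc 0 T, (T1 a W (x0 + primorial v * t) U : ℝ) ≤
      S0.card * ((1 + δ / 3) * (T * r)) := by
    have h1 : ∑ t ∈ Ioc 0 T, (T1 a W (x0 + primorial v * t) U : ℝ) ≤
        ∑ t ∈ Ioc 0 T, ∑ n ∈ S0, if (∀ p ∈ Q, (n + primorial v * t) % p ≠ a p % p)
          then (1 : ℝ) else 0 := by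
      refine sum_le_sum fun t _ => ?_
      have h2 := T1_shift_le a v W x0 U t hvW
      rw [← hS0, ← hQ, card_filter] at h2
      exact_mod_cast h2
    refine h1.trans ?_
    rw [sum_comm]
    have h2 : ∀ n ∈ S0, (∑ t ∈ Ioc 0 T, if (∀ p ∈ Q, (n + primorial v * t) % p ≠ a p % p)
        then (1 : ℝ) else 0) ≤ (1 + δ / 3) * (T * r) := by
      intro n _
      obtain ⟨c, hc⟩ := exists_class a (primorial v) n
      have h3 : (∑ t ∈ Ioc 0 T, if (∀ p ∈ Q, (n + primorial v * t) % p ≠ a p % p)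
          then (1 : ℝ) else 0) = ((TT {0} c Q 0 T).card : ℝ) := by
        have h4 : TT {0} c Q 0 T = (Ioc 0 T).filter (fun t =>
            ∀ p ∈ Q, (n + primorial v * t) % p ≠ a p % p) := by
          ext t
          rw [mem_T1, mem_filter, mem_Ioc, zero_add]
          refine and_congr Iff.rfl (forall₂_congr fun p hp => ?_)
          obtain ⟨⟨_, hpp⟩, hvp⟩ := mem_bigP.1 hp
          have hnd : ¬ p ∣ primorial v := by
            rw [prime_dvd_primorial hpp]; omega
          have h5 : (n + primorial v * c p) % p = a p % p := hc p hpp hnd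
          rw [← h5, Ne, Ne, class_iff hpp hnd]
        rw [h4, card_filter]
        push_cast
        rfl
      rw [h3]
      have h4 := hU0 T hTU0 {0} (by simp) c Q (fun p hp => by
        obtain ⟨⟨h5, hpp⟩, _⟩ := mem_bigP.1 hp
        refine ⟨hpp, le_trans (by exact_mod_cast h5) hW, ?_⟩
        have : nuD {0} p ≤ 1 := by
          have := nuD_le {0} p
          simpa using this
        exact lt_of_le_of_lt this hpp.one_lt) 0
      rw [VDQ_bigP hvW] at h4
      have h5 := (abs_le.1 h4).2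
      have h6 : (1 / 2 : ℝ) ^ b * (T * (V W / V v)) ≤ δ / 3 * (T * (V W / V v)) := by gcongr
      rw [hr]
      linarith
    calc ∑ n ∈ S0, (∑ t ∈ Ioc 0 T, if (∀ p ∈ Q, (n + primorial v * t) % p ≠ a p % p)
        then (1 : ℝ) else 0) ≤ ∑ n ∈ S0, (1 + δ / 3) * (T * r) := sum_le_sum h2
      _ = S0.card * ((1 + δ / 3) * (T * r)) := by rw [sum_const, nsmul_eq_mul]
  have hT1S : (T1 a v x0 U : ℝ) = S0.card := rfl
  rw [hT1S]
  set xx : ℝ := S0.card * r with hxx
  have hxx0 : 0 ≤ xx := by positivity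
  set G := (Ioc 0 T).filter (fun t => (T1 a W (x0 + primorial v * t) U : ℝ) ≤ (1 + δ) * xx)
    with hG
  set Bd := (Ioc 0 T).filter (fun t => ¬ (T1 a W (x0 + primorial v * t) U : ℝ) ≤ (1 + δ) * xx)
    with hBd
  have hGB : (G.card : ℝ) + Bd.card = T := by
    have h1 := Finset.card_filter_add_card_filter_not (s := Ioc 0 T)
      (fun t => (T1 a W (x0 + primorial v * t) U : ℝ) ≤ (1 + δ) * xx)
    rw [Nat.card_Ioc, Nat.sub_zero] at h1
    rw [hG, hBd]
    exact_mod_cast h1
  have hBd1 : (Bd.card : ℝ) * ((1 + δ) * xx) ≤ xx * ((1 + δ / 3) * T) := by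
    calc (Bd.card : ℝ) * ((1 + δ) * xx) = ∑ t ∈ Bd, (1 + δ) * xx := by
          rw [sum_const, nsmul_eq_mul]
      _ ≤ ∑ t ∈ Bd, (T1 a W (x0 + primorial v * t) U : ℝ) := by
          refine sum_le_sum fun t ht => ?_
          exact (not_le.1 (mem_filter.1 ht).2).le
      _ ≤ ∑ t ∈ Ioc 0 T, (T1 a W (x0 + primorial v * t) U : ℝ) :=
          sum_le_sum_of_subset_of_nonneg (filter_subset _ _) fun _ _ _ => Nat.cast_nonneg _
      _ ≤ S0.card * ((1 + δ / 3) * (T * r)) := hsum
      _ = xx * ((1 + δ / 3) * T) := by rw [hxx]; ring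
  refine ⟨G, filter_subset _ _, ?_, fun t ht => (mem_filter.1 ht).2⟩
  rcases hxx0.eq_or_lt with h0 | h0
  · -- nothing to do
    have h1 : Bd = ∅ := by
      rw [Finset.eq_empty_iff_forall_notMem]
      intro t ht
      have h2 := (mem_filter.1 ht).2
      rw [← h0, mul_zero] at h2
      have h3 : ∑ t ∈ Ioc 0 T, (T1 a W (x0 + primorial v * t) U : ℝ) ≤ 0 := by
        refine hsum.trans (le_of_eq ?_)
        have : (S0.card : ℝ) * r = 0 := h0.symm
        have h4 : (S0.card : ℝ) = 0 := by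
          rcases mul_eq_zero.1 this with h | h
          · exact h
          · exact absurd h hr0.ne'
        rw [h4, zero_mul]
      have h4 := single_le_sum (f := fun t => (T1 a W (x0 + primorial v * t) U : ℝ))
        (fun _ _ => Nat.cast_nonneg _) (mem_filter.1 ht).1
      exact h2 (h4.trans h3)
    rw [h1, card_empty, Nat.cast_zero, add_zero] at hGB
    rw [hGB]
    nlinarith
  · have h1 : (Bd.card : ℝ) * (1 + δ) ≤ (1 + δ / 3) * T := by
      have h2 : ((Bd.card : ℝ) * (1 + δ)) * xx ≤ ((1 + δ / 3) * T) * xx := by linarith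
      exact le_of_mul_le_mul_right h2 h0
    have h3 : (Bd.card : ℝ) = T - G.card := by linarith
    rw [h3] at h1
    -- (T - G)(1+δ) ≤ (1+δ/3) T
    have h4 : (2 * δ / 3) * T ≤ G.card * (1 + δ) := by linarith
    have h5 : (G.card : ℝ) * (1 + δ) ≤ G.card * 2 := by gcongr; linarith
    linarith

/-- separated subfamilies -/
lemma sep_sub (G : Finset ℕ) (U x0 P : ℕ) (hP : 0 < P) : ∃ G' ⊆ G,
    (G.card : ℝ) ≤ (U + 1) * G'.card ∧ Sep U (G'.image (fun t => x0 + P * t)) ∧
    (G'.image (fun t => x0 + P * t)).card = G'.card := by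
  classical
  obtain ⟨r, hr, hmax⟩ := exists_max_image (range (U + 1))
    (fun r => (G.filter (fun t => t % (U + 1) = r)).card) ⟨0, by simp⟩
  refine ⟨G.filter (fun t => t % (U + 1) = r), filter_subset _ _, ?_, ?_, ?_⟩
  · have h1 : G.card = ∑ r ∈ range (U + 1), (G.filter (fun t => t % (U + 1) = r)).card :=
      card_eq_sum_card_fiberwise fun t _ => mem_coe.2 (mem_range.2 (Nat.mod_lt _ (by omega)))
    have h2 : G.card ≤ (U + 1) * (G.filter (fun t => t % (U + 1) = r)).card := by
      rw [h1]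
      have := sum_le_card_nsmul (range (U + 1))
        (fun r => (G.filter (fun t => t % (U + 1) = r)).card) _ hmax
      rwa [card_range, smul_eq_mul] at this
    exact_mod_cast h2
  · intro m hm m' hm' hne
    obtain ⟨t, ht, rfl⟩ := mem_image.1 hm
    obtain ⟨t', ht', rfl⟩ := mem_image.1 hm'
    have h1 := (mem_filter.1 ht).2
    have h2 := (mem_filter.1 ht').2
    have h3 : t % (U + 1) = t' % (U + 1) := by rw [h1, h2]
    rcases Nat.lt_trichotomy t t' with h | h | h
    · left
      have h4 : (U + 1) ∣ t' - t := (Nat.modEq_iff_dvd' h.le).1 h3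
      have h5 := Nat.le_of_dvd (by omega) h4
      have h6 : t + (U + 1) ≤ t' := by omega
      have h7 : P * (t + (U + 1)) ≤ P * t' := Nat.mul_le_mul_left _ h6
      have h8 : 1 * (U + 1) ≤ P * (U + 1) := Nat.mul_le_mul_right _ hP
      rw [mul_add] at h7
      omega
    · exact absurd (by rw [h]) hne
    · right
      have h4 : (U + 1) ∣ t - t' := (Nat.modEq_iff_dvd' h.le).1 h3.symm
      have h5 := Nat.le_of_dvd (by omega) h4
      have h6 : t' + (U + 1) ≤ t := by omega
      have h7 : P * (t' + (U + 1)) ≤ P * t := Nat.mul_le_mul_left _ h6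
      have h8 : 1 * (U + 1) ≤ P * (U + 1) := Nat.mul_le_mul_right _ hP
      rw [mul_add] at h7
      omega
  · refine card_image_of_injective _ fun t t' h => ?_
    have h1 : P * t = P * t' := by
      have : x0 + P * t = x0 + P * t' := h
      omega
    exact Nat.eq_of_mul_eq_mul_left hP h1

end Pool.Agent.H532.LG
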