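import Mathlib
import Pool.Agent.H532.LG.Family

/-!
Families of windows with few elements in the blocks.
-/

namespace Pool.Agent.H532.LG

open Finset MeasureTheory Function ProbabilityTheory Filter Pool.Agent.H532.RM
open scoped ENNReal Topology

lemma ev_const_exp (η K : ℝ) (hη : 0 < η) : ∀ᶠ j : ℕ in atTop,
    K * ((j : ℝ) ^ 3 + 1) ≤ Real.exp (η * Real.log j ^ 2) := by
  filter_upwards [ev_log_exp η hη 5,
    (tendsto_natCast_atTop_atTop (R := ℝ)).eventually_ge_atTop (2 * |K| + 1)] with j h1 h2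
  have hK := abs_nonneg K
  have hj1 : (1 : ℝ) ≤ j := by linarith
  have hj0 : (0 : ℝ) < j := by linarith
  rw [Real.exp_neg, one_div] at h1
  have h3 : (j : ℝ) ^ 5 ≤ Real.exp (η * Real.log j ^ 2) :=
    (inv_le_inv₀ (Real.exp_pos _) (by positivity)).1 h1
  refine le_trans ?_ h3
  have h4 : (1 : ℝ) ≤ (j : ℝ) ^ 3 := one_le_pow₀ hj1
  calc K * ((j : ℝ) ^ 3 + 1) ≤ |K| * ((j : ℝ) ^ 3 + (j : ℝ) ^ 3) := by
        have := le_abs_self K
        gcongr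
    _ = (2 * |K|) * (j : ℝ) ^ 3 := by ring
    _ ≤ j * (j : ℝ) ^ 3 := by gcongr; linarith
    _ = (j : ℝ) ^ 4 := by ring
    _ ≤ (j : ℝ) ^ 5 := pow_le_pow_right₀ hj1 (by norm_num)

theorem fam_block (δ η : ℝ) (hδ : 0 < δ) (hδ1 : δ ≤ 1) (hη : 0 < η) (W : ℕ → ℕ)
    (hW : ∀ c : ℝ, 0 < c → ∀ᶠ j : ℕ in atTop, (W j : ℝ) ≤ Real.exp (c * j)) :
    ∀ᶠ j : ℕ in atTop, ∀ (a : ℕ → ℕ) (k U v x0 n : ℕ), U ≤ j ^ 3 →
      Real.log j ^ 2 ≤ (U : ℝ) / j → v ≤ W j →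
      (4 : ℝ) ^ v ≤ Real.exp (η / 4 * ((U : ℝ) / j)) → 4 ^ v * 4 ^ v ≤ 2 ^ j →
      k * 2 ^ (j - 1) ≤ x0 → x0 < k * 2 ^ (j - 1) + 4 ^ v →
      (1 + δ) * (T1 a v x0 U * (V (W j) / V v)) ≤ n →
      ∃ i ≤ j, 2 ^ j * Real.exp (-(η * ((U : ℝ) / j))) ≤ 2 ^ i ∧
        Fam (Blk j k) a (W j) U n (2 ^ i) := by
  classical
  obtain ⟨e, T0, he, hfam⟩ := fam_gen δ hδ hδ1
  obtain ⟨N0, hN0⟩ : ∃ N0 : ℕ, (T0 : ℝ) ≤ 2 ^ N0 := by
    obtain ⟨N0, hN0⟩ := pow_unbounded_of_one_lt (T0 : ℝ) (show (1 : ℝ) < 2 by norm_num)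
    exact ⟨N0, hN0.le⟩
  have hlog2 : (0 : ℝ) < Real.log 2 := Real.log_pos (by norm_num)
  filter_upwards [hW (e * Real.log 2 / 8) (by positivity), ev_const_exp (3 * η / 4) (96 / δ)
    (by positivity), eventually_ge_atTop (4 * N0 + 32)] with j hWj hexp hj
  intro a k U v x0 n hU hU2 hvW h4v h4vj hx0 hx0' hn
  have hj32 : (32 : ℝ) ≤ j := by exact_mod_cast (by omega : 32 ≤ j)
  have hj0 : (0 : ℝ) < j := by linarith
  set P := primorial v with hP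
  have hPpos : 0 < P := primorial_pos _
  have hP4 : P ≤ 4 ^ v := primorial_le_four_pow _
  have hPr : (0 : ℝ) < P := by exact_mod_cast hPpos
  have hP4r : (P : ℝ) ≤ 4 ^ v := by exact_mod_cast hP4
  have h4vr : (4 : ℝ) ^ v * 4 ^ v ≤ 2 ^ j := by exact_mod_cast h4vj
  have h2j : (2 : ℝ) ^ j = 2 * 2 ^ (j - 1) := by
    rw [← pow_succ']; congr 1; omega
  have h4v0 : (1 : ℝ) ≤ 4 ^ v := one_le_pow₀ (by norm_num)
  -- `4 ^ v ≤ 2 ^ (j - 1) / 4`, roughly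
  have h4v8 : 4 ^ v * 8 ≤ 2 ^ j := by
    by_contra hcon
    rw [not_le] at hcon
    have h1 : 4 ^ v * 4 ^ v < 4 ^ v * 8 := lt_of_le_of_lt h4vj hcon
    have h2 : 4 ^ v < 8 := lt_of_mul_lt_mul_left h1 (Nat.zero_le _)
    have h3 : 2 ^ j < 64 := by
      calc 2 ^ j < 4 ^ v * 8 := hcon
        _ ≤ 8 * 8 := Nat.mul_le_mul_right _ h2.le
        _ = 64 := by norm_num
    have h4 : 2 ^ 6 ≤ 2 ^ j := Nat.pow_le_pow_right (by norm_num) (by omega)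
    omega
  have h4v8r : (4 : ℝ) ^ v * 8 ≤ 2 ^ j := by exact_mod_cast h4v8
  have h2jn : 2 ^ j = 2 * 2 ^ (j - 1) := by
    rw [← pow_succ']; congr 1; omega
  set T : ℕ := (2 ^ (j - 1) - 4 ^ v) / P with hT
  have hPT : P * T ≤ 2 ^ (j - 1) - 4 ^ v := Nat.mul_div_le _ _
  have hTlow : (2 : ℝ) ^ (j - 1) / (2 * 4 ^ v) ≤ T := by
    have h4 := Nat.lt_div_mul_add (a := 2 ^ (j - 1) - 4 ^ v) hPpos
    rw [← hT] at h4
    have h5 : 2 ^ (j - 1) < T * P + P + 4 ^ v := by omega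
    have h6 : ((2 : ℝ) ^ (j - 1)) < T * P + P + 4 ^ v := by exact_mod_cast h5
    rw [div_le_iff₀ (by positivity)]
    have h7 : (T : ℝ) * P ≤ T * 4 ^ v := by gcongr
    linarith
  have hThalf : (2 : ℝ) ^ (j - 1) / (2 * 4 ^ v) ≥ 4 ^ v / 4 := by
    rw [ge_iff_le, le_div_iff₀ (by positivity)]
    calc (4 : ℝ) ^ v / 4 * (2 * 4 ^ v) = 4 ^ v * 4 ^ v / 2 := by ring
      _ ≤ 2 ^ j / 2 := by gcongr
      _ = 2 ^ (j - 1) := by rw [h2j]; ring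
  -- `T ≥ 2 ^ (j / 4)`
  have hTpow : (2 : ℝ) ^ (j / 4) ≤ T := by
    refine le_trans ?_ hTlow
    rw [le_div_iff₀ (by positivity)]
    -- 4^v ≤ 2^(j/2+1)
    have h1 : (4 : ℝ) ^ v ≤ 2 ^ (j / 2 + 1) := by
      by_contra hcon
      rw [not_le] at hcon
      have h2 : (2 : ℝ) ^ (j / 2 + 1) * 2 ^ (j / 2 + 1) < 4 ^ v * 4 ^ v := by gcongr
      rw [← pow_add] at h2
      have h3 : (2 : ℝ) ^ j ≤ 2 ^ (j / 2 + 1 + (j / 2 + 1)) :=
        pow_le_pow_right₀ (by norm_num) (by omega)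
      linarith
    calc (2 : ℝ) ^ (j / 4) * (2 * 4 ^ v) ≤ 2 ^ (j / 4) * (2 * 2 ^ (j / 2 + 1)) := by gcongr
      _ = 2 ^ (j / 4 + (1 + (j / 2 + 1))) := by ring
      _ ≤ 2 ^ (j - 1) := pow_le_pow_right₀ (by norm_num) (by omega)
  have hTT0 : T0 ≤ T := by
    have h1 : (T0 : ℝ) ≤ T := by
      refine hN0.trans (le_trans ?_ hTpow)
      exact pow_le_pow_right₀ (by norm_num) (by omega)
    exact_mod_cast h1
  have hTW : (W j : ℝ) ≤ (T : ℝ) ^ e := by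
    refine hWj.trans ?_
    have hT0 : (0 : ℝ) < 2 ^ (j / 4) := by positivity
    have h1 : Real.exp (e * Real.log 2 / 8 * j) ≤ ((2 : ℝ) ^ (j / 4)) ^ e := by
      rw [Real.rpow_def_of_pos hT0, Real.log_pow]
      refine Real.exp_le_exp.2 ?_
      have h2 : (j : ℝ) / 8 ≤ ((j / 4 : ℕ) : ℝ) := by
        have h3 : j ≤ 8 * (j / 4) := by omega
        have h4 : (j : ℝ) ≤ 8 * ((j / 4 : ℕ) : ℝ) := by exact_mod_cast h3
        linarith
      have h3 : (j : ℝ) / 8 * (Real.log 2 * e) ≤ ((j / 4 : ℕ) : ℝ) * (Real.log 2 * e) := by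
        gcongr
      linarith
    exact h1.trans (Real.rpow_le_rpow hT0.le hTpow he.le)
  obtain ⟨G, hG1, hG2, hG3⟩ := hfam T hTT0 a v (W j) x0 U hvW hTW
  obtain ⟨G', hG'1, hG'2, hG'3, hG'4⟩ := sep_sub G U x0 P hPpos
  set M := G'.image (fun t => x0 + P * t) with hM
  have hTpos : (0 : ℝ) < T := lt_of_lt_of_le (by positivity) hTpow
  have hMcard : δ / 3 * T ≤ (U + 1) * (M.card : ℝ) := by
    rw [hG'4]; exact hG2.trans hG'2
  have hMpos : 0 < M.card := by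
    by_contra hneg
    have h0 : M.card = 0 := by omega
    rw [h0] at hMcard
    have : 0 < δ / 3 * T := by positivity
    simp at hMcard
    linarith
  have hMB : M ⊆ Blk j k := by
    intro m hm
    obtain ⟨t, ht, rfl⟩ := mem_image.1 hm
    have h1 := mem_Ioc.1 (hG1 (hG'1 ht))
    have h2 : P * t ≤ P * T := Nat.mul_le_mul_left _ h1.2
    unfold Blk
    rw [mem_Ico, add_mul, one_mul]
    constructor
    · omega
    · have h3 : 4 ^ v ≤ 2 ^ (j - 1) := by omega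
      omega
  have hMle : M.card ≤ 2 ^ (j - 1) := by
    refine (card_le_card hMB).trans (le_of_eq ?_)
    unfold Blk
    rw [Nat.card_Ico, add_mul, one_mul]
    omega
  obtain ⟨i, hi⟩ : ∃ i, i = Nat.log 2 M.card := ⟨_, rfl⟩
  have hi1 : 2 ^ i ≤ M.card := by rw [hi]; exact Nat.pow_log_le_self 2 hMpos.ne'
  have hi2 : M.card < 2 ^ (i + 1) := by rw [hi]; exact Nat.lt_pow_succ_log_self (by norm_num) _
  have hij : i ≤ j := by
    have h1 : 2 ^ i ≤ 2 ^ (j - 1) := hi1.trans hMle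
    have h2 := (Nat.pow_le_pow_iff_right (by norm_num : 1 < 2)).1 h1
    omega
  refine ⟨i, hij, ?_, M, hMB, by exact_mod_cast hi1, hG'3, ?_⟩
  · -- the size
    have h1 : (M.card : ℝ) < 2 * 2 ^ i := by
      have : (M.card : ℝ) < 2 ^ (i + 1) := by exact_mod_cast hi2
      rw [pow_succ] at this; linarith
    have hUr : (U : ℝ) ≤ (j : ℝ) ^ 3 := by exact_mod_cast hU
    have h2 : δ / 3 * (2 ^ (j - 1) / (2 * 4 ^ v)) ≤ ((j : ℝ) ^ 3 + 1) * (2 * 2 ^ i) := by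
      calc δ / 3 * (2 ^ (j - 1) / (2 * 4 ^ v)) ≤ δ / 3 * T := by gcongr
        _ ≤ (U + 1) * (M.card : ℝ) := hMcard
        _ ≤ ((j : ℝ) ^ 3 + 1) * (2 * 2 ^ i) := by gcongr
    have h3 : (2 : ℝ) ^ j ≤ (24 / δ * ((j : ℝ) ^ 3 + 1)) * 4 ^ v * 2 ^ i := by
      have h4 : δ / 3 * (2 ^ (j - 1) / (2 * 4 ^ v)) = δ / (12 * 4 ^ v) * 2 ^ j := by
        rw [h2j]; field_simp; norm_num
      rw [h4, div_mul_eq_mul_div, div_le_iff₀ (by positivity)] at h2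
      have h5 : (24 / δ * ((j : ℝ) ^ 3 + 1)) * 4 ^ v * 2 ^ i =
          (((j : ℝ) ^ 3 + 1) * (2 * 2 ^ i) * (12 * 4 ^ v)) / δ := by
        field_simp; ring
      rw [h5, le_div_iff₀ hδ]
      linarith
    have hexp' : 24 / δ * ((j : ℝ) ^ 3 + 1) ≤ Real.exp (3 * η / 4 * ((U : ℝ) / j)) := by
      have h6 : 24 / δ * ((j : ℝ) ^ 3 + 1) ≤ 96 / δ * ((j : ℝ) ^ 3 + 1) := by
        gcongr; norm_num
      refine h6.trans (hexp.trans (Real.exp_le_exp.2 ?_))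
      gcongr
    have h7 : (2 : ℝ) ^ j ≤ Real.exp (η * ((U : ℝ) / j)) * 2 ^ i := by
      calc (2 : ℝ) ^ j ≤ (24 / δ * ((j : ℝ) ^ 3 + 1)) * 4 ^ v * 2 ^ i := h3
        _ ≤ Real.exp (3 * η / 4 * ((U : ℝ) / j)) * Real.exp (η / 4 * ((U : ℝ) / j)) * 2 ^ i := by
            gcongr
        _ = Real.exp (η * ((U : ℝ) / j)) * 2 ^ i := by
            rw [← Real.exp_add]; congr 2; ring
    calc 2 ^ j * Real.exp (-(η * ((U : ℝ) / j))) ≤
        (Real.exp (η * ((U : ℝ) / j)) * 2 ^ i) * Real.exp (-(η * ((U : ℝ) / j))) := by gcongr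
      _ = 2 ^ i * (Real.exp (η * ((U : ℝ) / j)) * Real.exp (-(η * ((U : ℝ) / j)))) := by ring
      _ = 2 ^ i := by rw [← Real.exp_add, add_neg_cancel, Real.exp_zero, mul_one]
  · intro m hm
    obtain ⟨t, ht, rfl⟩ := mem_image.1 hm
    have h1 := (hG3 t (hG'1 ht)).trans hn
    exact_mod_cast h1

end Pool.Agent.H532.LG
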