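import Mathlib
import Pool.Agent.H532.LG.KillAll
import Pool.Agent.H532.RM.CSA

/-!
The levels for the two stages.
-/

namespace Pool.Agent.H532.LG

open Finset MeasureTheory Function ProbabilityTheory Filter Pool.Agent.H532.RM
open scoped ENNReal Topology

lemma log_floor_rpow (s : ℝ) (hs : 0 < s) : Tendsto (fun x : ℝ =>
    Real.log ⌊x ^ s⌋₊ / Real.log x) atTop (𝓝 s) := by
  have h1 : Tendsto (fun x : ℝ => x ^ s) atTop atTop := tendsto_rpow_atTop hs
  have hlx : Tendsto Real.log atTop atTop := Real.tendsto_log_atTop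
  have hup : ∀ᶠ x : ℝ in atTop, Real.log ⌊x ^ s⌋₊ / Real.log x ≤ s := by
    filter_upwards [h1.eventually_ge_atTop 1, eventually_gt_atTop 1] with x hx hx1
    have hl : 0 < Real.log x := Real.log_pos hx1
    rw [div_le_iff₀ hl, ← Real.log_rpow (by linarith)]
    refine Real.log_le_log ?_ (Nat.floor_le (by linarith))
    exact_mod_cast Nat.floor_pos.2 hx
  have hlow : ∀ᶠ x : ℝ in atTop, s - Real.log 2 / Real.log x ≤
      Real.log ⌊x ^ s⌋₊ / Real.log x := by
    filter_upwards [h1.eventually_ge_atTop 2, eventually_gt_atTop 1] with x hx hx1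
    have hl : 0 < Real.log x := Real.log_pos hx1
    rw [le_div_iff₀ hl, sub_mul, div_mul_cancel₀ _ hl.ne', ← Real.log_rpow (by linarith),
      ← Real.log_div (by linarith) (by norm_num)]
    refine Real.log_le_log (by linarith) ?_
    have := Nat.lt_floor_add_one (x ^ s)
    have h2 : (1 : ℝ) ≤ ⌊x ^ s⌋₊ := by
      exact_mod_cast Nat.floor_pos.2 (by linarith)
    linarith
  have h3 : Tendsto (fun x : ℝ => s - Real.log 2 / Real.log x) atTop (𝓝 s) := by
    have := (tendsto_const_nhds (x := Real.log 2)).div_atTop hlx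
    simpa using this.const_sub s
  exact tendsto_of_tendsto_of_tendsto_of_le_of_le' h3 tendsto_const_nhds hlow hup

lemma lev_ev (ε2 κρ : ℝ) (h1 : 0 < ε2) (h2 : ε2 ≤ 1 / 4) (h3 : 0 < κρ) (y W Z : ℕ → ℕ)
    (hyW : ∀ᶠ j : ℕ in atTop, y j ≤ W j) (hjW : ∀ᶠ j : ℕ in atTop, Wj j ≤ W j)
    (hρ : Tendsto (fun j : ℕ => V (Z j) / V (W j)) atTop (𝓝 0))
    (hZ : Tendsto (fun j : ℕ => V (Z j) * (j * Real.log 2)) atTop (𝓝 1)) :
    ∃ Z1 : ℕ → ℕ, ∀ᶠ j : ℕ in atTop, Lev ε2 κρ j (y j) (W j) (Z1 j) (Z j) := by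
  obtain ⟨s, hs⟩ : ∃ s : ℝ, s = 1 - ε2 / 2 := ⟨_, rfl⟩
  have hs0 : 0 < s := by rw [hs]; linarith
  have hs1 : s < 1 := by rw [hs]; linarith
  obtain ⟨Z1, hZ1⟩ : ∃ Z1 : ℕ → ℕ, Z1 = fun j => ⌊((Z j : ℕ) : ℝ) ^ s⌋₊ := ⟨_, rfl⟩
  have hWZ : ∀ᶠ j : ℕ in atTop, W j ≤ Z j := by
    filter_upwards [hρ.eventually (gt_mem_nhds one_pos)] with j hj
    by_contra hcon
    have h4 := V_anti (not_le.1 hcon).le
    rw [div_lt_one (V_pos _)] at hj
    linarith
  have hWt : Tendsto W atTop atTop := tendsto_atTop_mono' atTop hjW Wj_tendsto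
  have hZt : Tendsto Z atTop atTop := tendsto_atTop_mono' atTop hWZ hWt
  have hZr : Tendsto (fun j => ((Z j : ℕ) : ℝ)) atTop atTop :=
    tendsto_natCast_atTop_atTop.comp hZt
  have hZ1t : Tendsto Z1 atTop atTop := by
    rw [hZ1]
    exact tendsto_nat_floor_atTop.comp ((tendsto_rpow_atTop hs0).comp hZr)
  obtain ⟨c0, hc0⟩ : ∃ c0, c0 = Real.exp (-Real.eulerMascheroniConstant) := ⟨_, rfl⟩
  have hc0p : 0 < c0 := by rw [hc0]; exact Real.exp_pos _
  have hc03 : 1 / 3 < c0 := by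
    have h4 := Real.eulerMascheroniConstant_lt_two_thirds
    have h5 := Real.add_one_le_exp (-Real.eulerMascheroniConstant)
    rw [hc0]; linarith
  have hV1 : Tendsto (fun j => V (Z j) * Real.log (Z j)) atTop (𝓝 c0) := by
    rw [hc0]; exact V_log.comp hZt
  have hV2 : Tendsto (fun j => V (Z1 j) * Real.log (Z1 j)) atTop (𝓝 c0) := by
    rw [hc0]; exact V_log.comp hZ1t
  have hlr : Tendsto (fun j => Real.log (Z1 j) / Real.log (Z j)) atTop (𝓝 s) := by
    rw [hZ1]
    exact (log_floor_rpow s hs0).comp hZr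
  have hratio : Tendsto (fun j => V (Z j) / V (Z1 j)) atTop (𝓝 s) := by
    have h4 := (hV1.div hV2 hc0p.ne').mul hlr
    rw [div_self hc0p.ne', one_mul] at h4
    refine h4.congr' ?_
    filter_upwards [hZt.eventually_ge_atTop 2, hZ1t.eventually_ge_atTop 2] with j h5 h6
    have h7 : 0 < Real.log (Z j) := Real.log_pos (by exact_mod_cast (by omega : 1 < Z j))
    have h8 : 0 < Real.log (Z1 j) := Real.log_pos (by exact_mod_cast (by omega : 1 < Z1 j))
    have h9 := V_pos (Z1 j)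
    simp only [Pi.div_apply]
    field_simp
  -- `V (Z1) / V W → 0`
  have hρ1 : Tendsto (fun j => V (Z1 j) / V (W j)) atTop (𝓝 0) := by
    have h4 := hρ.div hratio hs0.ne'
    rw [zero_div] at h4
    refine h4.congr fun j => ?_
    simp only [Pi.div_apply]
    have := V_pos (Z j)
    have := V_pos (Z1 j)
    have := V_pos (W j)
    field_simp
  have hWZ1 : ∀ᶠ j : ℕ in atTop, W j ≤ Z1 j := by
    filter_upwards [hρ1.eventually (gt_mem_nhds one_pos)] with j hj
    by_contra hcon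
    have h4 := V_anti (not_le.1 hcon).le
    rw [div_lt_one (V_pos _)] at hj
    linarith
  have hZ1Z : ∀ᶠ j : ℕ in atTop, Z1 j ≤ Z j := by
    filter_upwards [hZt.eventually_ge_atTop 1] with j hj
    rw [hZ1]
    have hj1 : (1 : ℝ) ≤ Z j := by exact_mod_cast hj
    refine Nat.floor_le_of_le ?_
    calc ((Z j : ℕ) : ℝ) ^ s ≤ ((Z j : ℕ) : ℝ) ^ (1 : ℝ) :=
          Real.rpow_le_rpow_of_exponent_le hj1 hs1.le
      _ = _ := Real.rpow_one _
  -- `Z1` is large
  have hlogj : Tendsto (fun j : ℕ => Real.log (Z1 j) / j) atTop (𝓝 (s * (c0 * Real.log 2))) := by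
    have h4 := hlr.mul ((hV1.div hZ one_ne_zero).mul_const (Real.log 2))
    rw [div_one] at h4
    refine h4.congr' ?_
    filter_upwards [hZt.eventually_ge_atTop 2, eventually_ge_atTop 1] with j h5 h6
    have h7 : 0 < Real.log (Z j) := Real.log_pos (by exact_mod_cast (by omega : 1 < Z j))
    have h9 := V_pos (Z j)
    have h10 : (0 : ℝ) < j := by exact_mod_cast h6
    have hl2 := Real.log_pos (show (1 : ℝ) < 2 by norm_num)
    simp only [Pi.div_apply]
    field_simp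
  have hbig : (1 : ℝ) / 8 < s * (c0 * Real.log 2) := by
    have h4 := Real.log_two_gt_d9
    have h5 : (7 : ℝ) / 8 ≤ s := by rw [hs]; linarith
    have h6 : (0.23 : ℝ) ≤ c0 * Real.log 2 := by nlinarith
    nlinarith
  have hZ1e : ∀ᶠ j : ℕ in atTop, Real.exp (j / 8) ≤ Z1 j := by
    filter_upwards [hlogj.eventually (lt_mem_nhds hbig), eventually_ge_atTop 1,
      hZ1t.eventually_ge_atTop 1] with j h4 h5 h6
    have h10 : (0 : ℝ) < j := by exact_mod_cast h5
    have h11 : (0 : ℝ) < Z1 j := by exact_mod_cast h6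
    rw [lt_div_iff₀ h10] at h4
    rw [← Real.exp_log h11]
    refine Real.exp_le_exp.2 ?_
    linarith
  refine ⟨Z1, ?_⟩
  filter_upwards [hyW, hjW, hWZ1, hZ1Z, hZ1e, hρ1.eventually (gt_mem_nhds h3),
    hratio.eventually (lt_mem_nhds (show 1 - ε2 < s by rw [hs]; linarith)),
    hratio.eventually (gt_mem_nhds (show s < 1 - ε2 / 4 by rw [hs]; linarith))] with
    j g1 g2 g3 g4 g5 g6 g7 g8
  exact ⟨g1, g2, g3, g4, g5, g6.le, g7.le, g8.le⟩

end Pool.Agent.H532.LG
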