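import Mathlib
import Pool.Agent.H532.LG.EmptyCount
import Pool.Agent.H532.LG.FamBlock
import Pool.Agent.H532.LG.LevEv

/-!
The number of empty windows: almost sure lower bound.
-/

namespace Pool.Agent.H532.LG

open Finset MeasureTheory Function ProbabilityTheory Filter Pool.Agent.H532.RM
open scoped ENNReal Topology

lemma smin_v (δ lam : ℝ) (hδ : 0 < δ) (hlam : 0 < lam) : ∀ᶠ w : ℕ in atTop, ∀ U ζ : ℕ,
    lam * (w : ℝ) ^ 2 ≤ U → w / 4 ≤ ζ → ζ ≤ w →
    (smin U (vj w) : ℝ) ≤ (rm U ζ + δ) * (U * V (vj w)) := by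
  obtain ⟨C, hC, ζ1, hloss⟩ := loss
  have hjt : Tendsto (fun j : ℕ => (j : ℝ)) atTop atTop := tendsto_natCast_atTop_atTop
  have evκ : ∀ᶠ j : ℕ in atTop, Real.log (V (vj j) / V (wj j)) ≤ δ / C := by
    have h1 : Tendsto (fun j : ℕ => Real.log (V (vj j) / V (wj j))) atTop (𝓝 0) := by
      have := (Real.continuousAt_log one_ne_zero).tendsto.comp V_vj_w
      rwa [Real.log_one] at this
    exact (h1.eventually (gt_mem_nhds (by positivity : 0 < δ / C))).mono fun j hj => hj.le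
  filter_upwards [evκ, vj_tendsto.eventually_ge_atTop ζ1, nlog_tendsto.eventually_ge_atTop 4,
    hjt.eventually_ge_atTop (1 / lam ^ 2 + 1 / lam), eventually_ge_atTop 16] with
    w h1 h2 h3 h4 h5
  intro U ζ hU hζ1 hζ2
  have hw16 : (16 : ℝ) ≤ w := by exact_mod_cast h5
  have hv4 : vj w ≤ w / 4 := by
    unfold vj
    exact Nat.div_le_div_left h3 (by norm_num)
  have hvζ : vj w ≤ ζ := by omega
  have hww : w ≤ wj w := by
    unfold wj
    calc w = w * 1 := (mul_one w).symm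
      _ ≤ _ := Nat.mul_le_mul_left _ (Nat.one_le_pow _ _ (by omega))
  have hl1 : 0 < 1 / lam ^ 2 := by positivity
  have hl2 : 0 < 1 / lam := by positivity
  have hlw : 1 ≤ lam * w := by
    have : 1 / lam ≤ w := by linarith
    rw [div_le_iff₀ hlam] at this; linarith
  have hlw2 : 1 ≤ lam ^ 2 * w := by
    have : 1 / lam ^ 2 ≤ w := by linarith
    rw [div_le_iff₀ (by positivity)] at this; linarith
  have hwU : (w : ℝ) ≤ U := by
    refine le_trans ?_ hU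
    calc (w : ℝ) = 1 * w := (one_mul _).symm
      _ ≤ (lam * w) * w := by gcongr
      _ = lam * (w : ℝ) ^ 2 := by ring
  have hζU : ζ ≤ U := hζ2.trans (by exact_mod_cast hwU)
  have hζr : (ζ : ℝ) ≤ w := by exact_mod_cast hζ2
  have hvr : (vj w : ℝ) ≤ w := by exact_mod_cast (by omega : vj w ≤ w)
  have hcond : (vj w : ℝ) * (ζ : ℝ) ^ 2 ≤ (U : ℝ) ^ 2 := by
    calc (vj w : ℝ) * (ζ : ℝ) ^ 2 ≤ w * (w : ℝ) ^ 2 := by gcongr
      _ = 1 * (w : ℝ) ^ 3 := by ring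
      _ ≤ (lam ^ 2 * w) * (w : ℝ) ^ 3 := by gcongr
      _ = (lam * (w : ℝ) ^ 2) ^ 2 := by ring
      _ ≤ (U : ℝ) ^ 2 := by gcongr
  obtain ⟨m0, hm0⟩ := exists_smin U ζ
  have g1 := hloss (vj w) h2 ζ U hvζ hζU hcond (fun _ => 0) m0
  rw [hm0] at g1
  have g2 : (smin U (vj w) : ℝ) ≤ T1 (fun _ => 0) (vj w) m0 U := by
    exact_mod_cast smin_le m0 U (vj w)
  have hVv := V_pos (vj w)
  have hVζ := V_pos ζ
  have hVw := V_pos (wj w)
  have hU0 : (0 : ℝ) < U := by linarith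
  have g3 : Real.log (V (vj w) / V ζ) ≤ δ / C := by
    refine le_trans (Real.log_le_log (by positivity) ?_) h1
    have : V (wj w) ≤ V ζ := V_anti (by omega)
    gcongr
  have g4 : (smin U ζ : ℝ) ≤ rm U ζ * (U * V (vj w)) := by
    have e : (smin U ζ : ℝ) = rm U ζ * (U * V ζ) := by unfold rm; field_simp
    rw [e]
    have h6 := rm_nonneg U ζ
    have h7 : V ζ ≤ V (vj w) := V_anti hvζ
    gcongr
  have g5 : C * (U * V (vj w)) * Real.log (V (vj w) / V ζ) ≤ δ * (U * V (vj w)) := by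
    calc C * (U * V (vj w)) * Real.log (V (vj w) / V ζ) ≤ C * (U * V (vj w)) * (δ / C) := by
          gcongr
      _ = δ * (U * V (vj w)) := by field_simp
  linarith

lemma vj_small (c : ℝ) (hc : 0 < c) : ∀ᶠ w : ℕ in atTop, (vj w : ℝ) ≤ c * w := by
  have hjt : Tendsto (fun j : ℕ => (j : ℝ)) atTop atTop := tendsto_natCast_atTop_atTop
  filter_upwards [(hjt.comp nlog_tendsto).eventually_ge_atTop (1 / c)] with w hw
  simp only [comp_apply] at hw
  have h1 : (vj w : ℝ) * Nat.log 2 w ≤ w := by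
    have : vj w * Nat.log 2 w ≤ w := by unfold vj; exact Nat.div_mul_le_self _ _
    exact_mod_cast this
  have h2 : (vj w : ℝ) * (1 / c) ≤ w := by
    refine le_trans ?_ h1
    gcongr
  have h3 : (vj w : ℝ) = c * (vj w * (1 / c)) := by field_simp
  rw [h3]
  gcongr

lemma Wj_exp (c : ℝ) (hc : 0 < c) : ∀ᶠ j : ℕ in atTop, ((Wj j : ℕ) : ℝ) ≤ Real.exp (c * j) := by
  filter_upwards [ev_poly_exp c hc 40] with j hj
  have hWr : ((Wj j : ℕ) : ℝ) = (j : ℝ) ^ 40 := by unfold Wj; push_cast; rfl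
  rw [Real.exp_neg, ← div_eq_mul_inv, div_le_one (Real.exp_pos _)] at hj
  rw [hWr]; exact hj

theorem many_empty (δ C0 : ℝ) (hδ : 0 < δ) (hδ1 : δ ≤ 1) (hC0 : 1 ≤ C0) {Ω : Type}
    [MeasurableSpace Ω] (μ : Measure Ω) [IsProbabilityMeasure μ] (A : ℕ → Ω → ℕ)
    (hA : RandomClasses μ A) (Z : ℕ → ℕ)
    (hZ : Tendsto (fun j : ℕ => V (Z j) * (j * Real.log 2)) atTop (𝓝 1)) :
    ∀ᵐ ω ∂μ, ∀ᶠ j : ℕ in atTop, ∀ k < 5, ∀ U : ℕ, UOK C0 j U → ∀ ζ : ℕ, 2 * U / j / 4 ≤ ζ →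
      ζ ≤ 2 * U / j → (rm U ζ + δ) * (U * V (Z j)) ≤ (1 - δ) * (j * Real.log 2) →
      ∃ M ⊆ Blk j k, 2 ^ j * Real.exp (-((rm U ζ + δ) * (U * V (Z j)))) ≤ (M.card : ℝ) ∧
        ∀ m ∈ M, T1 (fun p => A p ω) (Z j) m U = 0 := by
  classical
  obtain ⟨C, hC, ζ0, hrp⟩ := rp_bdd
  obtain ⟨δf, hδf⟩ : ∃ δf : ℝ, δf = min 1 (δ / (16 * (C + 1))) := ⟨_, rfl⟩
  have hδf0 : 0 < δf := by rw [hδf]; exact lt_min one_pos (by positivity)
  have hδf1 : δf ≤ 1 := by rw [hδf]; exact min_le_left _ _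
  have hδf2 : δf * (16 * (C + 1)) ≤ δ := by
    have h1 : δf ≤ δ / (16 * (C + 1)) := by rw [hδf]; exact min_le_right _ _
    rwa [le_div_iff₀ (by positivity)] at h1
  obtain ⟨C0', hC0'⟩ : ∃ C0' : ℝ, C0' = C0 + (2 * C + 3) := ⟨_, rfl⟩
  have hC0'1 : 1 ≤ C0' := by rw [hC0']; linarith
  obtain ⟨η, hη⟩ : ∃ η : ℝ, η = min (δ / 8) (1 / (8 * C0')) := ⟨_, rfl⟩
  have hη0 : 0 < η := by rw [hη]; exact lt_min (by positivity) (by positivity)
  have hηδ : η ≤ δ / 8 := by rw [hη]; exact min_le_left _ _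
  have hηC : η * C0' ≤ 1 / 8 := by
    have h1 : η ≤ 1 / (8 * C0') := by rw [hη]; exact min_le_right _ _
    rw [le_div_iff₀ (by positivity)] at h1
    linarith
  obtain ⟨ε2, κρ, hε2, hε21, hκρ, hkill⟩ := kill_all η C0' (δ / 4) hη0 hC0'1 hηC (by positivity)
  have hρ := rho_small hZ
  obtain ⟨Z1, hlev⟩ := lev_ev ε2 κρ hε2 hε21 hκρ (fun _ => 0) Wj Z
    (Eventually.of_forall fun _ => Nat.zero_le _) (Eventually.of_forall fun _ => le_rfl) hρ hZ
  have hvz : ∀ᶠ j : ℕ in atTop, 1 ≤ (j : ℝ) * V (Z j) ∧ (j : ℝ) * V (Z j) ≤ 2 := by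
    have hl2a := Real.log_two_gt_d9
    have hl2b := Real.log_two_lt_d9
    filter_upwards [hZ.eventually (lt_mem_nhds (show (0.9 : ℝ) < 1 by norm_num)),
      hZ.eventually (gt_mem_nhds (show (1 : ℝ) < 1.1 by norm_num))] with j h1 h2
    have h3 : 0 ≤ (j : ℝ) * V (Z j) := mul_nonneg (Nat.cast_nonneg _) (V_pos _).le
    constructor <;> nlinarith
  have hlog2 : (0 : ℝ) < Real.log 2 := Real.log_pos (by norm_num)
  have hlogt : Tendsto (fun j : ℕ => Real.log (j : ℝ) ^ 2) atTop atTop :=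
    (tendsto_pow_atTop (by norm_num)).comp
      (Real.tendsto_log_atTop.comp tendsto_natCast_atTop_atTop)
  filter_upwards [hkill μ A hA (fun _ => 0) (fun _ _ => 0) Wj Z1 Z hlev] with ω hω
  filter_upwards [hω, fam_block δf η hδf0 hδf1 hη0 Wj Wj_exp,
    ev_w _ (smin_v (δ / 16) (1 / (4 * C0)) (by positivity) (by positivity)),
    ev_w _ (vj_small (η / 16) (by positivity)), ev_w _ (vj_small (1 / (16 * C0)) (by positivity)),
    ev_w _ (eventually_ge_atTop (max 8 (4 * ζ0))), Wj_le_Z hZ,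
    V_Wj_zero.eventually (gt_mem_nhds (show (0 : ℝ) < 1 / (2 * (C + 1)) by positivity)),
    hvz, hlogt.eventually_ge_atTop (2 / δ), ev_poly_exp (δ * Real.log 2) (by positivity) 23,
    eventually_ge_atTop 16] with j h1 h2 h3 h4 h4' h5 h6 h7 h8 h9 h10 h11
  obtain ⟨h8a, h8b⟩ := h8
  intro k hk U hU ζ hζ1 hζ2 hcost
  set a : ℕ → ℕ := fun p => A p ω with ha
  have hamix : ∀ (lev m : ℕ), T1 (mix 0 (fun _ => 0) a) lev m U = T1 a lev m U := by
    intro lev m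
    unfold T1
    rw [TT_congr {0} (mix 0 (fun _ => 0) a) a (primesLe lev) m U fun p hp => by
      unfold mix
      rw [if_neg (by have := (mem_primesLe.1 hp).2.pos; omega)]]
  have hjr : (16 : ℝ) ≤ j := by exact_mod_cast h11
  have hj0 : (0 : ℝ) < j := by linarith
  have hVZ := V_pos (Z j)
  have hVW := V_pos (Wj j)
  obtain ⟨w, hw⟩ : ∃ w, w = 2 * U / j := ⟨_, rfl⟩
  have k3 := h3 U hU.u2
  have k4 := h4 U hU.u2
  have k4' := h4' U hU.u2
  have k5 := h5 U hU.u2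
  obtain ⟨u1, u2, u3⟩ := hU.w_le (by omega) (by linarith)
  rw [← hw] at hζ1 hζ2 k3 k4 k4' k5 u1 u2
  have hw8 : 8 ≤ w := (le_max_left _ _).trans k5
  have hwζ : 4 * ζ0 ≤ w := (le_max_right _ _).trans k5
  have hζζ0 : ζ0 ≤ ζ := by omega
  have hwU : w ≤ U := by
    rw [hw]
    refine Nat.div_le_of_le_mul ?_
    nlinarith
  have hUpos : 0 < U := by omega
  have hUr : (0 : ℝ) < U := by exact_mod_cast hUpos
  have hU2r : (2 : ℝ) ≤ U := by exact_mod_cast (by omega : 2 ≤ U)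
  obtain ⟨r, hr⟩ : ∃ r, r = rm U ζ := ⟨_, rfl⟩
  have hr0 : 0 ≤ r := by rw [hr]; exact rm_nonneg U ζ
  have hrC : r ≤ C := by
    rw [hr]
    exact (rm_le_rp U ζ).trans (hrp ζ hζζ0 U hUpos (by
      calc ζ ≤ w := hζ2
        _ ≤ U := hwU
        _ ≤ U ^ 2 := Nat.le_self_pow (by norm_num) U))
  have k3' := k3 U ζ u2 hζ1 hζ2
  rw [← hr] at k3' hcost ⊢
  have hUVZ : (U : ℝ) * V (Z j) ≤ 2 * ((U : ℝ) / j) := by
    calc (U : ℝ) * V (Z j) = (U / j) * (j * V (Z j)) := by field_simp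
      _ ≤ (U / j) * 2 := by gcongr
      _ = _ := by ring
  have hUVZ2 : (U : ℝ) / j ≤ U * V (Z j) := by
    calc (U : ℝ) / j = (U / j) * 1 := (mul_one _).symm
      _ ≤ (U / j) * (j * V (Z j)) := by gcongr
      _ = U * V (Z j) := by field_simp
  have hUj : 2 / δ ≤ (U : ℝ) / j := h9.trans hU.u2
  have hUj0 : 0 < (U : ℝ) / j := by positivity
  have hUj1 : 1 ≤ (U : ℝ) / j := by
    refine le_trans ?_ hUj
    rw [le_div_iff₀ hδ]; linarith
  -- the small primes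
  obtain ⟨v, hv⟩ : ∃ v, v = vj w := ⟨_, rfl⟩
  rw [← hv] at k3' k4 k4'
  have hv1 : (4 : ℝ) ^ v ≤ Real.exp (η / 4 * ((U : ℝ) / j)) := by
    have e : (4 : ℝ) ^ v = Real.exp (v * Real.log 4) := by
      rw [Real.exp_nat_mul, Real.exp_log (by norm_num)]
    rw [e]
    refine Real.exp_le_exp.2 ?_
    have hl4 : Real.log 4 ≤ 2 := by
      have : Real.log 4 = 2 * Real.log 2 := by
        rw [show (4 : ℝ) = 2 ^ 2 by norm_num, Real.log_pow]; norm_num
      rw [this]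
      have := Real.log_two_lt_d9
      linarith
    calc (v : ℝ) * Real.log 4 ≤ (η / 16 * w) * 2 := by gcongr
      _ ≤ (η / 16 * (2 * ((U : ℝ) / j))) * 2 := by gcongr
      _ = η / 4 * ((U : ℝ) / j) := by ring
  have hv2 : 4 ^ v * 4 ^ v ≤ 2 ^ j := by
    have h12 : (v : ℝ) * 4 ≤ j := by
      calc (v : ℝ) * 4 ≤ (1 / (16 * C0) * w) * 4 := by gcongr
        _ ≤ (1 / (16 * C0) * (2 * ((U : ℝ) / j))) * 4 := by gcongr
        _ ≤ (1 / (16 * C0) * (2 * (C0 * j))) * 4 := by gcongr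
        _ = j / 2 := by field_simp; norm_num
        _ ≤ j := by linarith
    have h13 : v * 4 ≤ j := by exact_mod_cast h12
    calc 4 ^ v * 4 ^ v = 2 ^ (v * 4) := by
          rw [← mul_pow, mul_comm v 4, pow_mul]; norm_num
      _ ≤ 2 ^ j := Nat.pow_le_pow_right (by norm_num) h13
  have hvW : v ≤ Wj j := by
    have e1 : v ≤ w := by rw [hv]; exact Nat.div_le_self _ _
    refine e1.trans (hwU.trans (hU.u1.trans ?_))
    unfold Wj; exact Nat.pow_le_pow_right (by omega) (by norm_num)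
  -- the family
  obtain ⟨m0, hm0⟩ := exists_smin U v
  obtain ⟨x0, hx1, hx2, hx3⟩ := T1_attain a v m0 (k * 2 ^ (j - 1))
  have hx4 : T1 a v x0 U = smin U v := by rw [hx3 U, hm0]
  obtain ⟨n, hn⟩ : ∃ n, n = ⌈(r + δ / 4) * (U * V (Wj j))⌉₊ := ⟨_, rfl⟩
  have hn1 : (r + δ / 4) * (U * V (Wj j)) ≤ n := by rw [hn]; exact Nat.le_ceil _
  have hn2 : (n : ℝ) ≤ (r + δ / 4) * (U * V (Wj j)) + 1 := by
    rw [hn]; exact (Nat.ceil_lt_add_one (by positivity)).le
  have hVv := V_pos v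
  have hfamn : (1 + δf) * (T1 a v x0 U * (V (Wj j) / V v)) ≤ n := by
    rw [hx4]
    refine le_trans ?_ hn1
    have e1 : (smin U v : ℝ) * (V (Wj j) / V v) ≤ (r + δ / 16) * (U * V (Wj j)) := by
      calc (smin U v : ℝ) * (V (Wj j) / V v) ≤
          ((r + δ / 16) * (U * V v)) * (V (Wj j) / V v) := by gcongr
        _ = (r + δ / 16) * (U * V (Wj j)) := by field_simp
    have e2 : (1 + δf) * (r + δ / 16) ≤ r + δ / 4 := by
      have e3 : δf * r ≤ δ / 16 := by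
        calc δf * r ≤ δf * (C + 1) := by gcongr; linarith
          _ ≤ δ / 16 := by linarith
      have e4 : δf * (δ / 16) ≤ 1 * (δ / 16) := by gcongr
      nlinarith
    calc (1 + δf) * ((smin U v : ℝ) * (V (Wj j) / V v)) ≤
        (1 + δf) * ((r + δ / 16) * (U * V (Wj j))) := by gcongr
      _ = ((1 + δf) * (r + δ / 16)) * (U * V (Wj j)) := by ring
      _ ≤ (r + δ / 4) * (U * V (Wj j)) := by gcongr
  obtain ⟨i, hij, hi2, hfam⟩ := h2 a k U v x0 n hU.u1 hU.u2 hvW hv1 hv2 hx1 hx2 hfamn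
  -- numbers
  have hnU : n ≤ U := by
    have e1 : (n : ℝ) ≤ U := by
      refine hn2.trans ?_
      have e2 : (r + δ / 4) * (U * V (Wj j)) ≤ U / 2 := by
        calc (r + δ / 4) * (U * V (Wj j)) ≤ (C + 1) * (U * (1 / (2 * (C + 1)))) := by
              gcongr
              linarith
          _ = U / 2 := by field_simp
      linarith
    exact_mod_cast e1
  obtain ⟨ρ, hρd⟩ : ∃ ρ, ρ = V (Z j) / V (Wj j) := ⟨_, rfl⟩
  have hρ0 : 0 < ρ := by rw [hρd]; positivity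
  have hρ1 : ρ ≤ 1 := by rw [hρd, div_le_one hVW]; exact V_anti h6
  have hρn1 : (r + δ / 4) * (U * V (Z j)) ≤ ρ * n := by
    calc (r + δ / 4) * (U * V (Z j)) = ρ * ((r + δ / 4) * (U * V (Wj j))) := by
          rw [hρd]; field_simp
      _ ≤ ρ * n := by gcongr
  have hρn2 : ρ * n ≤ (r + δ / 4) * (U * V (Z j)) + 1 := by
    calc ρ * n ≤ ρ * ((r + δ / 4) * (U * V (Wj j)) + 1) := by gcongr
      _ = (r + δ / 4) * (U * V (Z j)) + ρ := by rw [hρd]; field_simp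
      _ ≤ _ := by linarith
  have c3 : δ / 4 * ((U : ℝ) / j) ≤ V (Z j) / V (Wj j) * n := by
    rw [← hρd]
    refine le_trans ?_ hρn1
    gcongr
    linarith
  have c4 : V (Z j) / V (Wj j) * n ≤ C0' * ((U : ℝ) / j) := by
    rw [← hρd, hC0']
    have e1 : (r + δ / 4) * (U * V (Z j)) ≤ (C + 1) * (2 * ((U : ℝ) / j)) := by
      gcongr
      linarith
    nlinarith
  have hexp1 : 2 ^ j * Real.exp (-((r + δ / 2) * (U * V (Z j))) - 1) ≤
      2 ^ i * Real.exp (-(ρ * n) - η * ((U : ℝ) / j)) := by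
    calc 2 ^ j * Real.exp (-((r + δ / 2) * (U * V (Z j))) - 1) ≤
        2 ^ j * Real.exp (-(η * ((U : ℝ) / j)) + (-(ρ * n) - η * ((U : ℝ) / j))) := by
          have e1 : -((r + δ / 2) * (U * V (Z j))) - 1 ≤
              -(η * ((U : ℝ) / j)) + (-(ρ * n) - η * ((U : ℝ) / j)) := by
            have e2 : η * ((U : ℝ) / j) ≤ δ / 8 * (U * V (Z j)) := by gcongr
            linarith
          have := Real.exp_le_exp.2 e1
          gcongr
      _ = (2 ^ j * Real.exp (-(η * ((U : ℝ) / j)))) *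
            Real.exp (-(ρ * n) - η * ((U : ℝ) / j)) := by rw [Real.exp_add]; ring
      _ ≤ 2 ^ i * Real.exp (-(ρ * n) - η * ((U : ℝ) / j)) := by gcongr
  have c5 : (j : ℝ) ^ 22 ≤ 2 ^ i * Real.exp (-(V (Z j) / V (Wj j) * n) - η * ((U : ℝ) / j)) := by
    rw [← hρd]
    refine le_trans ?_ hexp1
    have e1 : Real.exp (δ * (j * Real.log 2) - 1) ≤
        2 ^ j * Real.exp (-((r + δ / 2) * (U * V (Z j))) - 1) := by
      have e2 : (2 : ℝ) ^ j = Real.exp (j * Real.log 2) := by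
        rw [Real.exp_nat_mul, Real.exp_log (by norm_num)]
      rw [e2, ← Real.exp_add]
      refine Real.exp_le_exp.2 ?_
      have e3 : (r + δ / 2) * (U * V (Z j)) ≤ (r + δ) * (U * V (Z j)) := by
        gcongr; linarith
      linarith
    refine le_trans ?_ e1
    have e4 : (j : ℝ) ^ 23 ≤ Real.exp (δ * Real.log 2 * j) := by
      rw [Real.exp_neg, ← div_eq_mul_inv, div_le_one (Real.exp_pos _)] at h10
      exact h10
    have e5 : Real.exp (δ * (j * Real.log 2) - 1) = Real.exp (δ * Real.log 2 * j) / Real.exp 1 := by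
      rw [← Real.exp_sub]; congr 1; ring
    rw [e5, le_div_iff₀ (Real.exp_pos _)]
    refine le_trans ?_ e4
    have e6 : Real.exp 1 ≤ j := by
      have := Real.exp_one_lt_d9
      linarith
    calc (j : ℝ) ^ 22 * Real.exp 1 ≤ (j : ℝ) ^ 22 * j := by gcongr
      _ = (j : ℝ) ^ 23 := by ring
  have hfam' : Fam (Blk j k) (mix 0 (fun _ => 0) a) (Wj j) U n (2 ^ i) := by
    obtain ⟨M, g1, g2, g3, g4⟩ := hfam
    exact ⟨M, g1, g2, g3, fun m hm => by rw [hamix]; exact g4 m hm⟩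
  have hfin := h1 k hk U hU.u1 n hnU i hij hU.u2 (u3.trans (by
    have : C0 ≤ C0' := by rw [hC0']; linarith
    gcongr)) c3 c4 c5 hfam'
  rw [← hρd] at hfin
  obtain ⟨M, g1, g2, _, g4⟩ := hfin
  refine ⟨M, g1, ?_, fun m hm => ?_⟩
  · refine le_trans ?_ (hexp1.trans g2)
    have e1 : -((r + δ) * (U * V (Z j))) ≤ -((r + δ / 2) * (U * V (Z j))) - 1 := by
      have e2 : 1 ≤ δ / 2 * (U * V (Z j)) := by
        calc 1 = δ / 2 * (2 / δ) := by field_simp
          _ ≤ δ / 2 * (U * V (Z j)) := by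
              have := hUj.trans hUVZ2
              gcongr
      linarith
    have := Real.exp_le_exp.2 e1
    gcongr
  · have := g4 m hm
    rw [hamix] at this
    omega

end Pool.Agent.H532.LG
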