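import Mathlib
import Pool.Agent.H532.LG.Many

/-!
Empty windows and large gaps.
-/

namespace Pool.Agent.H532.LG

open Finset MeasureTheory Function ProbabilityTheory Filter Pool.Agent.H532.RM
open scoped ENNReal Topology

/-- The number of the elements `r` of `R`, `X ≤ r ≤ 2 X`, such that `(r, r + H]` contains no
element of `R`. -/
noncomputable def lg (R : Set ℕ) (X H : ℝ) : ℕ :=
  {r : ℕ | r ∈ R ∧ X ≤ r ∧ (r : ℝ) ≤ 2 * X ∧ ∀ s ∈ R, r < s → (r : ℝ) + H < s}.ncard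

lemma lg_finite (R : Set ℕ) (X H : ℝ) :
    {r : ℕ | r ∈ R ∧ X ≤ r ∧ (r : ℝ) ≤ 2 * X ∧ ∀ s ∈ R, r < s → (r : ℝ) + H < s}.Finite := by
  refine (Set.finite_Iic ⌊2 * X⌋₊).subset fun r hr => ?_
  exact Nat.le_floor hr.2.2.1

/-- every interval of polylogarithmic length contains an element -/
theorem hits : ∃ K : ℕ, 1 ≤ K ∧ ∀ {Ω : Type} [MeasurableSpace Ω] (μ : Measure Ω)
    [IsProbabilityMeasure μ] (A : ℕ → Ω → ℕ), RandomClasses μ A → ∀ z : ℕ → ℕ, Monotone z →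
    Tendsto (fun n : ℕ => V (z n) * Real.log n) atTop (𝓝 1) →
    ∀ᵐ ω ∂μ, ∀ᶠ j : ℕ in atTop, ∀ m ≤ 2 ^ (j + 2), ∃ n ∈ RB z (fun p => A p ω),
      m < n ∧ n ≤ m + (j + 1) ^ K := by
  obtain ⟨K, hK, hmain⟩ := main_block 1 le_rfl 1
  refine ⟨K, hK, ?_⟩
  intro Ω _ μ _ A hA z hzm hz
  have hZ := V_pow_two_add z hz 2
  have hc : ∀ᶠ j : ℕ in atTop, (1 : ℝ) / j ≤ V (z (2 ^ (j + 2))) := by
    have hl2b := Real.log_two_lt_d9
    filter_upwards [hZ.eventually (lt_mem_nhds (show (0.9 : ℝ) < 1 by norm_num)),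
      eventually_ge_atTop 1] with j h1 h2
    have hj0 : (0 : ℝ) < j := by exact_mod_cast h2
    have h3 := V_pos (z (2 ^ (j + 2)))
    rw [div_le_iff₀ hj0]
    have h4 : 0 < V (z (2 ^ (j + 2))) * j := by positivity
    nlinarith
  filter_upwards [hmain μ A hA (fun j => z (2 ^ (j + 2))) 1 one_pos hc (fun _ => 0)
    (fun _ _ => 0) {0} (by simp) (fun p hp => by
      have : nuD {0} p ≤ 1 := by simpa using nuD_le {0} p
      exact lt_of_le_of_lt this hp.one_lt)] with ω hω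
  have hpow : ∀ᶠ j : ℕ in atTop, (j + 1) ^ K ≤ 2 ^ (j + 1 + 1) := by
    have h1 := ev_poly_exp (Real.log 2) (Real.log_pos (by norm_num)) K
    filter_upwards [(tendsto_add_atTop_nat 1).eventually h1] with j hj
    rw [Real.exp_neg, ← div_eq_mul_inv, div_le_one (Real.exp_pos _)] at hj
    have e : Real.exp (Real.log 2 * ((j + 1 : ℕ) : ℝ)) = 2 ^ (j + 1) := by
      rw [mul_comm, Real.exp_nat_mul, Real.exp_log (by norm_num)]
    rw [e] at hj
    have h2 : (j + 1) ^ K ≤ 2 ^ (j + 1) := by exact_mod_cast hj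
    exact h2.trans (Nat.pow_le_pow_right (by norm_num) (by omega))
  filter_upwards [(tendsto_add_atTop_nat 1).eventually hω, hpow] with j hj hp m hm
  have h1 := hj m (by
    have e : j + 1 + 1 = j + 2 := by omega
    rw [e]; exact hm) ((j + 1) ^ K) hp (by simp)
  set a : ℕ → ℕ := fun p => A p ω with ha
  have hVD : 0 < VDQ {0} (primesLe (z (2 ^ (j + 1 + 2)))) := by
    rw [VDQ_zero']
    exact prod_pos fun p hp => fac_pos (mem_primesLe.1 hp).2
  have hU0 : (0 : ℝ) < (((j + 1) ^ K : ℕ) : ℝ) := by positivity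
  have h2 := (abs_le.1 h1).1
  have h3 : 0 < (TT {0} (mix 0 (fun _ => 0) a) (primesLe (z (2 ^ (j + 1 + 2)))) m
      ((j + 1) ^ K)).card := by
    have h4 : 0 < (((j + 1) ^ K : ℕ) : ℝ) * VDQ {0} (primesLe (z (2 ^ (j + 1 + 2)))) := by
      positivity
    have h5 : (0 : ℝ) < (TT {0} (mix 0 (fun _ => 0) a) (primesLe (z (2 ^ (j + 1 + 2)))) m
      ((j + 1) ^ K)).card := by linarith
    exact_mod_cast h5
  obtain ⟨n, hn⟩ := card_pos.1 h3
  obtain ⟨⟨n1, n2⟩, n3⟩ := mem_T1.1 hn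
  refine ⟨n, ?_, n1, n2⟩
  intro p hp hpz
  have h6 : n ≤ 2 ^ (j + 1 + 2) := by
    have e1 : 2 ^ (j + 1 + 2) = 2 ^ (j + 1 + 1) + 2 ^ (j + 1 + 1) := by ring
    have e2 : m ≤ 2 ^ (j + 1 + 1) := hm
    omega
  have h7 : p ≤ z (2 ^ (j + 1 + 2)) := hpz.trans (hzm h6)
  have h8 := n3 p (mem_primesLe.2 ⟨h7, hp⟩)
  unfold mix at h8
  rw [if_neg (by have := hp.pos; omega)] at h8
  exact h8

section
variable {ε X H : ℝ} {j : ℕ} (hs : SC ε X H j) (z : ℕ → ℕ) (hz : Monotone z) (a : ℕ → ℕ)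
  (hHX : H ≤ X)
include hs hz hHX

lemma lg_le : lg (RB z a) X H ≤
    ((range (2 ^ (j + 3))).filter (fun m => T1 a (z (2 ^ (j + 3))) m ⌊H⌋₊ = 0)).card := by
  unfold lg
  rw [← Set.ncard_coe_finset]
  refine Set.ncard_le_ncard ?_ (Finset.finite_toSet _)
  rintro r ⟨h1, h2, h3, h4⟩
  have hX0 := hs.X0
  have hx2 := hs.x2
  have hH0 := hs.H0
  have hj3 : (2 : ℝ) ^ (j + 3) = 4 * 2 ^ (j + 1) := by ring
  have hr : (r : ℝ) < 2 ^ (j + 3) := by
    rw [hj3]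
    have : (0 : ℝ) < 2 ^ (j + 1) := by positivity
    linarith
  refine mem_coe.2 (mem_filter.2 ⟨mem_range.2 (by exact_mod_cast hr), ?_⟩)
  unfold T1
  rw [card_eq_zero, Finset.eq_empty_iff_forall_notMem]
  intro n hn
  obtain ⟨⟨n1, n2⟩, n3⟩ := mem_T1.1 hn
  have hfl : (⌊H⌋₊ : ℝ) ≤ H := Nat.floor_le (by linarith)
  have n2r : (n : ℝ) ≤ r + ⌊H⌋₊ := by exact_mod_cast n2
  have hn3 : n ≤ 2 ^ (j + 3) := by
    have h5 : (n : ℝ) ≤ 2 ^ (j + 3) := by
      rw [hj3]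
      have : (0 : ℝ) < 2 ^ (j + 1) := by positivity
      linarith
    exact_mod_cast h5
  have hnR : n ∈ RB z a := by
    intro p hp hpz
    exact n3 p (mem_primesLe.2 ⟨hpz.trans (hz hn3), hp⟩)
  have := h4 n hnR n1
  linarith

lemma lg_ge (M : Finset ℕ) (K' : ℕ) (hM : ∀ m ∈ M, X ≤ (m : ℝ) ∧ (m : ℝ) ≤ 2 * X)
    (hM0 : ∀ m ∈ M, T1 a (z (2 ^ j)) m ⌊H⌋₊ = 0)
    (hhit : ∀ m ≤ 2 ^ (j + 2), ∃ n ∈ RB z a, m < n ∧ n ≤ m + K') :
    (M.card : ℝ) ≤ (K' + 1) * lg (RB z a) X H + (K' + 2) := by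
  classical
  have hX0 := hs.X0
  have hx1 := hs.x1
  have hx2 := hs.x2
  have hH0 := hs.H0
  set R := RB z a with hR
  -- windows are empty
  have hemp : ∀ m ∈ M, ∀ s ∈ R, m < s → (m : ℝ) + H < s := by
    intro m hm s hs' hms
    by_contra hcon
    rw [not_lt] at hcon
    have h1 : s ≤ m + ⌊H⌋₊ := by
      have h2 : ((s - m : ℕ) : ℝ) ≤ H := by
        rw [Nat.cast_sub hms.le]; linarith
      have h3 := Nat.le_floor h2
      omega
    have h2 : 2 ^ j ≤ s := by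
      have h3 : (2 : ℝ) ^ j ≤ s := by
        have := (hM m hm).1
        have h4 : (m : ℝ) < s := by exact_mod_cast hms
        linarith
      exact_mod_cast h3
    have h3 : s ∈ TT {0} a (primesLe (z (2 ^ j))) m ⌊H⌋₊ := by
      refine mem_T1.2 ⟨⟨hms, h1⟩, fun p hp => ?_⟩
      obtain ⟨hp1, hp2⟩ := mem_primesLe.1 hp
      exact hs' p hp2 (hp1.trans (hz h2))
    have h4 := hM0 m hm
    unfold T1 at h4
    rw [card_eq_zero] at h4
    rw [h4] at h3
    exact absurd h3 (notMem_empty _)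
  obtain ⟨B, hB⟩ : ∃ B : ℕ, B = ⌈X⌉₊ + K' + 1 := ⟨_, rfl⟩
  set M1 := M.filter (fun m => B ≤ m) with hM1
  have hM1c : (M.card : ℝ) ≤ M1.card + (K' + 2) := by
    have h1 : M ⊆ M1 ∪ Ico ⌈X⌉₊ B := by
      intro m hm
      rw [mem_union]
      rcases le_or_gt B m with h | h
      · exact Or.inl (mem_filter.2 ⟨hm, h⟩)
      · exact Or.inr (mem_Ico.2 ⟨Nat.ceil_le.2 (hM m hm).1, h⟩)
    have h2 := (card_le_card h1).trans (card_union_le _ _)
    rw [Nat.card_Ico] at h2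
    have h3 : M.card ≤ M1.card + (K' + 2) := by omega
    exact_mod_cast h3
  -- the last element before `m`
  have hex : ∀ m : ℕ, ∃ r : ℕ, m ∈ M1 → (r ∈ R ∧ m - K' < r + 1 ∧ r ≤ m ∧
      ∀ s ∈ R, r < s → m < s) := by
    intro m
    by_cases hm : m ∈ M1
    · obtain ⟨hmM, hmB⟩ := mem_filter.1 hm
      have hm2 : m - K' ≤ 2 ^ (j + 2) := by
        have h1 : (m : ℝ) ≤ 2 ^ (j + 2) := by
          have := (hM m hmM).2
          have e : (2 : ℝ) ^ (j + 2) = 2 * 2 ^ (j + 1) := by ring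
          rw [e]; linarith
        have h2 : m ≤ 2 ^ (j + 2) := by exact_mod_cast h1
        omega
      obtain ⟨n, hnR, hn1, hn2⟩ := hhit (m - K') hm2
      have hne : ((Ioc (m - K') m).filter (· ∈ R)).Nonempty :=
        ⟨n, mem_filter.2 ⟨mem_Ioc.2 ⟨hn1, by omega⟩, hnR⟩⟩
      obtain ⟨r, hr⟩ : ∃ r, r = ((Ioc (m - K') m).filter (· ∈ R)).max' hne := ⟨_, rfl⟩
      have hrm := max'_mem _ hne
      rw [← hr] at hrm
      obtain ⟨hr1, hr2⟩ := mem_filter.1 hrm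
      have hr3 := mem_Ioc.1 hr1
      refine ⟨r, fun _ => ⟨hr2, by omega, hr3.2, fun s hs' hrs => ?_⟩⟩
      by_contra hcon
      rw [not_lt] at hcon
      have h3 : s ∈ (Ioc (m - K') m).filter (· ∈ R) :=
        mem_filter.2 ⟨mem_Ioc.2 ⟨by omega, hcon⟩, hs'⟩
      have h4 := le_max' _ s h3
      rw [← hr] at h4
      omega
    · exact ⟨0, fun h => absurd h hm⟩
  choose f hf using hex
  have hfib : M1.card ≤ (K' + 1) * (M1.image f).card := by
    refine card_le_mul_card_image _ _ fun r _ => ?_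
    have h1 : M1.filter (fun m => f m = r) ⊆ Icc r (r + K') := by
      intro m hm
      obtain ⟨h2, h3⟩ := mem_filter.1 hm
      obtain ⟨_, h5, h6, _⟩ := hf m h2
      rw [h3] at h5 h6
      rw [mem_Icc]
      omega
    refine (card_le_card h1).trans ?_
    rw [Nat.card_Icc]
    omega
  have himg : (M1.image f).card ≤ lg R X H := by
    unfold lg
    rw [← Set.ncard_coe_finset]
    refine Set.ncard_le_ncard ?_ (lg_finite R X H)
    intro r hr
    obtain ⟨m, hm, rfl⟩ := mem_image.1 (mem_coe.1 hr)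
    obtain ⟨h1, h2, h3, h4⟩ := hf m hm
    obtain ⟨hmM, hmB⟩ := mem_filter.1 hm
    have h5 : ⌈X⌉₊ ≤ f m := by omega
    have h6 : (f m : ℝ) ≤ m := by exact_mod_cast h3
    refine ⟨h1, (Nat.le_ceil X).trans (by exact_mod_cast h5), h6.trans (hM m hmM).2,
      fun s hs' hrs => ?_⟩
    have h7 := hemp m hmM s hs' (h4 s hs' hrs)
    linarith
  have h8 : (M1.card : ℝ) ≤ (K' + 1) * (M1.image f).card := by exact_mod_cast hfib
  have h9 : ((M1.image f).card : ℝ) ≤ lg R X H := by exact_mod_cast himg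
  have h10 : (0 : ℝ) ≤ K' := Nat.cast_nonneg _
  nlinarith

end

end Pool.Agent.H532.LG
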