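import Mathlib
import Pool.Agent.H532.LG.Gaps

/-!
The number of large gaps: deduction of the theorem.
-/

namespace Pool.Agent.H532.LG

open Finset MeasureTheory Function ProbabilityTheory Filter Pool.Agent.H532.RM
open scoped ENNReal Topology

/-- `8 (j + 1) ^ K ≤ exp (c (log j) ^ 3)` -/
lemma ev_log3 (c : ℝ) (hc : 0 < c) (K : ℕ) : ∀ᶠ j : ℕ in atTop,
    8 * ((j : ℝ) + 1) ^ K ≤ Real.exp (c * Real.log j ^ 3) := by
  have h1 : Tendsto (fun j : ℕ => Real.log (j : ℝ)) atTop atTop :=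
    Real.tendsto_log_atTop.comp tendsto_natCast_atTop_atTop
  filter_upwards [h1.eventually_ge_atTop ((3 + 2 * K) / c + 1), eventually_ge_atTop 2] with j h2 h3
  have hj : (2 : ℝ) ≤ j := by exact_mod_cast h3
  have hj0 : (0 : ℝ) < j := by linarith
  have hl2b := Real.log_two_lt_d9
  have hdiv : 0 ≤ (3 + 2 * (K : ℝ)) / c := by positivity
  have ht1 : 1 ≤ Real.log j := by linarith
  have ht2 : (3 + 2 * (K : ℝ)) / c ≤ Real.log j := by linarith
  rw [div_le_iff₀ hc] at ht2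
  set t := Real.log j with ht
  have h4 : 8 * ((j : ℝ) + 1) ^ K ≤ Real.exp (Real.log 8 + K * (Real.log 2 + t)) := by
    have e : Real.exp (Real.log 8 + K * (Real.log 2 + t)) = 8 * (2 * j) ^ K := by
      rw [Real.exp_add, Real.exp_log (by norm_num), Real.exp_nat_mul, Real.exp_add,
        Real.exp_log (by norm_num), ht, Real.exp_log hj0]
    rw [e]
    gcongr
    linarith
  refine h4.trans (Real.exp_le_exp.2 ?_)
  have h8 : Real.log 8 = 3 * Real.log 2 := by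
    rw [show (8 : ℝ) = 2 ^ 3 by norm_num, Real.log_pow]; norm_num
  have hK0 : (0 : ℝ) ≤ K := Nat.cast_nonneg _
  calc Real.log 8 + K * (Real.log 2 + t) ≤ (3 + 2 * K) * t := by
        rw [h8]
        nlinarith
    _ ≤ (t * c) * t := by gcongr
    _ = c * t ^ 2 := by ring
    _ ≤ c * t ^ 3 := by
        have : t ^ 2 ≤ t ^ 3 := pow_le_pow_right₀ ht1 (by norm_num)
        gcongr

lemma range_ok (δ ε : ℝ) (hδ : 0 < δ) (hδ1 : δ ≤ 1) (hε : 0 < ε) (hε1 : ε ≤ 1 / 16) (K J : ℕ) :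
    ∀ᶠ X : ℝ in atTop, J ≤ Nat.log 2 ⌊X⌋₊ ∧
      ∀ H : ℝ, Real.log X * Real.log (Real.log X) ^ 3 ≤ H →
      H ≤ 1 / δ * Real.log X ^ 2 →
      SC ε X H (Nat.log 2 ⌊X⌋₊) ∧ H ≤ X ∧ UOK (1 / δ) (Nat.log 2 ⌊X⌋₊) ⌊H⌋₊ ∧
      2 * ⌊H⌋₊ / Nat.log 2 ⌊X⌋₊ / 4 ≤ ⌊H / Real.log X⌋₊ ∧
      ⌊H / Real.log X⌋₊ ≤ 2 * ⌊H⌋₊ / Nat.log 2 ⌊X⌋₊ ∧
      8 * ((Nat.log 2 ⌊X⌋₊ : ℝ) + 1) ^ K ≤ Real.exp (δ / 4 * (H / Real.log X)) := by
  have hev : ∀ᶠ j : ℕ in atTop, 8 * ((j : ℝ) + 1) ^ K ≤ Real.exp (δ / 32 * Real.log j ^ 3) ∧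
      16 ≤ Real.log j ∧ 1 / δ ≤ (j : ℝ) ∧ 16 ≤ j := by
    have h1 : Tendsto (fun j : ℕ => Real.log (j : ℝ)) atTop atTop :=
      Real.tendsto_log_atTop.comp tendsto_natCast_atTop_atTop
    filter_upwards [ev_log3 (δ / 32) (by positivity) K, h1.eventually_ge_atTop 16,
      tendsto_natCast_atTop_atTop.eventually_ge_atTop (1 / δ), eventually_ge_atTop 16] with
      j h2 h3 h4 h5
    exact ⟨h2, h3, h4, h5⟩
  obtain ⟨J1, hJ1⟩ := eventually_atTop.1 hev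
  have hlogX : Tendsto (fun X : ℝ => 1 / δ * Real.log X ^ 2 / X) atTop (𝓝 0) := by
    have h := (Real.isLittleO_pow_log_id_atTop (n := 2)).tendsto_div_nhds_zero
    have h2 := h.const_mul (1 / δ)
    rw [mul_zero] at h2
    refine h2.congr fun X => ?_
    simp only [id]
    ring
  have hll : ∀ᶠ X : ℝ in atTop, 1 ≤ Real.log (Real.log X) :=
    (Real.tendsto_log_atTop.comp Real.tendsto_log_atTop).eventually_ge_atTop 1
  filter_upwards [sc_ev ε hε (max J J1), hlogX.eventually (gt_mem_nhds one_pos),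
    eventually_gt_atTop 1, hll, Real.tendsto_log_atTop.eventually_ge_atTop 1] with
    X hsc hX2 hX1 hll1 hlX1
  obtain ⟨hJj, hsc⟩ := hsc
  refine ⟨(le_max_left _ _).trans hJj, fun H hH1 hH2 => ?_⟩
  obtain ⟨j, hjd⟩ : ∃ j, j = Nat.log 2 ⌊X⌋₊ := ⟨_, rfl⟩
  rw [← hjd] at hsc hJj ⊢
  obtain ⟨c1, c2, c3, c4⟩ := hJ1 j ((le_max_right _ _).trans hJj)
  have hlX0 : 0 < Real.log X := by linarith
  have hHl : Real.log X ≤ H := by
    refine le_trans ?_ hH1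
    have : 1 ≤ Real.log (Real.log X) ^ 3 := one_le_pow₀ hll1
    nlinarith
  have hs := hsc H hHl
  have hX0 := hs.X0
  have hj0 : (0 : ℝ) < j := by exact_mod_cast (by omega : 0 < j)
  have hj16 : (16 : ℝ) ≤ j := by exact_mod_cast c4
  have hl2a := Real.log_two_gt_d9
  have hl2b := Real.log_two_lt_d9
  have l1 := hs.l1
  have l2 := hs.l2
  have hu1 := hs.u1
  have hu3 := hs.u3
  have hH0 : 0 < H := by linarith
  have hUH : (⌊H⌋₊ : ℝ) ≤ H := Nat.floor_le hH0.le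
  have hlXj : Real.log X ≤ 0.75 * j := by nlinarith
  have hlXj' : 0.69 * j ≤ Real.log X := by nlinarith
  -- loglog X ≥ log j / 2
  have hll2 : Real.log j / 2 ≤ Real.log (Real.log X) := by
    have e : Real.log j / 2 = Real.log (Real.sqrt j) := by
      rw [Real.log_sqrt hj0.le]
    rw [e]
    refine Real.log_le_log (Real.sqrt_pos.2 hj0) ?_
    have h1 : Real.sqrt j ≤ j / 2 := by
      rw [Real.sqrt_le_left (by positivity)]
      nlinarith
    linarith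
  have hh : Real.log j ^ 3 / 8 ≤ H / Real.log X := by
    rw [le_div_iff₀ hlX0]
    refine le_trans ?_ hH1
    have h1 : (Real.log j / 2) ^ 3 ≤ Real.log (Real.log X) ^ 3 := by
      gcongr
    calc Real.log j ^ 3 / 8 * Real.log X = Real.log X * (Real.log j / 2) ^ 3 := by ring
      _ ≤ _ := by gcongr
  have hUC : (⌊H⌋₊ : ℝ) ≤ 1 / δ * (j : ℝ) ^ 2 := by
    refine hUH.trans (hH2.trans ?_)
    have : Real.log X ^ 2 ≤ (j : ℝ) ^ 2 := by
      gcongr; linarith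
    gcongr
  have hlj0 : 0 < Real.log j := by linarith
  refine ⟨hs, ?_, ⟨?_, ?_, hUC⟩, ?_, ?_, ?_⟩
  · rw [div_lt_one hX0] at hX2
    linarith
  · have h1 : (⌊H⌋₊ : ℝ) ≤ (j : ℝ) ^ 3 := by
      refine hUC.trans ?_
      calc 1 / δ * (j : ℝ) ^ 2 ≤ j * (j : ℝ) ^ 2 := by gcongr
        _ = (j : ℝ) ^ 3 := by ring
    exact_mod_cast h1
  · rw [le_div_iff₀ hj0]
    have h1 : Real.log j ^ 3 / 8 * Real.log X ≤ H := by
      rwa [le_div_iff₀ hlX0] at hh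
    have h2 : Real.log j ^ 3 / 8 * (0.69 * j) ≤ H := by
      refine le_trans ?_ h1
      have : 0 ≤ Real.log j ^ 3 / 8 := by positivity
      gcongr
    have h3 : 2 * Real.log j ^ 2 ≤ Real.log j ^ 3 / 8 := by
      have : Real.log j ^ 3 = Real.log j * Real.log j ^ 2 := by ring
      rw [this]
      nlinarith [sq_nonneg (Real.log j)]
    have h4 : 0 ≤ Real.log j ^ 2 * j := by positivity
    have h5 : 2 * Real.log j ^ 2 * (0.69 * j) ≤ H := by
      refine le_trans ?_ h2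
      gcongr
    nlinarith
  · refine Nat.le_floor ?_
    have h1 : ((2 * ⌊H⌋₊ / j / 4 : ℕ) : ℝ) ≤ ((2 * ⌊H⌋₊ / j : ℕ) : ℝ) / 4 := by
      have := @Nat.cast_div_le ℝ _ _ _ (2 * ⌊H⌋₊ / j) 4
      exact_mod_cast this
    have h2 : ((2 * ⌊H⌋₊ / j : ℕ) : ℝ) ≤ (2 * ⌊H⌋₊) / j := by
      have := @Nat.cast_div_le ℝ _ _ _ (2 * ⌊H⌋₊) j
      push_cast at this
      exact this
    calc ((2 * ⌊H⌋₊ / j / 4 : ℕ) : ℝ) ≤ ((2 * ⌊H⌋₊) / j) / 4 := by linarith
      _ ≤ ((2 * H) / j) / 4 := by gcongr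
      _ = H / (2 * j) := by ring
      _ ≤ H / Real.log X := by gcongr; linarith
  · rw [Nat.le_div_iff_mul_le (by omega)]
    have h1 : ((⌊H / Real.log X⌋₊ * j : ℕ) : ℝ) ≤ ((2 * ⌊H⌋₊ : ℕ) : ℝ) := by
      push_cast
      have h2 : (⌊H / Real.log X⌋₊ : ℝ) ≤ H / Real.log X := Nat.floor_le (by positivity)
      have h3 : H / Real.log X ≤ H / (0.69 * j) := by gcongr
      calc (⌊H / Real.log X⌋₊ : ℝ) * j ≤ H / (0.69 * j) * j := by
            gcongr; linarith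
        _ = H / 0.69 := by field_simp
        _ ≤ 2 * ((1 - ε) * H) := by
            rw [div_le_iff₀ (by norm_num)]
            nlinarith
        _ ≤ 2 * ⌊H⌋₊ := by linarith
    exact_mod_cast h1
  · refine c1.trans (Real.exp_le_exp.2 ?_)
    calc δ / 32 * Real.log j ^ 3 = δ / 4 * (Real.log j ^ 3 / 8) := by ring
      _ ≤ _ := by gcongr

/-- the density compared with `1 / log X` -/
lemma u_bds {ε X H v : ℝ} {j : ℕ} (hs : SC ε X H j) (hε : 0 < ε) (hε1 : ε ≤ 1 / 16)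
    (hlX : 0 < Real.log X) (hv0 : 0 < v) (hv1 : 1 - ε ≤ v * (j * Real.log 2))
    (hv2 : v * (j * Real.log 2) ≤ 1 + ε) :
    (1 - 3 * ε) * (H / Real.log X) ≤ ⌊H⌋₊ * v ∧ ⌊H⌋₊ * v ≤ (1 + 3 * ε) * (H / Real.log X) := by
  have hH0 : 0 < H := by linarith [hs.H0]
  have hj0 : (0 : ℝ) < j := by exact_mod_cast (by have := hs.j16; omega : 0 < j)
  have hl2 : 0 < Real.log 2 := Real.log_pos (by norm_num)
  have hjl : 0 < j * Real.log 2 := by positivity
  have hUH : (⌊H⌋₊ : ℝ) ≤ H := Nat.floor_le hH0.le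
  have hU0 : (0 : ℝ) ≤ ⌊H⌋₊ := Nat.cast_nonneg _
  have l1 := hs.l1
  have l2 := hs.l2
  have hu1 := hs.u1
  constructor
  · rw [← mul_div_assoc, div_le_iff₀ hlX]
    calc (1 - 3 * ε) * H ≤ ((1 - ε) * H) * (1 - ε) := by nlinarith
      _ ≤ ⌊H⌋₊ * (v * (j * Real.log 2)) := by
          have : 0 ≤ 1 - ε := by linarith
          gcongr
      _ = ⌊H⌋₊ * v * (j * Real.log 2) := by ring
      _ ≤ ⌊H⌋₊ * v * Real.log X := by gcongr
  · rw [← mul_div_assoc, le_div_iff₀ hlX]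
    calc ⌊H⌋₊ * v * Real.log X ≤ ⌊H⌋₊ * v * ((1 + ε) * (j * Real.log 2)) := by gcongr
      _ = ⌊H⌋₊ * (1 + ε) * (v * (j * Real.log 2)) := by ring
      _ ≤ H * (1 + ε) * (1 + ε) := by gcongr
      _ ≤ (1 + 3 * ε) * H := by nlinarith

theorem count_main (δ : ℝ) (hδ : 0 < δ) (hδ1 : δ ≤ 1) {Ω : Type}
    [MeasurableSpace Ω] (μ : Measure Ω) [IsProbabilityMeasure μ] (A : ℕ → Ω → ℕ)
    (hA : RandomClasses μ A) (z : ℕ → ℕ) (hzm : Monotone z)
    (hz : Tendsto (fun n : ℕ => V (z n) * Real.log n) atTop (𝓝 1)) :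
    ∀ᵐ ω ∂μ, ∀ᶠ X : ℝ in atTop, ∀ H : ℝ, Real.log X * Real.log (Real.log X) ^ 3 ≤ H →
      H ≤ 1 / δ * Real.log X ^ 2 →
      (lg (RB z (fun p => A p ω)) X H : ℝ) ≤
        X * Real.exp (-((rm ⌊H⌋₊ ⌊H / Real.log X⌋₊ - δ) * (H / Real.log X))) ∧
      ((rm ⌊H⌋₊ ⌊H / Real.log X⌋₊ + δ) * H ≤ (1 - δ) * Real.log X ^ 2 →
        X * Real.exp (-((rm ⌊H⌋₊ ⌊H / Real.log X⌋₊ + δ) * (H / Real.log X))) ≤
          lg (RB z (fun p => A p ω)) X H) := by
  obtain ⟨C, hC, ζ0, hrp⟩ := rp_bdd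
  obtain ⟨K, hK, hhits⟩ := hits
  obtain ⟨ε, hε⟩ : ∃ ε : ℝ, ε = min (1 / 16) (δ / (24 * (C + 1))) := ⟨_, rfl⟩
  have hε0 : 0 < ε := by rw [hε]; exact lt_min (by norm_num) (by positivity)
  have hε1 : ε ≤ 1 / 16 := by rw [hε]; exact min_le_left _ _
  have hε2 : 24 * ε * (C + 1) ≤ δ := by
    have h1 : ε ≤ δ / (24 * (C + 1)) := by rw [hε]; exact min_le_right _ _
    rw [le_div_iff₀ (by positivity)] at h1
    linarith
  have hεδ : 24 * ε ≤ δ := by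
    refine le_trans ?_ hε2
    nlinarith [mul_pos hε0 hC]
  have hZ1 := V_pow_two_add z hz 3
  have hZ0 := V_pow_two z hz
  have hv1 : ∀ᶠ j : ℕ in atTop, 1 - ε ≤ V (z (2 ^ (j + 3))) * (j * Real.log 2) ∧
      V (z (2 ^ (j + 3))) * (j * Real.log 2) ≤ 1 + ε := by
    filter_upwards [hZ1.eventually (lt_mem_nhds (show 1 - ε < 1 by linarith)),
      hZ1.eventually (gt_mem_nhds (show 1 < 1 + ε by linarith))] with j h1 h2
    exact ⟨h1.le, h2.le⟩
  have hv0 : ∀ᶠ j : ℕ in atTop, 1 - ε ≤ V (z (2 ^ j)) * (j * Real.log 2) ∧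
      V (z (2 ^ j)) * (j * Real.log 2) ≤ 1 + ε := by
    filter_upwards [hZ0.eventually (lt_mem_nhds (show 1 - ε < 1 by linarith)),
      hZ0.eventually (gt_mem_nhds (show 1 < 1 + ε by linarith))] with j h1 h2
    exact ⟨h1.le, h2.le⟩
  have hbig : ∀ᶠ j : ℕ in atTop, 2 * (((j : ℝ) + 1) ^ K + 2) ≤
      Real.exp (δ / 4 * (j * Real.log 2)) := by
    have hl2 : 0 < Real.log 2 := Real.log_pos (by norm_num)
    have h1 := ev_poly_exp (δ / 4 * Real.log 2) (by positivity) (K + 1)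
    filter_upwards [h1, eventually_ge_atTop (6 * 2 ^ K)] with j h2 h3
    have hj6 : ((6 * 2 ^ K : ℕ) : ℝ) ≤ j := by exact_mod_cast h3
    push_cast at hj6
    have hj1 : (1 : ℝ) ≤ j := by
      have : (1 : ℝ) ≤ 2 ^ K := one_le_pow₀ (by norm_num)
      linarith
    rw [Real.exp_neg, ← div_eq_mul_inv, div_le_one (Real.exp_pos _)] at h2
    have e : δ / 4 * (j * Real.log 2) = δ / 4 * Real.log 2 * j := by ring
    rw [e]
    refine le_trans ?_ h2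
    have h4 : ((j : ℝ) + 1) ^ K ≤ (2 * j) ^ K := by gcongr; linarith
    have h5 : (1 : ℝ) ≤ ((j : ℝ) + 1) ^ K := one_le_pow₀ (by linarith)
    calc 2 * (((j : ℝ) + 1) ^ K + 2) ≤ 2 * (3 * ((j : ℝ) + 1) ^ K) := by linarith
      _ ≤ 2 * (3 * (2 * j) ^ K) := by gcongr
      _ = (6 * 2 ^ K) * (j : ℝ) ^ K := by rw [mul_pow]; ring
      _ ≤ j * (j : ℝ) ^ K := by gcongr
      _ = (j : ℝ) ^ (K + 1) := by ring
  have hCδ : 1 ≤ 1 / δ := by rw [le_div_iff₀ hδ]; linarith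
  filter_upwards [empty_count (δ / 4) (1 / δ) (by positivity) (by linarith) (by positivity) μ A hA
      (fun j => z (2 ^ (j + 3))) hZ1,
    many_empty (δ / 4) (1 / δ) (by positivity) (by linarith) hCδ μ A hA
      (fun j => z (2 ^ j)) hZ0,
    hhits μ A hA z hzm hz] with ω he hm hh
  obtain ⟨J, hJ⟩ := eventually_atTop.1 (((he.and hm).and hh).and ((hv1.and hv0).and hbig))
  have hlX16 : ∀ᶠ X : ℝ in atTop, (ζ0 : ℝ) + 2 ≤ Real.log (Real.log X) :=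
    (Real.tendsto_log_atTop.comp Real.tendsto_log_atTop).eventually_ge_atTop _
  filter_upwards [range_ok δ ε hδ hδ1 hε0 hε1 K J, hlX16,
    Real.tendsto_log_atTop.eventually_ge_atTop 1] with X hX hll hlX1
  obtain ⟨hJj, hX⟩ := hX
  intro H hH1 hH2
  obtain ⟨hs, hHX, hU, hζ1, hζ2, h8⟩ := hX H hH1 hH2
  obtain ⟨j, hjd⟩ : ∃ j, j = Nat.log 2 ⌊X⌋₊ := ⟨_, rfl⟩
  rw [← hjd] at hs hU hζ1 hζ2 h8 hJj
  obtain ⟨⟨⟨he, hm⟩, hh⟩, ⟨⟨hv1, hv0⟩, hbig⟩⟩ := hJ j hJj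
  obtain ⟨U, hUd⟩ : ∃ U, U = ⌊H⌋₊ := ⟨_, rfl⟩
  obtain ⟨ζ, hζd⟩ : ∃ ζ, ζ = ⌊H / Real.log X⌋₊ := ⟨_, rfl⟩
  have hlX0 : 0 < Real.log X := by linarith
  have hH0 : 0 < H := by linarith [hs.H0]
  obtain ⟨h, hhd⟩ : ∃ h, h = H / Real.log X := ⟨_, rfl⟩
  have hh0 : 0 < h := by rw [hhd]; positivity
  have hll3 : (ζ0 : ℝ) + 2 ≤ h := by
    rw [hhd, le_div_iff₀ hlX0]
    refine le_trans ?_ hH1
    have h1 : (1 : ℝ) ≤ Real.log (Real.log X) := by
      have : (0 : ℝ) ≤ ζ0 := Nat.cast_nonneg _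
      linarith
    have h2 : Real.log (Real.log X) ≤ Real.log (Real.log X) ^ 3 := le_self_pow₀ h1 (by norm_num)
    have h3 : (ζ0 : ℝ) + 2 ≤ Real.log (Real.log X) ^ 3 := hll.trans h2
    calc ((ζ0 : ℝ) + 2) * Real.log X ≤ Real.log (Real.log X) ^ 3 * Real.log X := by gcongr
      _ = _ := by ring
  have hζζ0 : ζ0 ≤ ζ := by
    rw [hζd, ← hhd]
    refine Nat.le_floor ?_
    linarith
  have hζU : ζ ≤ U := by
    rw [hζd, hUd]
    refine Nat.floor_le_floor ?_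
    rw [div_le_iff₀ hlX0]
    nlinarith
  have hUpos : 0 < U := by
    rw [hUd]
    exact Nat.floor_pos.2 hs.H0.le
  have hrC : rm U ζ ≤ C := (rm_le_rp U ζ).trans (hrp ζ hζζ0 U hUpos
    (hζU.trans (Nat.le_self_pow (by norm_num) U)))
  have hr0 : 0 ≤ rm U ζ := rm_nonneg U ζ
  obtain ⟨r, hr⟩ : ∃ r, r = rm U ζ := ⟨_, rfl⟩
  have hub1 := u_bds hs hε0 hε1 hlX0 (V_pos (z (2 ^ (j + 3)))) hv1.1 hv1.2
  have hub0 := u_bds hs hε0 hε1 hlX0 (V_pos (z (2 ^ j))) hv0.1 hv0.2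
  rw [← hUd] at hU hζ1 hζ2 hub1 hub0 ⊢
  rw [← hhd] at hub1 hub0 h8 ⊢
  rw [hhd] at ⊢
  rw [← hζd] at hζ1 hζ2 ⊢
  rw [← hhd] at ⊢
  rw [← hr] at hrC hr0 ⊢
  constructor
  · -- upper bound
    have h1 := lg_le hs z hzm (fun p => A p ω) hHX
    have h2 := he U hU ζ hζ1 hζ2
    rw [← hr] at h2
    rw [← hUd] at h1
    have h3 : (lg (RB z (fun p => A p ω)) X H : ℝ) ≤
        (((range (2 ^ (j + 3))).filter (fun m => T1 (fun p => A p ω) (z (2 ^ (j + 3))) m U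
          = 0)).card : ℝ) := by exact_mod_cast h1
    refine (h3.trans h2).trans ?_
    have hexp : (r - δ) * h ≤ (r - δ / 4) * (U * V (z (2 ^ (j + 3)))) := by
      obtain ⟨u, hu⟩ : ∃ u, u = (U : ℝ) * V (z (2 ^ (j + 3))) := ⟨_, rfl⟩
      rw [← hu] at hub1 ⊢
      have k1 : r * ((1 - 3 * ε) * h) ≤ r * u := mul_le_mul_of_nonneg_left hub1.1 hr0
      have k2 : δ / 4 * u ≤ δ / 4 * ((1 + 3 * ε) * h) := by
        refine mul_le_mul_of_nonneg_left hub1.2 (by positivity)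
      have k3 : r * (3 * ε * h) ≤ C * (3 * ε * h) := by gcongr
      have k4 : C * (3 * ε * h) ≤ δ / 8 * h := by
        have : 24 * ε * C ≤ δ := by
          refine le_trans ?_ hε2
          gcongr; linarith
        nlinarith
      have k5 : δ / 4 * ((1 + 3 * ε) * h) ≤ δ / 2 * h := by
        have : 0 ≤ δ * h := by positivity
        nlinarith
      have k6 : 0 ≤ δ * h := by positivity
      nlinarith
    have hx1 := hs.x1
    have hX0 := hs.X0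
    gcongr
  · -- lower bound
    intro hcond
    obtain ⟨k, hk5, hkb⟩ := blk_in hs
    obtain ⟨u, hu⟩ : ∃ u, u = (U : ℝ) * V (z (2 ^ j)) := ⟨_, rfl⟩
    rw [← hu] at hub0
    have hj0 : (0 : ℝ) < j := by exact_mod_cast (by have := hs.j16; omega : 0 < j)
    have hl2 : 0 < Real.log 2 := Real.log_pos (by norm_num)
    have hjl : 0 < j * Real.log 2 := by positivity
    have l2 := hs.l2
    have k0 : 0 ≤ ε * h := by positivity
    have kδ : 0 ≤ δ * h := by positivity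
    have hexp : (r + δ / 4) * u ≤ (r + δ / 2) * h := by
      have k1 : (r + δ / 4) * u ≤ (r + δ / 4) * ((1 + 3 * ε) * h) :=
        mul_le_mul_of_nonneg_left hub0.2 (by linarith)
      have k3 : r * (3 * ε * h) ≤ C * (3 * ε * h) := by gcongr
      have k4 : C * (3 * ε * h) ≤ δ / 8 * h := by
        have : 24 * ε * C ≤ δ := by
          refine le_trans ?_ hε2
          gcongr; linarith
        nlinarith
      have k5 : δ / 4 * (3 * ε * h) ≤ δ / 8 * h := by nlinarith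
      nlinarith
    have hδε : (1 + ε) * (1 - δ) ≤ 1 - δ / 4 := by nlinarith
    have hc2 : (r + δ) * h ≤ (1 - δ) * Real.log X := by
      rw [hhd, ← mul_div_assoc, div_le_iff₀ hlX0]
      calc (r + δ) * H ≤ (1 - δ) * Real.log X ^ 2 := hcond
        _ = _ := by ring
    have hc3 : (r + δ / 4) * u ≤ (1 - δ / 4) * (j * Real.log 2) := by
      calc (r + δ / 4) * u ≤ (r + δ / 2) * h := hexp
        _ ≤ (r + δ) * h := by nlinarith
        _ ≤ (1 - δ) * Real.log X := hc2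
        _ ≤ (1 - δ) * ((1 + ε) * (j * Real.log 2)) := by
            have : 0 ≤ 1 - δ := by linarith
            gcongr
        _ = ((1 + ε) * (1 - δ)) * (j * Real.log 2) := by ring
        _ ≤ _ := by gcongr
    obtain ⟨M, hM1, hM2, hM3⟩ := hm k hk5 U hU ζ hζ1 hζ2 (by rw [← hr, ← hu]; exact hc3)
    rw [← hr, ← hu] at hM2
    have hlg := lg_ge hs z hzm (fun p => A p ω) hHX M ((j + 1) ^ K) (fun m hm => hkb m (hM1 hm))
      (fun m hm => by rw [← hUd]; exact hM3 m hm) hh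
    obtain ⟨L, hL⟩ : ∃ L : ℝ, L = lg (RB z (fun p => A p ω)) X H := ⟨_, rfl⟩
    rw [← hL] at hlg ⊢
    push_cast at hlg
    obtain ⟨P, hP⟩ : ∃ P : ℝ, P = ((j : ℝ) + 1) ^ K := ⟨_, rfl⟩
    rw [← hP] at hlg hbig h8
    have hP1 : 1 ≤ P := by rw [hP]; exact one_le_pow₀ (by linarith)
    have h2j : Real.exp (j * Real.log 2) = 2 ^ j := by
      rw [Real.exp_nat_mul, Real.exp_log (by norm_num)]
    have hMbig : 2 * (P + 2) ≤ M.card := by
      refine hbig.trans (le_trans ?_ hM2)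
      rw [← h2j, ← Real.exp_add]
      refine Real.exp_le_exp.2 ?_
      linarith
    have h3 : (M.card : ℝ) ≤ 2 * (P + 1) * L := by linarith
    have h4 : 2 ^ j * Real.exp (-((r + δ / 2) * h)) ≤ (M.card : ℝ) := by
      refine le_trans ?_ hM2
      have : -((r + δ / 2) * h) ≤ -((r + δ / 4) * u) := by linarith
      gcongr
    have h5 : 4 * (P + 1) ≤ Real.exp (δ / 2 * h) := by
      calc 4 * (P + 1) ≤ 8 * P := by linarith
        _ ≤ Real.exp (δ / 4 * h) := h8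
        _ ≤ Real.exp (δ / 2 * h) := by
            refine Real.exp_le_exp.2 ?_
            nlinarith
    have hL0 : 0 ≤ L := by rw [hL]; positivity
    have h6 : Real.exp (-((r + δ / 2) * h)) = Real.exp (δ / 2 * h) *
        Real.exp (-((r + δ) * h)) := by
      rw [← Real.exp_add]; congr 1; ring
    rw [h6] at h4
    obtain ⟨E, hE⟩ : ∃ E, E = Real.exp (-((r + δ) * h)) := ⟨_, rfl⟩
    rw [← hE] at h4 ⊢
    have hE0 : 0 < E := by rw [hE]; exact Real.exp_pos _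
    have hx2 := hs.x2
    have h7 : (2 : ℝ) ^ j * (4 * (P + 1) * E) ≤ 2 * (P + 1) * L := by
      refine le_trans ?_ (h4.trans h3)
      gcongr
    have h9 : (2 * (P + 1)) * ((2 : ℝ) ^ j * 2 * E) ≤ (2 * (P + 1)) * L := by
      calc (2 * (P + 1)) * ((2 : ℝ) ^ j * 2 * E) = (2 : ℝ) ^ j * (4 * (P + 1) * E) := by ring
        _ ≤ _ := h7
    have h10 := le_of_mul_le_mul_left h9 (by positivity)
    calc X * E ≤ (2 : ℝ) ^ (j + 1) * E := by gcongr
      _ = (2 : ℝ) ^ j * 2 * E := by ring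
      _ ≤ L := h10

end Pool.Agent.H532.LG
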