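import Mathlib
import Pool.Agent.H532.RM.Facts

/-!
The size of the normalised minimum of the interval sieve for the windows of the large gaps.
-/

namespace Pool.Agent.H532.LG

open Finset Filter Pool.Agent.H532.RM
open scoped Topology

theorem rm_lt_one (ε : ℝ) (hε : 0 < ε) : ∃ c : ℝ, 0 < c ∧ ∀ᶠ X : ℝ in atTop, ∀ H : ℝ,
    Real.log X ^ (1 + ε) ≤ H → H ≤ 1 / ε * Real.log X ^ 2 →
    rm ⌊H⌋₊ ⌊H / Real.log X⌋₊ ≤ 1 - c := by
  obtain ⟨c, hc, _, hm⟩ := maier (6 / ε)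
  obtain ⟨ζ0, hζ0⟩ := eventually_atTop.1 hm
  refine ⟨c, hc, ?_⟩
  have hL := Real.tendsto_log_atTop
  have h1 : Tendsto (fun X : ℝ => Real.log X ^ (ε / 2)) atTop atTop :=
    (tendsto_rpow_atTop (by positivity)).comp hL
  filter_upwards [hL.eventually_ge_atTop 1, hL.eventually_ge_atTop (1 / ε),
    h1.eventually_ge_atTop (ζ0 + 2)] with X h2 h3 h4 H hH1 hH2
  obtain ⟨L, hLd⟩ : ∃ L, L = Real.log X := ⟨_, rfl⟩
  rw [← hLd] at h2 h3 h4 hH1 hH2 ⊢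
  have hL0 : 0 < L := by linarith
  have hz0 : (0 : ℝ) ≤ ζ0 := Nat.cast_nonneg _
  have hHL : L ^ ε ≤ H / L := by
    rw [le_div_iff₀ hL0]
    have : L ^ (1 + ε) = L * L ^ ε := by rw [Real.rpow_add hL0, Real.rpow_one]
    linarith
  have h5 : L ^ ε = L ^ (ε / 2) * L ^ (ε / 2) := by
    rw [← Real.rpow_add hL0]; congr 1; ring
  have h6 : L ^ (ε / 2) + 1 ≤ L ^ ε := by
    rw [h5]; nlinarith
  have h7 : L ^ (ε / 2) ≤ ⌊H / L⌋₊ := by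
    have := Nat.lt_floor_add_one (H / L)
    linarith
  have hζ : ζ0 ≤ ⌊H / L⌋₊ := by
    have : (ζ0 : ℝ) ≤ ⌊H / L⌋₊ := by linarith
    exact_mod_cast this
  have hH0 : 1 ≤ H := by
    refine le_trans ?_ hH1
    exact Real.one_le_rpow h2 (by linarith)
  refine (hζ0 _ hζ ⌊H⌋₊ (Nat.floor_pos.2 hH0) ?_).2
  have h8 : (⌊H⌋₊ : ℝ) ≤ L ^ (3 : ℝ) := by
    refine (Nat.floor_le (by linarith)).trans (hH2.trans ?_)
    have : L ^ (3 : ℝ) = L * L ^ 2 := by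
      rw [show (3 : ℝ) = ((3 : ℕ) : ℝ) by norm_num, Real.rpow_natCast]; ring
    rw [this]
    gcongr
  refine h8.trans ?_
  have h9 : L ^ (3 : ℝ) = (L ^ (ε / 2)) ^ (6 / ε) := by
    rw [← Real.rpow_mul hL0.le]
    congr 1
    field_simp
    norm_num
  rw [h9]
  exact Real.rpow_le_rpow (by positivity) h7 (by positivity)

theorem rm_near_one (δ : ℝ) (hδ : 0 < δ) : ∃ ε : ℝ, 0 < ε ∧ ∀ᶠ X : ℝ in atTop, ∀ H : ℝ,
    Real.log X * Real.log (Real.log X) ^ 3 ≤ H → H ≤ Real.log X ^ (1 + ε) →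
    |rm ⌊H⌋₊ ⌊H / Real.log X⌋₊ - 1| ≤ δ := by
  obtain ⟨K, hK⟩ := rp_to_one δ hδ
  obtain ⟨ζ0, hζ0⟩ := eventually_atTop.1 hK
  refine ⟨1 / (K + 1), by positivity, ?_⟩
  have hL := Real.tendsto_log_atTop
  have hLL := hL.comp hL
  filter_upwards [hL.eventually_ge_atTop 1, hLL.eventually_ge_atTop (ζ0 + 2)] with X h2 h4 H hH1 hH2
  simp only [Function.comp] at h4
  obtain ⟨L, hLd⟩ : ∃ L, L = Real.log X := ⟨_, rfl⟩
  rw [← hLd] at h2 h4 hH1 hH2 ⊢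
  have hL0 : 0 < L := by linarith
  have hz0 : (0 : ℝ) ≤ ζ0 := Nat.cast_nonneg _
  have h5 : Real.log L ≤ Real.log L ^ 3 := le_self_pow₀ (by linarith) (by norm_num)
  have h6 : (ζ0 : ℝ) + 2 ≤ H / L := by
    rw [le_div_iff₀ hL0]
    calc ((ζ0 : ℝ) + 2) * L ≤ Real.log L ^ 3 * L := by gcongr; linarith
      _ ≤ H := by linarith
  have hζ : ζ0 ≤ ⌊H / L⌋₊ := Nat.le_floor (by linarith)
  have hHL : 2 * L ≤ H := by
    rw [le_div_iff₀ hL0] at h6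
    nlinarith
  refine (hζ0 _ hζ ⌊H⌋₊ ?_).2
  have h7 : (⌊H / L⌋₊ : ℝ) ≤ L ^ (1 / ((K : ℝ) + 1)) := by
    refine (Nat.floor_le (div_nonneg (by linarith) hL0.le)).trans ?_
    rw [div_le_iff₀ hL0]
    calc H ≤ L ^ (1 + 1 / ((K : ℝ) + 1)) := hH2
      _ = _ := by rw [Real.rpow_add hL0, Real.rpow_one, mul_comm]
  have h8 : ((⌊H / L⌋₊ : ℝ)) ^ K ≤ L := by
    calc ((⌊H / L⌋₊ : ℝ)) ^ K ≤ (L ^ (1 / ((K : ℝ) + 1))) ^ K := by gcongr
      _ = L ^ (K / ((K : ℝ) + 1)) := by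
          rw [← Real.rpow_mul_natCast hL0.le]; congr 1; ring
      _ ≤ L ^ (1 : ℝ) := by
          refine Real.rpow_le_rpow_of_exponent_le h2 ?_
          rw [div_le_one (by positivity)]
          linarith
      _ = L := Real.rpow_one L
  have h9 : ((⌊H / L⌋₊ ^ K : ℕ) : ℝ) ≤ ⌊H⌋₊ := by
    push_cast
    have := Nat.lt_floor_add_one H
    linarith
  exact_mod_cast h9

end Pool.Agent.H532.LG
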